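import Mathlib

/-!
# Definitions for problem MP_48de40_an

The manifold is the compact nilmanifold `M = Gam \ N`, where `N = H × H` is the product of two
copies of the Heisenberg group `H = ℝ³` and `Gam` is the Heisenberg group over the ring `ℤ[√2]`,
embedded in `N` through the two real embeddings of `ℤ[√2]` and acting by left translations.
Everything on `M` is described on its universal cover `V = ℝ³ × ℝ³`.
-/

open MeasureTheory Set Filter Topology
open scoped ContDiff

namespace Pool.Agent.Lib.MP_48de40_an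

/-- `ℝ³`, the underlying space of the Heisenberg group. -/
abbrev V3 := ℝ × ℝ × ℝ

/-- The Heisenberg product `(x,y,z)(x',y',z') = (x+x', y+y', z+z'+xy'-yx')`. -/
def hm (p q : V3) : V3 :=
  (p.1 + q.1, p.2.1 + q.2.1, p.2.2 + q.2.2 + p.1 * q.2.1 - p.2.1 * q.1)

/-- The universal cover `V = ℝ³ × ℝ³` of the manifold. -/
abbrev V := (ℝ × ℝ × ℝ) × (ℝ × ℝ × ℝ)

/-- The first real embedding of `ℤ[√2]`. -/
noncomputable def s1 (a : ℤ√2) : ℝ := (a.re : ℝ) + (a.im : ℝ) * √2

/-- The second real embedding of `ℤ[√2]`. -/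
noncomputable def s2 (a : ℤ√2) : ℝ := (a.re : ℝ) - (a.im : ℝ) * √2

/-- The deck group: the Heisenberg group over the ring `ℤ[√2]`. -/
@[ext] structure Gam where
  /-- first coordinate -/
  a : ℤ√2
  /-- second coordinate -/
  b : ℤ√2
  /-- central coordinate -/
  c : ℤ√2

namespace Gam

instance : Mul Gam := ⟨fun g h => ⟨g.a + h.a, g.b + h.b, g.c + h.c + g.a * h.b - g.b * h.a⟩⟩
instance : One Gam := ⟨⟨0, 0, 0⟩⟩
instance : Inv Gam := ⟨fun g => ⟨-g.a, -g.b, -g.c⟩⟩

@[simp] theorem mul_a (g h : Gam) : (g * h).a = g.a + h.a := rfl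
@[simp] theorem mul_b (g h : Gam) : (g * h).b = g.b + h.b := rfl
@[simp] theorem mul_c (g h : Gam) : (g * h).c = g.c + h.c + g.a * h.b - g.b * h.a := rfl
@[simp] theorem one_a : (1 : Gam).a = 0 := rfl
@[simp] theorem one_b : (1 : Gam).b = 0 := rfl
@[simp] theorem one_c : (1 : Gam).c = 0 := rfl
@[simp] theorem inv_a (g : Gam) : (g⁻¹).a = -g.a := rfl
@[simp] theorem inv_b (g : Gam) : (g⁻¹).b = -g.b := rfl
@[simp] theorem inv_c (g : Gam) : (g⁻¹).c = -g.c := rfl

instance : Group Gam where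
  mul_assoc g h k := by
    ext1 <;> simp only [mul_a, mul_b, mul_c] <;> ring
  one_mul g := by ext1 <;> simp
  mul_one g := by ext1 <;> simp
  inv_mul_cancel g := by
    ext1
    · simp
    · simp
    · simp only [mul_c, inv_a, inv_b, inv_c, one_c]; ring

end Gam

/-- The embedding of the deck group in the group `N = H × H`. -/
noncomputable def emb (g : Gam) : V := ((s1 g.a, s1 g.b, s1 g.c), (s2 g.a, s2 g.b, s2 g.c))

theorem s1_add (a b : ℤ√2) : s1 (a + b) = s1 a + s1 b := by simp [s1]; ring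
theorem s2_add (a b : ℤ√2) : s2 (a + b) = s2 a + s2 b := by simp [s2]; ring
theorem s1_sub (a b : ℤ√2) : s1 (a - b) = s1 a - s1 b := by simp [s1]; ring
theorem s2_sub (a b : ℤ√2) : s2 (a - b) = s2 a - s2 b := by simp [s2]; ring
theorem s1_mul (a b : ℤ√2) : s1 (a * b) = s1 a * s1 b := by
  have h : √(2:ℝ) * √2 = 2 := Real.mul_self_sqrt (by norm_num)
  simp only [s1, Zsqrtd.re_mul, Zsqrtd.im_mul]
  push_cast
  linear_combination (-(a.im : ℝ) * b.im) * h
theorem s2_mul (a b : ℤ√2) : s2 (a * b) = s2 a * s2 b := by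
  have h : √(2:ℝ) * √2 = 2 := Real.mul_self_sqrt (by norm_num)
  simp only [s2, Zsqrtd.re_mul, Zsqrtd.im_mul]
  push_cast
  linear_combination (-(a.im : ℝ) * b.im) * h
@[simp] theorem s1_zero : s1 0 = 0 := by simp [s1]
@[simp] theorem s2_zero : s2 0 = 0 := by simp [s2]
@[simp] theorem s1_one : s1 1 = 1 := by simp [s1]
@[simp] theorem s2_one : s2 1 = 1 := by simp [s2]

/-- The action of the deck group on `V` by left translations. -/
noncomputable instance : MulAction Gam V where
  smul g x := (hm (emb g).1 x.1, hm (emb g).2 x.2)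
  one_smul x := by
    change (hm (emb 1).1 x.1, hm (emb 1).2 x.2) = x
    ext <;> simp [hm, emb]
  mul_smul g h x := by
    change (hm (emb (g * h)).1 x.1, hm (emb (g * h)).2 x.2) =
      (hm (emb g).1 (hm (emb h).1 x.1), hm (emb g).2 (hm (emb h).2 x.2))
    ext <;> simp only [hm, emb, Gam.mul_a, Gam.mul_b, Gam.mul_c, s1_add, s2_add, s1_sub, s2_sub,
      s1_mul, s2_mul] <;> ring

theorem smul_def (g : Gam) (x : V) : g • x = (hm (emb g).1 x.1, hm (emb g).2 x.2) := rfl

/-- The half-open parallelogram spanned by the lattice `ℤ[√2] ⊂ ℝ²`, centred at the origin. -/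
def InPar (p q : ℝ) : Prop :=
  -(1 / 2) ≤ (p + q) / 2 ∧ (p + q) / 2 < 1 / 2 ∧
    -(1 / 2) ≤ (p - q) / (2 * √2) ∧ (p - q) / (2 * √2) < 1 / 2

/-- A fundamental domain for the action of the deck group on `V`. -/
def D : Set V := {x | InPar x.1.1 x.2.1 ∧ InPar x.1.2.1 x.2.2.1 ∧ InPar x.1.2.2 x.2.2.2}

/-- `F` is the lift to the universal cover `V` of a volume-preserving diffeomorphism of class
`C^n` of `M`. -/
structure VolDiffeo (n : WithTop ℕ∞) (F : V → V) : Prop where
  smooth : ContDiff ℝ n F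
  inverse : ∃ G : V → V, ContDiff ℝ n G ∧ Function.LeftInverse G F ∧ Function.RightInverse G F
  lift : ∃ α : Gam ≃* Gam, ∀ (g : Gam) (x : V), F (g • x) = α g • F x
  volume_preserving : MeasurePreserving F volume volume

end Pool.Agent.Lib.MP_48de40_an
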