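import Pool.Agent.Lib.MP_48de40_an.Base

/-!
# The definitions used by the statement for problem MP_48de40_an

The manifold is `M = Gam \ V` of `Base.lean`. Tangent vectors of `M` at the point of `x : V` are
written through their six coordinates in the left-invariant frame `X, Y, Z, X', Y', Z'`, which is
orthonormal for the Riemannian metric of `M`; so both points of the universal cover and tangent
vectors in the frame are elements of `V = ℝ³ × ℝ³`.
-/

open MeasureTheory Set Filter Topology
open scoped ContDiff

namespace Pool.Agent.Lib.MP_48de40_an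

/-- The left-invariant frame: `frame x v = v₀ X + v₁ Y + v₂ Z + v₃ X' + v₄ Y' + v₅ Z'` at `x`, where
`X = ∂x - y ∂z`, `Y = ∂y + x ∂z`, `Z = ∂z` on the first factor and likewise on the second. -/
def frame (x v : V) : V :=
  ((v.1.1, v.1.2.1, v.1.2.2 - x.1.2.1 * v.1.1 + x.1.1 * v.1.2.1),
    (v.2.1, v.2.2.1, v.2.2.2 - x.2.2.1 * v.2.1 + x.2.1 * v.2.2.1))

/-- The coordinates in the frame of a tangent vector `w` at `x`: the inverse of `frame x`. -/
def coframe (x w : V) : V :=
  ((w.1.1, w.1.2.1, w.1.2.2 + x.1.2.1 * w.1.1 - x.1.1 * w.1.2.1),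
    (w.2.1, w.2.2.1, w.2.2.2 + x.2.2.1 * w.2.1 - x.2.1 * w.2.2.1))

/-- The Riemannian norm of the tangent vector with coordinates `v` in the frame. -/
noncomputable def nrm (v : V) : ℝ :=
  √(v.1.1 ^ 2 + v.1.2.1 ^ 2 + v.1.2.2 ^ 2 + v.2.1 ^ 2 + v.2.2.1 ^ 2 + v.2.2.2 ^ 2)

/-- The derivative of `F` at `x`, read in the frame. -/
noncomputable def dfr (F : V → V) (x v : V) : V := coframe (F x) (fderiv ℝ F x (frame x v))

/-- A decomposition of `TM` in three subbundles `E^s, E^c, E^u`, given by the three fields of
projections (written in the frame): `E^s`, `E^c`, `E^u` are the ranges of `s`, `c`, `u`. -/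
structure Bundles where
  /-- projection on the stable bundle -/
  s : V → V →L[ℝ] V
  /-- projection on the centre bundle -/
  c : V → V →L[ℝ] V
  /-- projection on the unstable bundle -/
  u : V → V →L[ℝ] V

/-- The three fields of projections are of class `C^n`. -/
def Smooth (n : WithTop ℕ∞) (P : Bundles) : Prop :=
  ContDiff ℝ n P.s ∧ ContDiff ℝ n P.c ∧ ContDiff ℝ n P.u

/-- The three fields are complementary projections at each point. -/
structure Complementary (P : Bundles) : Prop where
  sum_eq : ∀ x v, P.s x v + P.c x v + P.u x v = v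
  proj_s : ∀ x v, P.s x (P.s x v) = P.s x v
  proj_c : ∀ x v, P.c x (P.c x v) = P.c x v
  proj_u : ∀ x v, P.u x (P.u x v) = P.u x v
  s_u : ∀ x v, P.s x (P.u x v) = 0
  u_s : ∀ x v, P.u x (P.s x v) = 0

/-- The three fields descend to `M`. -/
structure DeckInvariant (P : Bundles) : Prop where
  deck_s : ∀ (g : Gam) (x : V), P.s (g • x) = P.s x
  deck_c : ∀ (g : Gam) (x : V), P.c (g • x) = P.c x
  deck_u : ∀ (g : Gam) (x : V), P.u (g • x) = P.u x

/-- The three subbundles are invariant under the derivative of `F`. -/
structure DInvariant (F : V → V) (P : Bundles) : Prop where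
  inv_s : ∀ x v, dfr F x (P.s x v) = P.s (F x) (dfr F x v)
  inv_c : ∀ x v, dfr F x (P.c x v) = P.c (F x) (dfr F x v)
  inv_u : ∀ x v, dfr F x (P.u x v) = P.u (F x) (dfr F x v)

/-- The range of `A` is one-dimensional. -/
def RankOne (A : V →L[ℝ] V) : Prop := Module.finrank ℝ (LinearMap.range A.toLinearMap) = 1

/-- `P` is a splitting `TM = E^s ⊕ E^c ⊕ E^u` of class `C^n`, invariant under `DF`, with
`dim E^s = dim E^u = 1`. -/
structure InvariantBundles (n : WithTop ℕ∞) (F : V → V) (P : Bundles) : Prop where
  smooth : Smooth n P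
  complementary : Complementary P
  deck : DeckInvariant P
  invariant : DInvariant F P
  line_s : ∀ x, RankOne (P.s x)
  line_u : ∀ x, RankOne (P.u x)

/-- `F` is partially hyperbolic with splitting `P` of class `C^n`: `E^s` is uniformly contracted,
`E^u` is uniformly expanded, `E^u` dominates `E^c` and `E^c` dominates `E^s`. -/
def PartHyp (n : WithTop ℕ∞) (F : V → V) (P : Bundles) : Prop :=
  InvariantBundles n F P ∧ ∃ a b c d : ℝ, 0 < a ∧ a < 1 ∧ 1 < d ∧ a < b ∧ c < d ∧
    (∀ x v, nrm (dfr F x (P.s x v)) ≤ a * nrm (P.s x v)) ∧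
    (∀ x v, b * nrm (P.c x v) ≤ nrm (dfr F x (P.c x v))) ∧
    (∀ x v, nrm (dfr F x (P.c x v)) ≤ c * nrm (P.c x v)) ∧
    (∀ x v, d * nrm (P.u x v) ≤ nrm (dfr F x (P.u x v)))

/-- The expansion factor `|det DF|_{E^u}|` at `x`, for a one-dimensional bundle `E^u`: the norm of
`D_x F v` for a unit vector `v` of the line `E^u(x)`. -/
noncomputable def expansion (F : V → V) (P : Bundles) (x : V) : ℝ :=
  sSup {r : ℝ | ∃ v, P.u x v = v ∧ nrm v = 1 ∧ r = nrm (dfr F x v)}

/-- The unstable exponent `λ_u(F) = ∫_M log |det DF|_{E^u}| dm`, with `m` the normalised volume. -/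
noncomputable def lambdaU (F : V → V) (P : Bundles) : ℝ := ⨍ x in D, Real.log (expansion F P x)

/-- The two splittings are uniformly `ε`-close. -/
def Close (ε : ℝ) (P Q : Bundles) : Prop :=
  ∀ x v, nrm (P.s x v - Q.s x v) ≤ ε * nrm v ∧ nrm (P.c x v - Q.c x v) ≤ ε * nrm v ∧
    nrm (P.u x v - Q.u x v) ≤ ε * nrm v

/-- `Q t`, for `t` near `0`, is the continuation of the splitting `P` along the family `F t`:
it is `DF_t`-invariant and converges uniformly to `P` as `t → 0`. -/
def Continuation (F : ℝ → V → V) (P : Bundles) (Q : ℝ → Bundles) : Prop :=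
  ∀ ε > 0, ∀ᶠ t in 𝓝 (0 : ℝ), InvariantBundles 0 (F t) (Q t) ∧ Close ε (Q t) P

/-- `f`, with splitting `P`, is critical for the unstable bundle and volume: along every family
`F t` of volume-preserving diffeomorphisms, of class `C²` jointly in `t` and the point, with
`F 0 = f`, the splitting has a partially hyperbolic continuation and, for every continuation, the
derivative of the unstable exponent at `t = 0` is zero. -/
def CriticalU (f : V → V) (P : Bundles) : Prop :=
  ∀ F : ℝ → V → V, ContDiff ℝ 2 (fun q : ℝ × V => F q.1 q.2) → (∀ t, VolDiffeo 2 (F t)) →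
    F 0 = f →
      (∃ Q : ℝ → Bundles, Continuation F P Q ∧ ∀ᶠ t in 𝓝 (0 : ℝ), PartHyp 0 (F t) (Q t)) ∧
      ∀ Q : ℝ → Bundles, Continuation F P Q → HasDerivAt (fun t => lambdaU (F t) (Q t)) 0 0

/-- `F` and `G` are `ε`-close on `K` together with their derivatives up to order `r`. -/
def CrNear (K : Set V) (r : ℕ) (ε : ℝ) (F G : V → V) : Prop :=
  ∀ j ≤ r, ∀ x ∈ K, ‖iteratedFDeriv ℝ j (fun y => F y - G y) x‖ ≤ ε

/-- `f`, with splitting `P`, is a local maximum of the unstable exponent in the `C^r` topology
among the volume-preserving diffeomorphisms of class `C^∞`: for some `C^r`-neighbourhood of `f`,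
`λ_u(g) ≤ λ_u(f)` for every such `g` in it, where `λ_u(g)` is computed with the partially
hyperbolic splitting of `g` close to `P`. -/
def LocMaxU (r : ℕ) (f : V → V) (P : Bundles) : Prop :=
  ∃ K : Set V, IsCompact K ∧ ∃ ε > 0, ∀ (g : V → V) (Q : Bundles), VolDiffeo ∞ g →
    CrNear K r ε g f → PartHyp 0 g Q → Close ε Q P → lambdaU g Q ≤ lambdaU f P

/-- The facts which make `M = Gam \ V` a compact parallelizable (hence orientable) Riemannian
manifold without boundary, with fundamental domain `D`, whose metric is the one for which the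
frame is orthonormal, and whose Riemannian volume is Lebesgue measure. -/
structure NilmanifoldFacts : Prop where
  /-- the action is free -/
  free : ∀ (g : Gam) (x : V), g • x = x → g = 1
  /-- the action is properly discontinuous -/
  discontinuous : ∀ K : Set V, IsCompact K → {g : Gam | ∃ x ∈ K, g • x ∈ K}.Finite
  /-- the action is smooth -/
  smooth : ∀ g : Gam, ContDiff ℝ ∞ (fun x : V => g • x)
  /-- the quotient is compact -/
  cocompact : ∃ K : Set V, IsCompact K ∧ D ⊆ K
  /-- `D` is a fundamental domain -/
  domain : ∀ x : V, ∃! g : Gam, g • x ∈ D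
  /-- `D` is measurable -/
  measurable : MeasurableSet D
  /-- the frame is smooth -/
  frame_smooth : ∀ v : V, ContDiff ℝ ∞ (fun x : V => frame x v)
  /-- the frame is linear in the coordinates -/
  frame_linear : ∀ x : V, IsLinearMap ℝ (frame x)
  /-- the coframe is inverse to the frame -/
  frame_inv : ∀ x v : V, coframe x (frame x v) = v
  /-- the frame is inverse to the coframe -/
  coframe_inv : ∀ x w : V, frame x (coframe x w) = w
  /-- the deck transformations preserve the frame, hence the metric and the orientation -/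
  frame_deck : ∀ (g : Gam) (x v : V), fderiv ℝ (fun y : V => g • y) x (frame x v) = frame (g • x) v
  /-- the frame is the coordinate frame at the origin -/
  frame_zero : ∀ v : V, frame 0 v = v
  /-- the frame maps Lebesgue measure of the coordinates to Lebesgue measure, so that the
  Riemannian volume is Lebesgue measure -/
  frame_volume : ∀ x : V, MeasurePreserving (frame x) volume volume
  /-- the deck transformations preserve the volume -/
  volume_deck : ∀ g : Gam, MeasurePreserving (fun x : V => g • x) volume volume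

end Pool.Agent.Lib.MP_48de40_an
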