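import Pool.Agent.Lib.MP_48de40_an.Close
import Pool.Agent.Lib.MP_48de40_an.Stmt

/-!
# Translation between the definitions of `Defs.lean` and those of `Stmt.lean`
-/

open MeasureTheory Set Filter Topology
open scoped ContDiff

namespace Pool.Agent.Lib.MP_48de40_an

theorem fr0_cf0 (v : V) : fr 0 (cf 0 v) = v := fr_cf 0 v
theorem cf0_fr0 (w : E) : cf 0 (fr 0 w) = w := cf_fr 0 w

theorem frame_eq (x v : V) : frame x v = fr x (cf 0 v) := by
  rw [fr_apply, cf_apply]
  simp [frame]

theorem coframe_eq (x w : V) : coframe x w = fr 0 (cf x w) := by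
  rw [fr_apply, cf_apply]
  simp [coframe]

theorem nrm_eq (v : V) : nrm v = ‖cf 0 v‖ := by
  rw [cf_apply, EuclideanSpace.norm_eq, nrm, Fin.sum_univ_six]
  simp

theorem nrm_fr0 (w : E) : nrm (fr 0 w) = ‖w‖ := by rw [nrm_eq, cf0_fr0]

theorem dfr_eq (F : V → V) (x v : V) : dfr F x v = fr 0 (coc F x (cf 0 v)) := by
  rw [dfr, coframe_eq, frame_eq]
  rfl

/-- The splitting in the Euclidean space given by bundles. -/
noncomputable def toE (P : Bundles) : Splitting where
  s x := (cf 0).comp ((P.s x).comp (fr 0))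
  c x := (cf 0).comp ((P.c x).comp (fr 0))
  u x := (cf 0).comp ((P.u x).comp (fr 0))

/-- The bundles given by a splitting in the Euclidean space. -/
noncomputable def toV (P : Splitting) : Bundles where
  s x := (fr 0).comp ((P.s x).comp (cf 0))
  c x := (fr 0).comp ((P.c x).comp (cf 0))
  u x := (fr 0).comp ((P.u x).comp (cf 0))

theorem toE_toV (P : Splitting) : toE (toV P) = P := by
  cases P with
  | mk s c u =>
    simp only [toE, toV, Splitting.mk.injEq]
    refine ⟨?_, ?_, ?_⟩ <;>
    · funext x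
      ext1 v
      simp only [ContinuousLinearMap.comp_apply, cf0_fr0]

theorem dfr_toE (F : V → V) (x : V) (w : E) : dfr F x (fr 0 w) = fr 0 (coc F x w) := by
  rw [dfr_eq, cf0_fr0]

theorem inv_toE {n : WithTop ℕ∞} {F : V → V} {P : Bundles} (h : InvariantBundles n F P) :
    InvSplitting n F (toE P) := by
  have hc : ∀ {A : V → V →L[ℝ] V}, ContDiff ℝ n A →
      ContDiff ℝ n (fun x => (cf 0).comp ((A x).comp (fr 0))) := fun hA =>
    contDiff_const.clm_comp (hA.clm_comp contDiff_const)
  have key : ∀ {A : V → V →L[ℝ] V}, (∀ x v, dfr F x (A x v) = A (F x) (dfr F x v)) → ∀ x,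
      (coc F x).comp ((cf 0).comp ((A x).comp (fr 0))) =
        ((cf 0).comp ((A (F x)).comp (fr 0))).comp (coc F x) := by
    intro A hA x
    ext1 w
    have h1 := hA x (fr 0 w)
    rw [dfr_toE, dfr_eq] at h1
    have h2 := congrArg (cf 0) h1
    rw [cf0_fr0] at h2
    simpa only [ContinuousLinearMap.comp_apply] using h2
  have rk : ∀ {A : V →L[ℝ] V}, RankOne A →
      Module.finrank ℝ (LinearMap.range ((cf 0).comp (A.comp (fr 0))).toLinearMap) = 1 := by
    intro A hA
    have e1 : LinearMap.range ((cf 0).comp (A.comp (fr 0))).toLinearMap =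
        (LinearMap.range A.toLinearMap).map (cf 0).toLinearMap := by
      ext w
      simp only [LinearMap.mem_range, Submodule.mem_map]
      constructor
      · rintro ⟨v, rfl⟩
        exact ⟨A (fr 0 v), ⟨_, rfl⟩, rfl⟩
      · rintro ⟨y, ⟨v, rfl⟩, rfl⟩
        refine ⟨cf 0 v, ?_⟩
        change cf 0 (A (fr 0 (cf 0 v))) = cf 0 (A v)
        rw [fr0_cf0]
    rw [e1, ← hA]
    have hinj : Function.Injective (cf 0).toLinearMap := fun a b hab => by
      have h1 := congrArg (fr 0) (show cf 0 a = cf 0 b from hab)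
      rwa [fr0_cf0, fr0_cf0] at h1
    exact (Submodule.equivMapOfInjective _ hinj _).finrank_eq.symm
  exact
  { smooth_s := hc h.smooth.1
    smooth_c := hc h.smooth.2.1
    smooth_u := hc h.smooth.2.2
    sum_eq := by
      intro x
      ext1 w
      have h1 := congrArg (cf 0) (h.complementary.sum_eq x (fr 0 w))
      rw [cf0_fr0, map_add, map_add] at h1
      exact h1
    proj_s := fun x => by
      ext1 w
      have h1 := congrArg (cf 0) (h.complementary.proj_s x (fr 0 w))
      simpa only [toE, ContinuousLinearMap.comp_apply, fr0_cf0] using h1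
    proj_c := fun x => by
      ext1 w
      have h1 := congrArg (cf 0) (h.complementary.proj_c x (fr 0 w))
      simpa only [toE, ContinuousLinearMap.comp_apply, fr0_cf0] using h1
    proj_u := fun x => by
      ext1 w
      have h1 := congrArg (cf 0) (h.complementary.proj_u x (fr 0 w))
      simpa only [toE, ContinuousLinearMap.comp_apply, fr0_cf0] using h1
    s_u := fun x => by
      ext1 w
      have h1 := congrArg (cf 0) (h.complementary.s_u x (fr 0 w))
      rw [map_zero] at h1
      simpa only [toE, ContinuousLinearMap.comp_apply, fr0_cf0, zero_apply] using h1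
    u_s := fun x => by
      ext1 w
      have h1 := congrArg (cf 0) (h.complementary.u_s x (fr 0 w))
      rw [map_zero] at h1
      simpa only [toE, ContinuousLinearMap.comp_apply, fr0_cf0, zero_apply] using h1
    deck_s := fun g x => by simp only [toE, h.deck.deck_s]
    deck_c := fun g x => by simp only [toE, h.deck.deck_c]
    deck_u := fun g x => by simp only [toE, h.deck.deck_u]
    inv_s := key h.invariant.inv_s
    inv_c := key h.invariant.inv_c
    inv_u := key h.invariant.inv_u
    rank_s := fun x => rk (h.line_s x)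
    rank_u := fun x => rk (h.line_u x) }

theorem inv_toV {n : WithTop ℕ∞} {F : V → V} {P : Splitting} (h : InvSplitting n F P) :
    InvariantBundles n F (toV P) := by
  have hc : ∀ {A : V → E →L[ℝ] E}, ContDiff ℝ n A →
      ContDiff ℝ n (fun x => (fr 0).comp ((A x).comp (cf 0))) := fun hA =>
    contDiff_const.clm_comp (hA.clm_comp contDiff_const)
  have ap : ∀ {A B : E →L[ℝ] E}, A = B → ∀ w, A w = B w := fun h w => by rw [h]
  have key : ∀ {A : V → E →L[ℝ] E}, (∀ x, (coc F x).comp (A x) = (A (F x)).comp (coc F x)) →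
      ∀ x v, dfr F x (fr 0 (A x (cf 0 v))) = fr 0 (A (F x) (cf 0 (dfr F x v))) := by
    intro A hA x v
    have h1 := ap (hA x) (cf 0 v)
    rw [dfr_toE, dfr_eq, cf0_fr0]
    exact congrArg (fr 0) h1
  have rk : ∀ {A : E →L[ℝ] E}, Module.finrank ℝ (LinearMap.range A.toLinearMap) = 1 →
      RankOne ((fr 0).comp (A.comp (cf 0))) := by
    intro A hA
    have e1 : LinearMap.range ((fr 0).comp (A.comp (cf 0))).toLinearMap =
        (LinearMap.range A.toLinearMap).map (fr 0).toLinearMap := by
      ext w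
      simp only [LinearMap.mem_range, Submodule.mem_map]
      constructor
      · rintro ⟨v, rfl⟩
        exact ⟨A (cf 0 v), ⟨_, rfl⟩, rfl⟩
      · rintro ⟨y, ⟨v, rfl⟩, rfl⟩
        refine ⟨fr 0 v, ?_⟩
        change fr 0 (A (cf 0 (fr 0 v))) = fr 0 (A v)
        rw [cf0_fr0]
    rw [RankOne, e1, ← hA]
    have hinj : Function.Injective (fr 0).toLinearMap := fun a b hab => by
      have h1 := congrArg (cf 0) (show fr 0 a = fr 0 b from hab)
      rwa [cf0_fr0, cf0_fr0] at h1
    exact (Submodule.equivMapOfInjective _ hinj _).finrank_eq.symm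
  exact
  { smooth := ⟨hc h.smooth_s, hc h.smooth_c, hc h.smooth_u⟩
    complementary :=
    { sum_eq := fun x v => by
        have h1 := congrArg (fr 0) (ap (h.sum_eq x) (cf 0 v))
        simpa only [toV, ContinuousLinearMap.comp_apply, add_apply, map_add,
          ContinuousLinearMap.id_apply, fr0_cf0] using h1
      proj_s := fun x v => by
        have h1 := congrArg (fr 0) (ap (h.proj_s x) (cf 0 v))
        simpa only [toV, ContinuousLinearMap.comp_apply, cf0_fr0] using h1
      proj_c := fun x v => by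
        have h1 := congrArg (fr 0) (ap (h.proj_c x) (cf 0 v))
        simpa only [toV, ContinuousLinearMap.comp_apply, cf0_fr0] using h1
      proj_u := fun x v => by
        have h1 := congrArg (fr 0) (ap (h.proj_u x) (cf 0 v))
        simpa only [toV, ContinuousLinearMap.comp_apply, cf0_fr0] using h1
      s_u := fun x v => by
        have h1 := congrArg (fr 0) (ap (h.s_u x) (cf 0 v))
        simpa only [toV, ContinuousLinearMap.comp_apply, cf0_fr0, zero_apply,
          map_zero] using h1
      u_s := fun x v => by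
        have h1 := congrArg (fr 0) (ap (h.u_s x) (cf 0 v))
        simpa only [toV, ContinuousLinearMap.comp_apply, cf0_fr0, zero_apply,
          map_zero] using h1 }
    deck :=
    { deck_s := fun g x => by simp only [toV, h.deck_s]
      deck_c := fun g x => by simp only [toV, h.deck_c]
      deck_u := fun g x => by simp only [toV, h.deck_u] }
    invariant :=
    { inv_s := key h.inv_s
      inv_c := key h.inv_c
      inv_u := key h.inv_u }
    line_s := fun x => rk (h.rank_s x)
    line_u := fun x => rk (h.rank_u x) }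

theorem partHyp_toV {n : WithTop ℕ∞} {F : V → V} {P : Splitting} (h : IsPH n F P) :
    PartHyp n F (toV P) := by
  obtain ⟨h0, a, b, c, d, ha, ha1, hd, hab, hcd, h1, h2, h3, h4⟩ := h
  refine ⟨inv_toV h0, a, b, c, d, ha, ha1, hd, hab, hcd, fun x v => ?_, fun x v => ?_,
    fun x v => ?_, fun x v => ?_⟩
  · change nrm (dfr F x (fr 0 (P.s x (cf 0 v)))) ≤ a * nrm (fr 0 (P.s x (cf 0 v)))
    rw [dfr_toE, nrm_fr0, nrm_fr0]
    exact h1 x _
  · change b * nrm (fr 0 (P.c x (cf 0 v))) ≤ nrm (dfr F x (fr 0 (P.c x (cf 0 v))))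
    rw [dfr_toE, nrm_fr0, nrm_fr0]
    exact h2 x _
  · change nrm (dfr F x (fr 0 (P.c x (cf 0 v)))) ≤ c * nrm (fr 0 (P.c x (cf 0 v)))
    rw [dfr_toE, nrm_fr0, nrm_fr0]
    exact h3 x _
  · change d * nrm (fr 0 (P.u x (cf 0 v))) ≤ nrm (dfr F x (fr 0 (P.u x (cf 0 v))))
    rw [dfr_toE, nrm_fr0, nrm_fr0]
    exact h4 x _

theorem partHyp_toE {n : WithTop ℕ∞} {F : V → V} {P : Bundles} (h : PartHyp n F P) :
    IsPH n F (toE P) := by
  obtain ⟨h0, a, b, c, d, ha, ha1, hd, hab, hcd, h1, h2, h3, h4⟩ := h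
  have e1 : ∀ (A : V → V →L[ℝ] V) (x : V) (v : E),
      ‖coc F x (cf 0 (A x (fr 0 v)))‖ = nrm (dfr F x (A x (fr 0 v))) := by
    intro A x v
    rw [dfr_eq, nrm_fr0]
  refine ⟨inv_toE h0, a, b, c, d, ha, ha1, hd, hab, hcd, fun x v => ?_, fun x v => ?_,
    fun x v => ?_, fun x v => ?_⟩
  · change ‖coc F x (cf 0 (P.s x (fr 0 v)))‖ ≤ a * ‖cf 0 (P.s x (fr 0 v))‖
    rw [e1, ← nrm_eq]
    exact h1 x _
  · change b * ‖cf 0 (P.c x (fr 0 v))‖ ≤ ‖coc F x (cf 0 (P.c x (fr 0 v)))‖
    rw [e1, ← nrm_eq]
    exact h2 x _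
  · change ‖coc F x (cf 0 (P.c x (fr 0 v)))‖ ≤ c * ‖cf 0 (P.c x (fr 0 v))‖
    rw [e1, ← nrm_eq]
    exact h3 x _
  · change d * ‖cf 0 (P.u x (fr 0 v))‖ ≤ ‖coc F x (cf 0 (P.u x (fr 0 v)))‖
    rw [e1, ← nrm_eq]
    exact h4 x _

theorem expansion_toE {F : V → V} {P : Bundles} (h : ∀ x v, P.u x (P.u x v) = P.u x v) (x : V) :
    jac F (toE P) x = expansion F P x := by
  rw [jac, expansion]
  congr 1
  ext r
  simp only [Set.mem_ofPred_eq, LinearMap.mem_range]
  constructor
  · rintro ⟨v, ⟨w, rfl⟩, h1, rfl⟩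
    refine ⟨P.u x (fr 0 w), h x _, ?_, ?_⟩
    · rw [nrm_eq]
      exact h1
    · rw [dfr_eq, nrm_fr0]
      rfl
  · rintro ⟨v, hv, h1, rfl⟩
    refine ⟨cf 0 v, ⟨cf 0 v, ?_⟩, ?_, ?_⟩
    · change cf 0 (P.u x (fr 0 (cf 0 v))) = cf 0 v
      rw [fr0_cf0, hv]
    · rw [← nrm_eq, h1]
    · rw [dfr_eq, nrm_fr0]

theorem lambdaU_toE {F : V → V} {P : Bundles} (h : ∀ x v, P.u x (P.u x v) = P.u x v) :
    lamU F (toE P) = lambdaU F P := by
  simp only [lamU, lambdaU, expansion_toE h]

theorem near_toE {ε : ℝ} (hε : 0 ≤ ε) {P Q : Bundles} (h : Close ε P Q) :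
    Near ε (toE P) (toE Q) := by
  intro x
  refine ⟨?_, ?_, ?_⟩
  · refine ContinuousLinearMap.opNorm_le_bound _ hε fun w => ?_
    have h1 := (h x (fr 0 w)).1
    rw [nrm_eq, map_sub, nrm_fr0] at h1
    exact h1
  · refine ContinuousLinearMap.opNorm_le_bound _ hε fun w => ?_
    have h1 := (h x (fr 0 w)).2.1
    rw [nrm_eq, map_sub, nrm_fr0] at h1
    exact h1
  · refine ContinuousLinearMap.opNorm_le_bound _ hε fun w => ?_
    have h1 := (h x (fr 0 w)).2.2
    rw [nrm_eq, map_sub, nrm_fr0] at h1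
    exact h1

theorem close_toV {ε : ℝ} {P Q : Splitting} (h : Near ε P Q) : Close ε (toV P) (toV Q) := by
  intro x v
  have key : ∀ A B : E →L[ℝ] E, ‖A - B‖ ≤ ε →
      nrm (fr 0 (A (cf 0 v)) - fr 0 (B (cf 0 v))) ≤ ε * nrm v := by
    intro A B hAB
    rw [← map_sub, nrm_fr0, nrm_eq]
    exact ((A - B).le_opNorm _).trans (mul_le_mul_of_nonneg_right hAB (norm_nonneg _))
  exact ⟨key _ _ (h x).1, key _ _ (h x).2.1, key _ _ (h x).2.2⟩

theorem critical_toV {f : V → V} {P : Splitting} (h : Critical f P) : CriticalU f (toV P) := by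
  intro F h1 h2 h3
  obtain ⟨⟨Q, hQ, hQ'⟩, h5⟩ := h F h1 h2 h3
  refine ⟨⟨fun t => toV (Q t), fun ε hε => ?_, ?_⟩, fun Q hQ => ?_⟩
  · filter_upwards [hQ ε hε] with t ht
    exact ⟨inv_toV ht.1, close_toV ht.2⟩
  · filter_upwards [hQ'] with t ht
    exact partHyp_toV ht
  · have h6 : Continues F P (fun t => toE (Q t)) := by
      intro ε hε
      filter_upwards [hQ ε hε] with t ht
      refine ⟨inv_toE ht.1, ?_⟩
      have := near_toE hε.le ht.2
      rwa [toE_toV] at this
    refine (h5 _ h6).congr_of_eventuallyEq ?_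
    filter_upwards [hQ 1 one_pos] with t ht
    exact (lambdaU_toE ht.1.complementary.proj_u).symm

theorem locMax_toV {r : ℕ} {f : V → V} (hf : ContDiff ℝ ∞ f) {P : Splitting}
    (hP : ∀ x, (P.u x).comp (P.u x) = P.u x) (h : LocMaxU r f (toV P)) :
    LocalMaxU r f P := by
  obtain ⟨K, hK, ε, hε, h1⟩ := h
  refine ⟨K, hK, ε, hε, fun g Q hg hc hQ hn => ?_⟩
  have h2 : CrNear K r ε g f := by
    intro j hj x hx
    have h3 := hc j hj x hx
    have h4 : iteratedFDeriv ℝ j (fun y => g y - f y) x =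
        iteratedFDeriv ℝ j g x - iteratedFDeriv ℝ j f x :=
      iteratedFDeriv_sub_apply (hg.smooth.of_le (by exact_mod_cast le_top)).contDiffAt
        (hf.of_le (by exact_mod_cast le_top)).contDiffAt
    rw [h4]
    exact h3
  have h5 := h1 g (toV Q) hg h2 (partHyp_toV hQ) (close_toV hn)
  have e1 : lambdaU g (toV Q) = lamU g Q := by
    rw [← lambdaU_toE (inv_toV hQ.1).complementary.proj_u, toE_toV]
  have e2 : lambdaU f (toV P) = lamU f P := by
    rw [← lambdaU_toE, toE_toV]
    intro x v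
    have h6 : P.u x (P.u x (cf 0 v)) = P.u x (cf 0 v) := congrArg (fun A => A (cf 0 v)) (hP x)
    simp only [toV, ContinuousLinearMap.comp_apply, cf0_fr0, h6]
  rwa [e1, e2] at h5

theorem frame_volume (x : V) : MeasurePreserving (frame x) volume volume := by
  have h1 := (measurePreserving_hm x.1).prod (measurePreserving_hm x.2)
  have h2 := (measurePreserving_sub_right (volume : Measure V) x).comp h1
  have e : (fun v : V => v - x) ∘ Prod.map (fun q : V3 => hm x.1 q) (fun q : V3 => hm x.2 q) =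
      frame x := by
    funext v
    simp only [Function.comp_apply, Prod.map, hm, frame]
    ext <;> simp <;> ring
  rw [← e]
  exact h2

theorem nilmanifoldFacts : NilmanifoldFacts where
  free := smul_free
  discontinuous K hK := by
    obtain ⟨R, hR⟩ := hK.isBounded.exists_norm_le
    exact (finite_near R).subset fun g ⟨x, h1, h2⟩ => ⟨x, hR _ h1, hR _ h2⟩
  smooth g := contDiff_smul g
  cocompact := ⟨K0, isCompact_K0, D_subset_K0⟩
  domain := existsUnique_smul_mem_D
  measurable := measurableSet_D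
  frame_smooth v := by
    simp only [frame]
    fun_prop
  frame_linear x := by
    have e : frame x = fun v => (fr x).comp (cf 0) v := funext fun v => frame_eq x v
    rw [e]
    exact ((fr x).comp (cf 0)).toLinearMap.isLinear
  frame_inv x v := by rw [coframe_eq, frame_eq, cf_fr, fr0_cf0]
  coframe_inv x w := by rw [coframe_eq, frame_eq, cf0_fr0, fr_cf]
  frame_deck g x v := by
    have h := congrArg (fun A : E →L[ℝ] E => fr (g • x) (A (cf 0 v))) (coc_smul g x)
    simpa [coc, frame_eq] using h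
  frame_zero v := by simp [frame]
  frame_volume := frame_volume
  volume_deck := measurePreserving_smul'

end Pool.Agent.Lib.MP_48de40_an
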