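import Pool.Agent.Lib.MP_48de40_an.Final

/-!
# Closeness in the `C^r` topology and the facts on the nilmanifold
-/

open MeasureTheory Set Filter Topology
open scoped ContDiff

namespace Pool.Agent.Lib.MP_48de40_an

theorem contDiff_iter {F : ℝ → V → V} (hF : ContDiff ℝ ∞ (fun q : ℝ × V => F q.1 q.2)) (j : ℕ) :
    ContDiff ℝ ∞ (fun q : ℝ × V => iteratedFDeriv ℝ j (F q.1) q.2) := by
  induction j with
  | zero =>
    simp only [iteratedFDeriv_zero_eq_comp, Function.comp_apply]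
    exact (continuousMultilinearCurryFin0 ℝ V V).symm.contDiff.comp hF
  | succ n ih =>
    have h1 : ContDiff ℝ ∞ (fun q : ℝ × V => fderiv ℝ (iteratedFDeriv ℝ n (F q.1)) q.2) := by
      refine ContDiff.fderiv (f := fun (q : ℝ × V) => iteratedFDeriv ℝ n (F q.1))
        (g := fun q : ℝ × V => q.2) (m := ∞) ?_ contDiff_snd (by simp)
      exact ih.comp ((contDiff_fst.comp contDiff_fst).prodMk contDiff_snd)
    exact h1.continuousLinearMap_comp
      ((continuousMultilinearCurryLeftEquiv ℝ (fun _ : Fin (n + 1) => V) V).symm :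
        _ →L[ℝ] V [×(n + 1)]→L[ℝ] V)

theorem lip_in_t' {W : Type*} [NormedAddCommGroup W] [NormedSpace ℝ W] {Φ : ℝ × V → W}
    (hΦ : ContDiff ℝ 1 Φ) {K : Set V} (hK : IsCompact K) : ∃ C ≥ 0, ∀ t : ℝ, |t| ≤ 1 → ∀ x ∈ K,
      ‖Φ (t, x) - Φ (0, x)‖ ≤ C * |t| := by
  obtain ⟨R, hR⟩ := hK.isBounded.exists_norm_le
  have hc : Continuous (fun q => fderiv ℝ Φ q) := hΦ.continuous_fderiv (by norm_num)
  obtain ⟨C, hC⟩ := (isCompact_closedBall (0 : ℝ × V) (max R 1)).exists_bound_of_continuousOn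
    hc.continuousOn
  have hC0 : 0 ≤ C := (norm_nonneg _).trans (hC 0 (by simp))
  refine ⟨C, hC0, fun t ht x hx => ?_⟩
  have hx' := hR x hx
  have h1 : ((0 : ℝ), x) ∈ Metric.closedBall (0 : ℝ × V) (max R 1) := by
    rw [mem_closedBall_zero_iff, Prod.norm_def]
    simp only [norm_zero]
    exact max_le (by positivity) (hx'.trans (le_max_left _ _))
  have h2 : (t, x) ∈ Metric.closedBall (0 : ℝ × V) (max R 1) := by
    rw [mem_closedBall_zero_iff, Prod.norm_def]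
    exact max_le (by rw [Real.norm_eq_abs]; exact ht.trans (le_max_right _ _))
      (hx'.trans (le_max_left _ _))
  have h3 := (convex_closedBall (0 : ℝ × V) (max R 1)).norm_image_sub_le_of_norm_fderiv_le (𝕜 := ℝ)
    (f := Φ) (C := C) (fun q _ => hΦ.differentiable (by norm_num) q) hC h1 h2
  have h4 : ‖(t, x) - ((0 : ℝ), x)‖ = |t| := by
    simp [Prod.norm_def]
  rwa [h4] at h3

theorem crClose_family {F : ℝ → V → V} (hF : ContDiff ℝ ∞ (fun q : ℝ × V => F q.1 q.2))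
    {K : Set V} (hK : IsCompact K) (r : ℕ) {ε : ℝ} (hε : 0 < ε) :
    ∃ δ > 0, ∀ t : ℝ, |t| ≤ δ → CrClose K r ε (F t) (F 0) := by
  have h1 : ∀ j : ℕ, ∃ δ > 0, ∀ t : ℝ, |t| ≤ δ → ∀ x ∈ K,
      ‖iteratedFDeriv ℝ j (F t) x - iteratedFDeriv ℝ j (F 0) x‖ ≤ ε := by
    intro j
    obtain ⟨C, hC, h⟩ := lip_in_t' ((contDiff_iter hF j).of_le (by simp)) hK
    refine ⟨min 1 (ε / (C + 1)), lt_min one_pos (by positivity), fun t ht x hx => ?_⟩
    rw [le_min_iff, le_div_iff₀ (by positivity)] at ht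
    refine (h t ht.1 x hx).trans ?_
    nlinarith [abs_nonneg t, ht.2]
  induction r with
  | zero =>
    obtain ⟨δ, hδ, h⟩ := h1 0
    refine ⟨δ, hδ, fun t ht j hj x hx => ?_⟩
    obtain rfl : j = 0 := by omega
    exact h t ht x hx
  | succ n ih =>
    obtain ⟨δ, hδ, h⟩ := h1 (n + 1)
    obtain ⟨δ', hδ', h'⟩ := ih
    refine ⟨min δ δ', lt_min hδ hδ', fun t ht j hj x hx => ?_⟩
    rw [le_min_iff] at ht
    rcases Nat.lt_or_ge j (n + 1) with hlt | hge
    · exact h' t ht.2 j (by omega) x hx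
    · obtain rfl : j = n + 1 := by omega
      exact h t ht.1 x hx

theorem not_localMaxU : ∃ k : ℕ, k ≠ 0 ∧ ∀ r : ℕ, ¬ LocalMaxU r (mf (lam k)) P0 := by
  obtain ⟨k, hk, h⟩ := exists_gain
  refine ⟨k, hk, fun r hmax => ?_⟩
  obtain ⟨K, hK, ε, hε, hle⟩ := hmax
  obtain ⟨δ1, hδ1, h1⟩ := h ε hε
  obtain ⟨δ2, hδ2, h2⟩ := crClose_family (contDiff_FF k) hK r hε
  set t := min δ1 δ2 with ht
  have ht0 : 0 < t := lt_min hδ1 hδ2
  have hta : |t| = t := abs_of_pos ht0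
  obtain ⟨Q, q1, q2, q3⟩ := h1 t (by rw [hta]; exact min_le_left _ _) ht0.ne'
  have hc := h2 t (by rw [hta]; exact min_le_right _ _)
  rw [FF_zero] at hc
  exact absurd (hle (FF k t) Q (volDiffeo_FF k t) hc q1 q2) (not_le.2 q3)

end Pool.Agent.Lib.MP_48de40_an
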