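import Pool.Agent.Lib.MP_48de40_an.Family

/-!
# The model automorphism is critical
-/

open MeasureTheory Set Filter Topology
open scoped ContDiff

namespace Pool.Agent.Lib.MP_48de40_an

theorem P0_u_bv (x : V) : P0.u x (bv 2) = bv 2 := by
  change pr (pj 2) (bv 2) (bv 2) = bv 2
  rw [pr_apply, pj_apply, bv_apply]; simp

theorem section_of_splitting {P : Splitting} {F : V → V} (h : InvSplitting 0 F P) {ε : ℝ}
    (hε : ε ≤ 1 / 2) (hN : Near ε P P0) :
    ∃ m : V → E, Continuous m ∧ (∀ x, m x 2 = 0) ∧ (∀ x, ‖m x‖ ≤ 2 * ε) ∧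
      (∀ (g : Gam) (x : V), m (g • x) = m x) ∧
      (∀ x, coc F x (bv 2 + m x) = (coc F x (bv 2 + m x) 2) • (bv 2 + m (F x))) ∧
      (∀ x, LinearMap.range (P.u x).toLinearMap = Submodule.span ℝ {bv 2 + m x}) := by
  have hz : ∀ x, ‖P.u x (bv 2) - bv 2‖ ≤ ε := by
    intro x
    have h1 := (P.u x - P0.u x).le_of_opNorm_le (hN x).2.2 (bv 2)
    rw [_root_.sub_apply, P0_u_bv, norm_bv, mul_one] at h1
    exact h1
  have hk : ∀ x, 1 / 2 ≤ P.u x (bv 2) 2 := by
    intro x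
    have h1 := (abs_coord_le 2 (P.u x (bv 2) - bv 2)).trans (hz x)
    rw [PiLp.sub_apply, bv_apply, if_pos rfl, abs_le] at h1
    linarith
  have hk0 : ∀ x, P.u x (bv 2) 2 ≠ 0 := fun x => by have := hk x; linarith
  have hcont : Continuous (fun x => P.u x (bv 2)) :=
    h.smooth_u.continuous.clm_apply continuous_const
  have hcont2 : Continuous (fun x => P.u x (bv 2) 2) := (pj 2).continuous.comp hcont
  obtain ⟨m, hmdef⟩ : ∃ m : V → E, ∀ x, m x = (P.u x (bv 2) 2)⁻¹ • P.u x (bv 2) - bv 2 :=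
    ⟨_, fun _ => rfl⟩
  have hv : ∀ x, bv 2 + m x = (P.u x (bv 2) 2)⁻¹ • P.u x (bv 2) := fun x => by
    rw [hmdef]; abel
  have hm2 : ∀ x, m x 2 = 0 := by
    intro x
    rw [hmdef, PiLp.sub_apply, PiLp.smul_apply, smul_eq_mul, inv_mul_cancel₀ (hk0 x), bv_apply]
    simp
  have hrange : ∀ x, LinearMap.range (P.u x).toLinearMap = Submodule.span ℝ {bv 2 + m x} := by
    intro x
    symm
    apply Submodule.eq_of_le_of_finrank_eq
    · rw [Submodule.span_singleton_le_iff_mem, hv]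
      exact Submodule.smul_mem _ _ ⟨bv 2, rfl⟩
    · rw [h.rank_u x]
      apply finrank_span_singleton
      intro h0
      have := congrArg (fun u : E => u 2) h0
      simp only [PiLp.add_apply, hm2, bv_apply] at this
      simp at this
  refine ⟨m, ?_, hm2, ?_, ?_, ?_, hrange⟩
  · have : m = fun x => (P.u x (bv 2) 2)⁻¹ • P.u x (bv 2) - bv 2 := funext hmdef
    rw [this]
    exact ((hcont2.inv₀ hk0).smul hcont).sub continuous_const
  · intro x
    have e : m x = (P.u x (bv 2) 2)⁻¹ •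
        ((P.u x (bv 2) - bv 2) - ((P.u x (bv 2) - bv 2) 2) • bv 2) := by
      have h1 : (P.u x (bv 2) - bv 2) 2 = P.u x (bv 2) 2 - 1 := by
        rw [PiLp.sub_apply, bv_apply]; simp
      have h2 := inv_mul_cancel₀ (hk0 x)
      rw [hmdef, h1]
      set k := P.u x (bv 2) 2
      have h3 : k⁻¹ • (P.u x (bv 2) - bv 2 - (k - 1) • bv 2) =
        k⁻¹ • P.u x (bv 2) - (k⁻¹ * k) • bv 2 := by module
      rw [h3, h2, one_smul]
    rw [e, norm_smul, norm_inv, Real.norm_eq_abs, abs_of_pos (by have := hk x; linarith)]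
    have h1 := (norm_sub_coord_le 2 (P.u x (bv 2) - bv 2)).trans (hz x)
    have h2 : (P.u x (bv 2) 2)⁻¹ ≤ 2 := by
      rw [inv_le_comm₀ (by have := hk x; linarith) (by norm_num)]
      have := hk x; linarith
    exact mul_le_mul h2 h1 (norm_nonneg _) (by norm_num)
  · intro g x
    rw [hmdef, hmdef, h.deck_u]
  · intro x
    have h1 : coc F x (bv 2 + m x) ∈ LinearMap.range (P.u (F x)).toLinearMap := by
      rw [hv, map_smul]
      refine Submodule.smul_mem _ _ ⟨coc F x (bv 2), ?_⟩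
      have := congrArg (fun φ : E →L[ℝ] E => φ (bv 2)) (h.inv_u x)
      exact this.symm
    rw [hrange (F x)] at h1
    obtain ⟨a, ha⟩ := Submodule.mem_span_singleton.1 h1
    have h2 := congrArg (fun u : E => u 2) ha
    simp only [PiLp.smul_apply, PiLp.add_apply, hm2, bv_apply, smul_eq_mul] at h2
    simp only [if_true, add_zero, mul_one] at h2
    rw [← h2]
    exact ha.symm

/-- Any bounded invariant section close to the model one is `O(ε)`. -/
theorem section_bound {F G : V → V} (hFG : ∀ x, F (G x) = x) {A : V → E →L[ℝ] E} {l ε : ℝ}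
    (hl : 1 < l) (hε : ε ≤ (l ^ 2 - l) / 16) (hAL : ∀ x, ‖A x - diag (dl l)‖ ≤ ε) {m : V → E}
    (hm2 : ∀ x, m x 2 = 0) (hm1 : ∀ x, ‖m x‖ ≤ 1)
    (hm : ∀ x, A x (bv 2 + m x) = (A x (bv 2 + m x) 2) • (bv 2 + m (F x))) (x : V) :
    ‖m x‖ ≤ 8 * ε / (l ^ 2 - l) := by
  have M1 := model_vec (d := dl l) (j := 2) (μ := l ^ 2) (κ := l) (by linarith) (by nlinarith)
    (dl_two l) (dl_le hl)
  have hε0 : 0 ≤ ε := (norm_nonneg _).trans (hAL 0)
  have hδ : 0 < l ^ 2 - l := by nlinarith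
  have hbdd : BddAbove (Set.range fun x => ‖m x‖) := ⟨1, by rintro _ ⟨x, rfl⟩; exact hm1 x⟩
  set M := ⨆ x, ‖m x‖ with hM
  have hle : ∀ x, ‖m x‖ ≤ M := fun x => le_ciSup hbdd x
  have hM0 : 0 ≤ M := (norm_nonneg _).trans (hle 0)
  have hp : 0 < l ^ 2 - 2 * ε := by nlinarith
  have key : M ≤ (l * M + 4 * ε) / (l ^ 2 - 2 * ε) := by
    refine ciSup_le fun y => ?_
    have hd := M1.den_bound (hAL (G y)) (hm2 (G y)) (hm1 (G y))
    have hn := M1.num_bound (hAL (G y)) (hm2 (G y)) (hm1 (G y))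
    have he := hm (G y)
    rw [hFG y] at he
    rw [pj_apply] at hd hn
    set c := A (G y) (bv 2 + m (G y)) 2 with hc
    rw [abs_le] at hd
    have hc0 : 0 < c := by linarith
    rw [he, smul_add, add_sub_cancel_left, norm_smul, Real.norm_eq_abs, abs_of_pos hc0] at hn
    rw [le_div_iff₀ hp]
    have h1 : l * ‖m (G y)‖ ≤ l * M := by
      have := hle (G y)
      gcongr
    calc ‖m y‖ * (l ^ 2 - 2 * ε) ≤ ‖m y‖ * c := by
          have : l ^ 2 - 2 * ε ≤ c := by linarith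
          gcongr
      _ = c * ‖m y‖ := mul_comm _ _
      _ ≤ l * M + 4 * ε := by linarith
  rw [le_div_iff₀ hp] at key
  refine (hle x).trans ?_
  rw [le_div_iff₀ hδ]
  nlinarith

end Pool.Agent.Lib.MP_48de40_an
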