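import Pool.Agent.Lib.MP_48de40_an.Crit

/-!
# The model automorphism is critical: the second-order estimate
-/

open MeasureTheory Set Filter Topology
open scoped ContDiff

namespace Pool.Agent.Lib.MP_48de40_an

/-- The centre coordinate of `f(x)⁻¹ F(x)`. -/
def dz (f F : V → V) (x : V) : ℝ :=
  (F x).1.2.2 - (f x).1.2.2 - (f x).1.1 * (F x).1.2.1 + (f x).1.2.1 * (F x).1.1

theorem dz_deck {f F : V → V} {α : Gam → Gam} (hf : ∀ (g : Gam) (x : V), f (g • x) = α g • f x)
    (hF : ∀ (g : Gam) (x : V), F (g • x) = α g • F x) (g : Gam) (x : V) :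
    dz f F (g • x) = dz f F x := by
  unfold dz
  rw [hf, hF]
  simp only [smul_def, hm, emb]
  ring

theorem fr_bv (x : V) : fr x (bv 2) = ez := by
  rw [fr_apply]
  simp [bv_apply, ez]

/-- The expansion of the centre direction read in the frame. -/
theorem coc_bv {F : V → V} (x : V) : coc F x (bv 2) 2 = (fderiv ℝ F x ez).1.2.2 +
    (F x).1.2.1 * (fderiv ℝ F x ez).1.1 - (F x).1.1 * (fderiv ℝ F x ez).1.2.1 := by
  simp only [coc, ContinuousLinearMap.comp_apply, fr_bv, cf_apply]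
  simp

theorem fderiv_dz {l : ℝ} {F : V → V} {x : V} (hF : DifferentiableAt ℝ F x) :
    fderiv ℝ (dz (mf l) F) x ez = (fderiv ℝ F x ez).1.2.2 - l ^ 2 +
    (mf l x).1.2.1 * (fderiv ℝ F x ez).1.1 - (mf l x).1.1 * (fderiv ℝ F x ez).1.2.1 := by
  have h1 := hF.hasFDerivAt
  have h2 := hasFDerivAt_mf l x
  have h3 := ((h1.fst.snd.snd.sub h2.fst.snd.snd).sub (h2.fst.fst.mul h1.fst.snd.fst)).add
    (h2.fst.snd.fst.mul h1.fst.fst)
  have h4 : dz (mf l) F = (fun x => (F x).1.2.2 - (mf l x).1.2.2) -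
    (fun x => (mf l x).1.1) * (fun x => (F x).1.2.1) +
      (fun x => (mf l x).1.2.1) * (fun x => (F x).1.1) := by
    funext y; rfl
  rw [h4]
  have h5 := h3.fderiv
  erw [h5]
  simp [mfL_apply, mf, ez]
  ring

theorem contDiff_dz {l : ℝ} {F : V → V} (hF : ContDiff ℝ 1 F) : ContDiff ℝ 1 (dz (mf l) F) := by
  have := contDiff_mf l (n := 1)
  unfold dz
  fun_prop

theorem abs_log_sub_le {q : ℝ} (hq : |q| ≤ 1 / 2) : |Real.log (1 + q) - q| ≤ 2 * q ^ 2 := by
  rw [abs_le] at hq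
  have h1 : 0 < 1 + q := by linarith
  have h2 := Real.log_le_sub_one_of_pos h1
  have h3 := Real.one_sub_inv_le_log_of_pos h1
  have h4 : 1 - (1 + q)⁻¹ = q - q ^ 2 / (1 + q) := by field_simp; ring
  have h5 : q ^ 2 / (1 + q) ≤ 2 * q ^ 2 := by
    rw [div_le_iff₀ h1]; nlinarith [sq_nonneg q]
  rw [abs_le]
  constructor <;> nlinarith [sq_nonneg q]

theorem volume_real_D_pos : 0 < volume.real D :=
  ENNReal.toReal_pos volume_D_pos.ne' volume_D_lt_top.ne

/-- Along any family, the unstable exponent of the continuation is `2 log l + O(t²)`. -/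
theorem lamU_family_bound {l : ℝ} (hl : 1 < l) {F : ℝ → V → V}
    (hF : ContDiff ℝ 2 (fun q : ℝ × V => F q.1 q.2)) (hV : ∀ t, VolDiffeo 1 (F t))
    (h0 : F 0 = mf l) : ∃ C ≥ 0, ∃ δ > 0, ∀ t : ℝ, |t| ≤ δ → ∀ P : Splitting,
      InvSplitting 0 (F t) P → Near (1 / 4) P P0 → |lamU (F t) P - 2 * Real.log l| ≤ C * t ^ 2 := by
  have hl0 : 0 < l := by linarith
  have hl2 : 1 < l ^ 2 := one_lt_pow₀ hl (by norm_num)
  have hδ0 : 0 < l ^ 2 - l := by nlinarith
  obtain ⟨C1, hC1, hA⟩ := coc_family_bound hF hV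
  obtain ⟨C2, hC2, hB⟩ := lip_in_t (hF.of_le (by norm_num))
  have hF' : ContDiff ℝ 1 (fun q : ℝ × V => fderiv ℝ (F q.1) q.2 ez) := by
    have h2 : ContDiff ℝ 1 (fun q : ℝ × V => fderiv ℝ (F q.1) q.2) := by
      refine ContDiff.fderiv (f := fun (q : ℝ × V) => F q.1) (g := fun q : ℝ × V => q.2)
        (m := 2) ?_ contDiff_snd (by norm_num)
      exact hF.comp ((contDiff_fst.comp contDiff_fst).prodMk contDiff_snd)
    exact h2.clm_apply contDiff_const
  obtain ⟨C3, hC3, hE⟩ := lip_in_t hF'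
  -- the deck automorphism is constant
  have hα : ∃ α : Gam → Gam, ∀ (t : ℝ) (g : Gam) (x : V), F t (g • x) = α g • F t x := by
    choose α hα using fun t => (hV t).lift
    refine ⟨fun g => α 0 g, fun t g x => ?_⟩
    have := lift_const hF.continuous (α := fun t g => α t g) hα t g
    rw [hα t g x, this]
  obtain ⟨α, hα⟩ := hα
  set K := C1 * (8 * C1 / (l ^ 2 - l)) + 2 * C2 * C3 with hK
  have hK0 : 0 ≤ K := by positivity
  refine ⟨2 * (2 * C1) ^ 2 + K, by positivity, min 1 ((l ^ 2 - l) / (16 * (C1 + 1))),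
    lt_min one_pos (by positivity), ?_⟩
  intro t ht P hP hN
  rw [le_min_iff, le_div_iff₀ (by positivity)] at ht
  obtain ⟨ht1, ht2⟩ := ht
  have ht0 := abs_nonneg t
  have hε : C1 * |t| ≤ (l ^ 2 - l) / 16 := by nlinarith
  have hAL : ∀ x, ‖coc (F t) x - diag (dl l)‖ ≤ C1 * |t| := by
    intro x
    have := hA t ht1 x
    rwa [h0, coc_mf hl0.ne'] at this
  obtain ⟨m, m1, m2, m3, m4, m5, m6⟩ := section_of_splitting hP (by norm_num) hN
  obtain ⟨G, hG, hGF, hFG⟩ := (hV t).inverse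
  have m3' : ∀ x, ‖m x‖ ≤ 1 := fun x => (m3 x).trans (by norm_num)
  have mb := section_bound hFG hl hε hAL m2 m3' m5
  have M1 := model_vec (d := dl l) (j := 2) (μ := l ^ 2) (κ := l) (by linarith) (by nlinarith)
    (dl_two l) (dl_le hl)
  have hcb : ∀ x, |coc (F t) x (bv 2 + m x) 2 - l ^ 2| ≤ 2 * (C1 * |t|) :=
    fun x => M1.den_bound (hAL x) (m2 x) (m3' x)
  obtain ⟨c, hc⟩ : ∃ c : V → ℝ, ∀ x, c x = coc (F t) x (bv 2 + m x) 2 := ⟨_, fun _ => rfl⟩
  have hcpos : ∀ x, 0 < c x := by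
    intro x
    have := hcb x
    rw [← hc, abs_le] at this
    nlinarith
  have hlam : lamU (F t) P = ⨍ x in D, Real.log |c x| := by
    refine lamU_eq (hV t) (v := fun x => bv 2 + m x) (continuous_const.add m1) ?_ ?_ ?_
      (fun x => (hcpos x).ne') m6
    · intro x; rw [PiLp.add_apply, m2, bv_apply]; simp
    · intro g x; simp only [m4]
    · intro x; rw [hc]; exact m5 x
  have hccont : Continuous c := by
    have : c = fun x => pj 2 (coc (F t) x (bv 2 + m x)) := funext hc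
    rw [this]
    exact (pj 2).continuous.comp ((continuous_coc (hV t).smooth).clm_apply
      (continuous_const.add m1))
  -- the remainder
  have hφ1 : ContDiff ℝ 1 (dz (mf l) (F t)) := contDiff_dz (hV t).smooth
  have hφc : Continuous (fun x => fderiv ℝ (dz (mf l) (F t)) x ez) :=
    (hφ1.continuous_fderiv (by norm_num)).clm_apply continuous_const
  have hφ0 : ∫ x in D, fderiv ℝ (dz (mf l) (F t)) x ez = 0 := by
    refine setIntegral_fderiv_ez hφ1 (dz_deck (α := α) ?_ (hα t))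
    intro g x
    have := hα 0 g x
    rwa [h0] at this
  have hR : ∀ x ∈ D, ‖Real.log |c x| - 2 * Real.log l -
      (l ^ 2)⁻¹ * fderiv ℝ (dz (mf l) (F t)) x ez‖ ≤ (2 * (2 * C1) ^ 2 + K) * t ^ 2 := by
    intro x hx
    have hx' := D_subset_K0 hx
    have hb1 := hB t ht1 x hx'
    have hb2 := hE t ht1 x hx'
    simp only [h0] at hb1 hb2
    have hmez : fderiv ℝ (mf l) x ez = l ^ 2 • ez := by
      rw [(hasFDerivAt_mf l x).fderiv, mfL_apply]
      simp [mf, ez]
    rw [hmez] at hb2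
    have t2 : |t| * |t| = t ^ 2 := by rw [← abs_mul, ← sq, abs_of_nonneg (sq_nonneg t)]
    -- comparison of c with the derivative term
    have d1 : |c x - coc (F t) x (bv 2) 2| ≤ C1 * (8 * C1 / (l ^ 2 - l)) * t ^ 2 := by
      have e : c x - coc (F t) x (bv 2) 2 = pj 2 ((coc (F t) x - diag (dl l)) (m x)) := by
        rw [hc, pj_apply, _root_.sub_apply, map_add, PiLp.add_apply, PiLp.sub_apply, diag_apply,
          m2]
        ring
      rw [e]
      calc |pj 2 ((coc (F t) x - diag (dl l)) (m x))| ≤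
          ‖(coc (F t) x - diag (dl l)) (m x)‖ := abs_coord_le 2 ((coc (F t) x - diag (dl l)) (m x))
        _ ≤ C1 * |t| * ‖m x‖ := (coc (F t) x - diag (dl l)).le_of_opNorm_le (hAL x) _
        _ ≤ C1 * |t| * (8 * (C1 * |t|) / (l ^ 2 - l)) := by
          have := mb x
          gcongr
        _ = C1 * (8 * C1 / (l ^ 2 - l)) * (|t| * |t|) := by ring
        _ = _ := by rw [t2]
    have d2 : |coc (F t) x (bv 2) 2 - l ^ 2 - fderiv ℝ (dz (mf l) (F t)) x ez| ≤
        2 * C2 * C3 * t ^ 2 := by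
      rw [coc_bv, fderiv_dz ((hV t).smooth.differentiable (by norm_num) x)]
      have n1 : |(F t x).1.2.1 - (mf l x).1.2.1| ≤ C2 * |t| := by
        refine le_trans ?_ hb1
        have := norm_snd_le (F t x - mf l x).1
        have h3 := norm_fst_le (F t x - mf l x)
        have h4 := norm_fst_le (F t x - mf l x).1.2
        exact h4.trans (this.trans h3)
      have n2 : |(F t x).1.1 - (mf l x).1.1| ≤ C2 * |t| := by
        refine le_trans ?_ hb1
        have h3 := norm_fst_le (F t x - mf l x)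
        have h4 := norm_fst_le (F t x - mf l x).1
        exact h4.trans h3
      have n3 : |(fderiv ℝ (F t) x ez).1.1| ≤ C3 * |t| := by
        refine le_trans ?_ hb2
        have h3 := norm_fst_le (fderiv ℝ (F t) x ez - l ^ 2 • ez)
        have h4 := norm_fst_le (fderiv ℝ (F t) x ez - l ^ 2 • ez).1
        have h5 : (fderiv ℝ (F t) x ez - l ^ 2 • ez).1.1 = (fderiv ℝ (F t) x ez).1.1 := by
          simp [ez]
        rw [h5] at h4
        exact h4.trans h3
      have n4 : |(fderiv ℝ (F t) x ez).1.2.1| ≤ C3 * |t| := by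
        refine le_trans ?_ hb2
        have h3 := norm_fst_le (fderiv ℝ (F t) x ez - l ^ 2 • ez)
        have h4 := norm_snd_le (fderiv ℝ (F t) x ez - l ^ 2 • ez).1
        have h6 := norm_fst_le (fderiv ℝ (F t) x ez - l ^ 2 • ez).1.2
        have h5 : (fderiv ℝ (F t) x ez - l ^ 2 • ez).1.2.1 = (fderiv ℝ (F t) x ez).1.2.1 := by
          simp [ez]
        rw [h5] at h6
        exact h6.trans (h4.trans h3)
      have e : (fderiv ℝ (F t) x ez).1.2.2 + (F t x).1.2.1 * (fderiv ℝ (F t) x ez).1.1 -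
          (F t x).1.1 * (fderiv ℝ (F t) x ez).1.2.1 - l ^ 2 -
          ((fderiv ℝ (F t) x ez).1.2.2 - l ^ 2 + (mf l x).1.2.1 * (fderiv ℝ (F t) x ez).1.1 -
          (mf l x).1.1 * (fderiv ℝ (F t) x ez).1.2.1) =
          ((F t x).1.2.1 - (mf l x).1.2.1) * (fderiv ℝ (F t) x ez).1.1 -
          ((F t x).1.1 - (mf l x).1.1) * (fderiv ℝ (F t) x ez).1.2.1 := by ring
      rw [e]
      calc _ ≤ |((F t x).1.2.1 - (mf l x).1.2.1) * (fderiv ℝ (F t) x ez).1.1| +
          |((F t x).1.1 - (mf l x).1.1) * (fderiv ℝ (F t) x ez).1.2.1| := abs_sub _ _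
        _ = |(F t x).1.2.1 - (mf l x).1.2.1| * |(fderiv ℝ (F t) x ez).1.1| +
          |(F t x).1.1 - (mf l x).1.1| * |(fderiv ℝ (F t) x ez).1.2.1| := by
            rw [abs_mul, abs_mul]
        _ ≤ (C2 * |t|) * (C3 * |t|) + (C2 * |t|) * (C3 * |t|) := by gcongr
        _ = 2 * C2 * C3 * (|t| * |t|) := by ring
        _ = _ := by rw [t2]
    -- the logarithm
    have hq : |c x / l ^ 2 - 1| ≤ 2 * C1 * |t| := by
      have e : c x / l ^ 2 - 1 = (l ^ 2)⁻¹ * (c x - l ^ 2) := by field_simp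
      rw [e, abs_mul, abs_of_pos (by positivity), hc]
      have h1 : (l ^ 2)⁻¹ ≤ 1 := inv_le_one_of_one_le₀ hl2.le
      calc (l ^ 2)⁻¹ * |coc (F t) x (bv 2 + m x) 2 - l ^ 2| ≤ 1 * (2 * (C1 * |t|)) :=
            mul_le_mul h1 (hcb x) (abs_nonneg _) (by norm_num)
        _ = 2 * C1 * |t| := by ring
    have hq2 : |c x / l ^ 2 - 1| ≤ 1 / 2 := by
      have h3 := hcb x
      rw [← hc] at h3
      have e : c x / l ^ 2 - 1 = (c x - l ^ 2) / l ^ 2 := by field_simp
      rw [e, abs_div, abs_of_pos (by positivity : (0:ℝ) < l ^ 2), div_le_iff₀ (by positivity)]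
      nlinarith
    have h1 := abs_log_sub_le hq2
    have h2 : Real.log |c x| - 2 * Real.log l = Real.log (1 + (c x / l ^ 2 - 1)) := by
      rw [add_sub_cancel, Real.log_div (hcpos x).ne' (by positivity), Real.log_pow,
        abs_of_pos (hcpos x)]
      push_cast; ring
    have h3 : (c x / l ^ 2 - 1) ^ 2 ≤ (2 * C1) ^ 2 * t ^ 2 := by
      have := pow_le_pow_left₀ (abs_nonneg _) hq 2
      rw [sq_abs] at this
      calc _ ≤ (2 * C1 * |t|) ^ 2 := this
        _ = (2 * C1) ^ 2 * (|t| * |t|) := by ring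
        _ = _ := by rw [t2]
    have h4 : |c x / l ^ 2 - 1 - (l ^ 2)⁻¹ * fderiv ℝ (dz (mf l) (F t)) x ez| ≤ K * t ^ 2 := by
      have e : c x / l ^ 2 - 1 - (l ^ 2)⁻¹ * fderiv ℝ (dz (mf l) (F t)) x ez =
          (l ^ 2)⁻¹ * ((c x - coc (F t) x (bv 2) 2) +
            (coc (F t) x (bv 2) 2 - l ^ 2 - fderiv ℝ (dz (mf l) (F t)) x ez)) := by
        field_simp; ring
      rw [e, abs_mul, abs_of_pos (by positivity)]
      have h5 : (l ^ 2)⁻¹ ≤ 1 := inv_le_one_of_one_le₀ hl2.le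
      calc _ ≤ 1 * |(c x - coc (F t) x (bv 2) 2) +
            (coc (F t) x (bv 2) 2 - l ^ 2 - fderiv ℝ (dz (mf l) (F t)) x ez)| := by gcongr
        _ ≤ |c x - coc (F t) x (bv 2) 2| +
            |coc (F t) x (bv 2) 2 - l ^ 2 - fderiv ℝ (dz (mf l) (F t)) x ez| := by
          rw [one_mul]; exact abs_add_le _ _
        _ ≤ C1 * (8 * C1 / (l ^ 2 - l)) * t ^ 2 + 2 * C2 * C3 * t ^ 2 := add_le_add d1 d2
        _ = K * t ^ 2 := by rw [hK]; ring
    rw [h2, Real.norm_eq_abs]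
    calc _ = |(Real.log (1 + (c x / l ^ 2 - 1)) - (c x / l ^ 2 - 1)) +
          (c x / l ^ 2 - 1 - (l ^ 2)⁻¹ * fderiv ℝ (dz (mf l) (F t)) x ez)| := by
          congr 1; ring
      _ ≤ _ := abs_add_le _ _
      _ ≤ 2 * (c x / l ^ 2 - 1) ^ 2 + K * t ^ 2 := add_le_add h1 h4
      _ ≤ 2 * ((2 * C1) ^ 2 * t ^ 2) + K * t ^ 2 := by gcongr
      _ = _ := by ring
  have hlogc : Continuous (fun x => Real.log |c x|) :=
    hccont.abs.log fun x => abs_ne_zero.2 (hcpos x).ne'
  have hint := norm_setIntegral_le_of_norm_le_const (μ := volume) volume_D_lt_top hR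
  have i1 : IntegrableOn (fun x => Real.log |c x|) D volume := integrableOn_D hlogc
  have i2 : IntegrableOn (fun _ : V => 2 * Real.log l) D volume :=
    integrableOn_D continuous_const
  have i3 : IntegrableOn (fun x => (l ^ 2)⁻¹ * fderiv ℝ (dz (mf l) (F t)) x ez) D volume :=
    integrableOn_D (continuous_const.mul hφc)
  have i12 : IntegrableOn (fun x => Real.log |c x| - 2 * Real.log l) D volume := i1.sub i2
  rw [integral_sub i12 i3, integral_sub i1 i2, setIntegral_const, integral_const_mul, hφ0,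
    mul_zero, sub_zero, smul_eq_mul, Real.norm_eq_abs] at hint
  have hvol := volume_real_D_pos
  rw [hlam, setAverage_eq, smul_eq_mul]
  have e : (volume.real D)⁻¹ * (∫ x in D, Real.log |c x|) - 2 * Real.log l =
      (volume.real D)⁻¹ * ((∫ x in D, Real.log |c x|) - volume.real D * (2 * Real.log l)) := by
    field_simp
  rw [e, abs_mul, abs_of_pos (by positivity), inv_mul_le_iff₀ hvol]
  linarith

theorem Near.mono {ε ε' : ℝ} {P Q : Splitting} (h : Near ε P Q) (hε : ε ≤ ε') : Near ε' P Q :=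
  fun x => ⟨(h x).1.trans hε, (h x).2.1.trans hε, (h x).2.2.trans hε⟩

/-- Existence of the continuation of the splitting along any family. -/
theorem exists_continuation {l : ℝ} (hl : 1 < l) {F : ℝ → V → V}
    (hF : ContDiff ℝ 2 (fun q : ℝ × V => F q.1 q.2)) (hV : ∀ t, VolDiffeo 1 (F t))
    (h0 : F 0 = mf l) :
    ∃ Q : ℝ → Splitting, Continues F P0 Q ∧ ∀ᶠ t in 𝓝 (0 : ℝ), IsPH 0 (F t) (Q t) := by
  obtain ⟨ε0, hε0, C, hC, hp⟩ := persist hl
  obtain ⟨C1, hC1, hA⟩ := coc_family_bound hF hV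
  set δ := min 1 (ε0 / (C1 + 1)) with hδ
  have hδ0 : 0 < δ := lt_min one_pos (by positivity)
  have key : ∀ t : ℝ, ∃ P : Splitting, |t| ≤ δ → IsPH 0 (F t) P ∧ Near (C * (C1 * |t|)) P P0 := by
    intro t
    by_cases ht : |t| ≤ δ
    · have ht' := ht
      rw [hδ, le_min_iff, le_div_iff₀ (by positivity)] at ht'
      obtain ⟨P, m, c, h1, h2, _⟩ := hp (F t) (hV t) (C1 * |t|) (by nlinarith [abs_nonneg t])
        (fun x => by
          have := hA t ht'.1 x
          rwa [h0, coc_mf (by positivity)] at this)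
      exact ⟨P, fun _ => ⟨h1, h2⟩⟩
    · exact ⟨P0, fun h => absurd h ht⟩
  choose Q hQ using key
  have hev : ∀ᶠ t in 𝓝 (0 : ℝ), |t| ≤ δ := by
    have : ∀ᶠ t in 𝓝 (0 : ℝ), t ∈ Metric.closedBall (0 : ℝ) δ := Metric.closedBall_mem_nhds _ hδ0
    simpa [Real.norm_eq_abs] using this
  refine ⟨Q, fun ε hε => ?_, ?_⟩
  · have hev2 : ∀ᶠ t in 𝓝 (0 : ℝ), |t| ≤ ε / (C * C1 + 1) := by
      have : ∀ᶠ t in 𝓝 (0 : ℝ), t ∈ Metric.closedBall (0 : ℝ) (ε / (C * C1 + 1)) :=
        Metric.closedBall_mem_nhds _ (by positivity)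
      simpa [Real.norm_eq_abs] using this
    filter_upwards [hev, hev2] with t ht ht2
    obtain ⟨h1, h2⟩ := hQ t ht
    refine ⟨h1.1, h2.mono ?_⟩
    rw [le_div_iff₀ (by positivity)] at ht2
    nlinarith [abs_nonneg t]
  · filter_upwards [hev] with t ht
    exact (hQ t ht).1

/-- The model automorphism is critical. -/
theorem critical_mf {l : ℝ} (hl : 1 < l) : Critical (mf l) P0 := by
  intro F hF hV2 h0
  have hV : ∀ t, VolDiffeo 1 (F t) := fun t => (hV2 t).of_le (by norm_num)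
  refine ⟨exists_continuation hl hF hV h0, fun Q hQ => ?_⟩
  obtain ⟨C, hC, δ, hδ, hb⟩ := lamU_family_bound hl hF hV h0
  have hev : ∀ᶠ t in 𝓝 (0 : ℝ), |t| ≤ δ := by
    have : ∀ᶠ t in 𝓝 (0 : ℝ), t ∈ Metric.closedBall (0 : ℝ) δ := Metric.closedBall_mem_nhds _ hδ
    simpa [Real.norm_eq_abs] using this
  have hev2 := hQ (1 / 4) (by norm_num)
  have hev3 : ∀ᶠ t in 𝓝 (0 : ℝ), |lamU (F t) (Q t) - 2 * Real.log l| ≤ C * t ^ 2 := by
    filter_upwards [hev, hev2] with t ht h2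
    exact hb t ht _ h2.1 h2.2
  have hz : lamU (F 0) (Q 0) = 2 * Real.log l := by
    have := hev3.self_of_nhds
    have h2 : |lamU (F 0) (Q 0) - 2 * Real.log l| ≤ 0 := by simpa using this
    exact sub_eq_zero.1 (abs_eq_zero.1 (le_antisymm h2 (abs_nonneg _)))
  rw [hasDerivAt_iff_isLittleO]
  have h1 : (fun t => lamU (F t) (Q t) - lamU (F 0) (Q 0) - (t - 0) • (0 : ℝ)) =O[𝓝 0]
      fun t : ℝ => t ^ 2 := by
    refine Asymptotics.IsBigO.of_bound C ?_
    filter_upwards [hev3] with t ht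
    rw [hz, smul_zero, sub_zero, Real.norm_eq_abs, Real.norm_eq_abs, abs_of_nonneg (sq_nonneg t)]
    exact ht
  have h2 := h1.trans_isLittleO (Asymptotics.isLittleO_pow_id (𝕜 := ℝ) one_lt_two)
  simpa using h2

end Pool.Agent.Lib.MP_48de40_an
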