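import Pool.Agent.Lib.MP_48de40_an.Base

/-!
# Auxiliary definitions for the proof, with tangent vectors written in a Euclidean space

The statement uses the definitions of `Stmt.lean`; `Bridge.lean` translates between the two.
-/

open MeasureTheory Set Filter Topology
open scoped ContDiff

namespace Pool.Agent.Lib.MP_48de40_an

/-- The Euclidean space in which tangent vectors are written through the orthonormal frame
`X, Y, Z, X', Y', Z'`. -/
abbrev E := EuclideanSpace ℝ (Fin 6)

/-- The left-invariant frame: `fr x v = v₀ X + v₁ Y + v₂ Z + v₃ X' + v₄ Y' + v₅ Z'` at `x`, where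
`X = ∂x - y ∂z`, `Y = ∂y + x ∂z`, `Z = ∂z` on the first factor and likewise on the second. -/
noncomputable def fr (x : V) : E →L[ℝ] V := LinearMap.toContinuousLinearMap
  { toFun := fun v => ((v 0, v 1, v 2 - x.1.2.1 * v 0 + x.1.1 * v 1),
      (v 3, v 4, v 5 - x.2.2.1 * v 3 + x.2.1 * v 4))
    map_add' := by
      intro v w
      ext <;> simp only [PiLp.add_apply, Prod.fst_add, Prod.snd_add] <;> ring
    map_smul' := by
      intro r v
      ext <;> simp only [PiLp.smul_apply, Prod.smul_fst, Prod.smul_snd, smul_eq_mul,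
        RingHom.id_apply] <;> ring }

/-- The coframe dual to `fr`: `cf x` is the inverse of `fr x`. -/
noncomputable def cf (x : V) : V →L[ℝ] E := LinearMap.toContinuousLinearMap
  { toFun := fun w => !₂[w.1.1, w.1.2.1, w.1.2.2 + x.1.2.1 * w.1.1 - x.1.1 * w.1.2.1,
      w.2.1, w.2.2.1, w.2.2.2 + x.2.2.1 * w.2.1 - x.2.1 * w.2.2.1]
    map_add' := by
      intro v w
      ext i; fin_cases i <;> simp <;> ring
    map_smul' := by
      intro r v
      ext i; fin_cases i <;> simp <;> ring }

/-- The derivative of `F` at `x` read in the orthonormal frame `fr`: the matrix of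
`D_x F : T_x M → T_{F x} M`. -/
noncomputable def coc (F : V → V) (x : V) : E →L[ℝ] E :=
  (cf (F x)).comp ((fderiv ℝ F x).comp (fr x))

/-- A decomposition of `TM` in three subbundles `E^s, E^c, E^u`, given by the three fields of
projections (written in the frame `fr`): `E^s`, `E^c`, `E^u` are the ranges of `s`, `c`, `u`. -/
structure Splitting where
  /-- projection on the stable bundle -/
  s : V → E →L[ℝ] E
  /-- projection on the centre bundle -/
  c : V → E →L[ℝ] E
  /-- projection on the unstable bundle -/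
  u : V → E →L[ℝ] E

/-- `P` is a splitting `TM = E^s ⊕ E^c ⊕ E^u` of class `C^n`, invariant under `DF`, with
`dim E^s = dim E^u = 1`. -/
structure InvSplitting (n : WithTop ℕ∞) (F : V → V) (P : Splitting) : Prop where
  smooth_s : ContDiff ℝ n P.s
  smooth_c : ContDiff ℝ n P.c
  smooth_u : ContDiff ℝ n P.u
  sum_eq : ∀ x, P.s x + P.c x + P.u x = ContinuousLinearMap.id ℝ E
  proj_s : ∀ x, (P.s x).comp (P.s x) = P.s x
  proj_c : ∀ x, (P.c x).comp (P.c x) = P.c x
  proj_u : ∀ x, (P.u x).comp (P.u x) = P.u x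
  s_u : ∀ x, (P.s x).comp (P.u x) = 0
  u_s : ∀ x, (P.u x).comp (P.s x) = 0
  deck_s : ∀ (g : Gam) (x : V), P.s (g • x) = P.s x
  deck_c : ∀ (g : Gam) (x : V), P.c (g • x) = P.c x
  deck_u : ∀ (g : Gam) (x : V), P.u (g • x) = P.u x
  inv_s : ∀ x, (coc F x).comp (P.s x) = (P.s (F x)).comp (coc F x)
  inv_c : ∀ x, (coc F x).comp (P.c x) = (P.c (F x)).comp (coc F x)
  inv_u : ∀ x, (coc F x).comp (P.u x) = (P.u (F x)).comp (coc F x)
  rank_s : ∀ x, Module.finrank ℝ (LinearMap.range (P.s x).toLinearMap) = 1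
  rank_u : ∀ x, Module.finrank ℝ (LinearMap.range (P.u x).toLinearMap) = 1

/-- `F` is partially hyperbolic with splitting `P` of class `C^n`: `E^s` is uniformly contracted,
`E^u` is uniformly expanded, `E^u` dominates `E^c` and `E^c` dominates `E^s`. -/
def IsPH (n : WithTop ℕ∞) (F : V → V) (P : Splitting) : Prop :=
  InvSplitting n F P ∧ ∃ a b c d : ℝ, 0 < a ∧ a < 1 ∧ 1 < d ∧ a < b ∧ c < d ∧
    (∀ x v, ‖coc F x (P.s x v)‖ ≤ a * ‖P.s x v‖) ∧
    (∀ x v, b * ‖P.c x v‖ ≤ ‖coc F x (P.c x v)‖) ∧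
    (∀ x v, ‖coc F x (P.c x v)‖ ≤ c * ‖P.c x v‖) ∧
    (∀ x v, d * ‖P.u x v‖ ≤ ‖coc F x (P.u x v)‖)

/-- The expansion factor `|det DF|_{E^u}|` at `x`, for a one-dimensional bundle `E^u`: the norm of
`D_x F v` for a unit vector `v` of the line `E^u(x)`. -/
noncomputable def jac (F : V → V) (P : Splitting) (x : V) : ℝ :=
  sSup {r : ℝ | ∃ v ∈ LinearMap.range (P.u x).toLinearMap, ‖v‖ = 1 ∧ r = ‖coc F x v‖}

/-- The unstable exponent `λ_u(F) = ∫_M log |det DF|_{E^u}| dm`, with `m` the normalised volume. -/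
noncomputable def lamU (F : V → V) (P : Splitting) : ℝ := ⨍ x in D, Real.log (jac F P x)

/-- The two splittings are uniformly `ε`-close. -/
def Near (ε : ℝ) (P Q : Splitting) : Prop :=
  ∀ x, ‖P.s x - Q.s x‖ ≤ ε ∧ ‖P.c x - Q.c x‖ ≤ ε ∧ ‖P.u x - Q.u x‖ ≤ ε

/-- `Q t`, for `t` near `0`, is the continuation of the splitting `P` along the family `F t`:
it is `DF_t`-invariant and converges uniformly to `P` as `t → 0`. -/
def Continues (F : ℝ → V → V) (P : Splitting) (Q : ℝ → Splitting) : Prop :=
  ∀ ε > 0, ∀ᶠ t in 𝓝 (0 : ℝ), InvSplitting 0 (F t) (Q t) ∧ Near ε (Q t) P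

/-- `f`, with splitting `P`, is critical for the unstable bundle and volume: along every family
`F t` of volume-preserving diffeomorphisms, of class `C²` jointly in `t` and the point, with
`F 0 = f`, the splitting has a partially hyperbolic continuation and, for every continuation, the
derivative of the unstable exponent at `t = 0` is zero. -/
def Critical (f : V → V) (P : Splitting) : Prop :=
  ∀ F : ℝ → V → V, ContDiff ℝ 2 (fun q : ℝ × V => F q.1 q.2) → (∀ t, VolDiffeo 2 (F t)) →
    F 0 = f →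
      (∃ Q : ℝ → Splitting, Continues F P Q ∧ ∀ᶠ t in 𝓝 (0 : ℝ), IsPH 0 (F t) (Q t)) ∧
      ∀ Q : ℝ → Splitting, Continues F P Q → HasDerivAt (fun t => lamU (F t) (Q t)) 0 0

/-- `F` and `G` are `ε`-close on `K` together with their derivatives up to order `r`. -/
def CrClose (K : Set V) (r : ℕ) (ε : ℝ) (F G : V → V) : Prop :=
  ∀ j ≤ r, ∀ x ∈ K, ‖iteratedFDeriv ℝ j F x - iteratedFDeriv ℝ j G x‖ ≤ ε

/-- `f`, with splitting `P`, is a local maximum of the unstable exponent in the `C^r` topology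
among the volume-preserving diffeomorphisms of class `C^∞`: for some `C^r`-neighbourhood of `f`,
`λ_u(g) ≤ λ_u(f)` for every such `g` in it, where `λ_u(g)` is computed with the partially
hyperbolic splitting of `g` close to `P`. -/
def LocalMaxU (r : ℕ) (f : V → V) (P : Splitting) : Prop :=
  ∃ K : Set V, IsCompact K ∧ ∃ ε > 0, ∀ (g : V → V) (Q : Splitting), VolDiffeo ∞ g →
    CrClose K r ε g f → IsPH 0 g Q → Near ε Q P → lamU g Q ≤ lamU f P

end Pool.Agent.Lib.MP_48de40_an
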