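import Mathlib

/-!
# Invariant line fields of a cocycle close to a constant one
-/

open Set Filter Topology

namespace Pool.Agent.Lib.MP_48de40_an

section pointwise

variable {W : Type*} [NormedAddCommGroup W] [NormedSpace ℝ W]

/-- The standing assumptions: `e` spans an eigenline of `L`, dominating the complement `ker s`. -/
structure Model (e : W) (s : W →L[ℝ] ℝ) (L : W →L[ℝ] W) (μ κ : ℝ) : Prop where
  he : ‖e‖ ≤ 1
  hs : ‖s‖ ≤ 1
  hse : s e = 1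
  hκ : 0 ≤ κ
  hκμ : κ < μ
  hLe : L e = μ • e
  hLs : ∀ v, s (L v) = μ * s v
  hL : ∀ v, s v = 0 → ‖L v‖ ≤ κ * ‖v‖

variable {e : W} {s : W →L[ℝ] ℝ} {L : W →L[ℝ] W} {μ κ : ℝ}

theorem Model.norm_s (h : Model e s L μ κ) (v : W) : |s v| ≤ ‖v‖ := by
  have := s.le_of_opNorm_le h.hs v
  rw [Real.norm_eq_abs, one_mul] at this
  exact this

theorem Model.den_bound (h : Model e s L μ κ) {A : W →L[ℝ] W} {ε : ℝ} (hA : ‖A - L‖ ≤ ε) {m : W}
    (hm : s m = 0) (hm1 : ‖m‖ ≤ 1) : |s (A (e + m)) - μ| ≤ 2 * ε := by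
  have h0 : s (e + m) = 1 := by rw [map_add, h.hse, hm, add_zero]
  have h1 : s (A (e + m)) - μ = s ((A - L) (e + m)) := by
    rw [_root_.sub_apply, map_sub, h.hLs, h0, mul_one]
  rw [h1]
  have h2 : ‖e + m‖ ≤ 2 := by
    calc ‖e + m‖ ≤ ‖e‖ + ‖m‖ := norm_add_le _ _
      _ ≤ 1 + 1 := add_le_add h.he hm1
      _ = 2 := by norm_num
  calc |s ((A - L) (e + m))| ≤ ‖(A - L) (e + m)‖ := h.norm_s _
    _ ≤ ε * ‖e + m‖ := (A - L).le_of_opNorm_le hA _
    _ ≤ ε * 2 := by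
      have : 0 ≤ ε := (norm_nonneg _).trans hA
      gcongr
    _ = 2 * ε := by ring

theorem Model.den_lip (h : Model e s L μ κ) {A : W →L[ℝ] W} {ε : ℝ} (hA : ‖A - L‖ ≤ ε) {m m' : W}
    (hm : s m = 0) (hm' : s m' = 0) :
    |s (A (e + m)) - s (A (e + m'))| ≤ ε * ‖m - m'‖ := by
  have h1 : s (A (e + m)) - s (A (e + m')) = s ((A - L) (m - m')) := by
    have : s (L (m - m')) = 0 := by rw [h.hLs, map_sub, hm, hm']; ring
    rw [_root_.sub_apply, map_sub s, this, sub_zero, ← map_sub, ← map_sub]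
    congr 2
    abel
  rw [h1]
  exact (h.norm_s _).trans ((A - L).le_of_opNorm_le hA _)

theorem Model.norm_pi (h : Model e s L μ κ) (w : W) : ‖w - s w • e‖ ≤ 2 * ‖w‖ := by
  calc ‖w - s w • e‖ ≤ ‖w‖ + ‖s w • e‖ := norm_sub_le _ _
    _ = ‖w‖ + |s w| * ‖e‖ := by rw [norm_smul, Real.norm_eq_abs]
    _ ≤ ‖w‖ + ‖w‖ * 1 := by
      have h1 := h.norm_s w
      have h2 := h.he
      gcongr
    _ = 2 * ‖w‖ := by ring

theorem Model.num_eq (h : Model e s L μ κ) {A : W →L[ℝ] W} {m : W} (hm : s m = 0) :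
    A (e + m) - s (A (e + m)) • e =
      L m + ((A - L) (e + m) - s ((A - L) (e + m)) • e) := by
  have h0 : s (e + m) = 1 := by rw [map_add, h.hse, hm, add_zero]
  have h1 : s (A (e + m)) = μ + s ((A - L) (e + m)) := by
    rw [_root_.sub_apply, map_sub, h.hLs, h0]
    ring
  rw [h1, _root_.sub_apply, map_add L, h.hLe, add_smul]
  abel

theorem Model.num_bound (h : Model e s L μ κ) {A : W →L[ℝ] W} {ε : ℝ} (hA : ‖A - L‖ ≤ ε) {m : W}
    (hm : s m = 0) (hm1 : ‖m‖ ≤ 1) :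
    ‖A (e + m) - s (A (e + m)) • e‖ ≤ κ * ‖m‖ + 4 * ε := by
  have hε : 0 ≤ ε := (norm_nonneg _).trans hA
  rw [h.num_eq hm]
  have h2 : ‖e + m‖ ≤ 2 := by
    calc ‖e + m‖ ≤ ‖e‖ + ‖m‖ := norm_add_le _ _
      _ ≤ 1 + 1 := add_le_add h.he hm1
      _ = 2 := by norm_num
  calc _ ≤ ‖L m‖ + ‖(A - L) (e + m) - s ((A - L) (e + m)) • e‖ := norm_add_le _ _
    _ ≤ κ * ‖m‖ + 2 * ‖(A - L) (e + m)‖ := add_le_add (h.hL _ hm) (h.norm_pi _)
    _ ≤ κ * ‖m‖ + 2 * (ε * 2) := by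
      have := (A - L).le_of_opNorm_le hA (e + m)
      gcongr
      exact this.trans (by gcongr)
    _ = κ * ‖m‖ + 4 * ε := by ring

theorem Model.num_lip (h : Model e s L μ κ) {A : W →L[ℝ] W} {ε : ℝ} (hA : ‖A - L‖ ≤ ε) {m m' : W}
    (hm : s m = 0) (hm' : s m' = 0) :
    ‖(A (e + m) - s (A (e + m)) • e) - (A (e + m') - s (A (e + m')) • e)‖ ≤
      (κ + 2 * ε) * ‖m - m'‖ := by
  rw [h.num_eq hm, h.num_eq hm']
  have h1 : L m + ((A - L) (e + m) - s ((A - L) (e + m)) • e) -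
      (L m' + ((A - L) (e + m') - s ((A - L) (e + m')) • e)) =
      L (m - m') + ((A - L) (m - m') - s ((A - L) (m - m')) • e) := by
    have : (A - L) (m - m') = (A - L) (e + m) - (A - L) (e + m') := by
      rw [← map_sub]; congr 1; abel
    rw [this, map_sub s, map_sub L, sub_smul]
    abel
  rw [h1]
  have h3 : s (m - m') = 0 := by rw [map_sub, hm, hm', sub_zero]
  calc _ ≤ ‖L (m - m')‖ + ‖(A - L) (m - m') - s ((A - L) (m - m')) • e‖ := norm_add_le _ _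
    _ ≤ κ * ‖m - m'‖ + 2 * ‖(A - L) (m - m')‖ := add_le_add (h.hL _ h3) (h.norm_pi _)
    _ ≤ κ * ‖m - m'‖ + 2 * (ε * ‖m - m'‖) := by
      have := (A - L).le_of_opNorm_le hA (m - m')
      gcongr
    _ = (κ + 2 * ε) * ‖m - m'‖ := by ring

theorem Model.step_bound (h : Model e s L μ κ) {A : W →L[ℝ] W} {ε : ℝ} (hA : ‖A - L‖ ≤ ε)
    (hε : ε ≤ (μ - κ) / 16) {m : W}
    (hm : s m = 0) (hm1 : ‖m‖ ≤ 8 * ε / (μ - κ)) :
    ‖(s (A (e + m)))⁻¹ • (A (e + m) - s (A (e + m)) • e)‖ ≤ 8 * ε / (μ - κ) := by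
  have hε0 : 0 ≤ ε := (norm_nonneg _).trans hA
  have hδ : 0 < μ - κ := sub_pos.2 h.hκμ
  have hr : 8 * ε / (μ - κ) ≤ 1 / 2 := by
    rw [div_le_iff₀ hδ]; linarith
  have hm2 : ‖m‖ ≤ 1 := by linarith
  have hd := h.den_bound hA hm hm2
  rw [abs_le] at hd
  have hk := h.hκ
  have hd1 : μ - 2 * ε ≤ s (A (e + m)) := by linarith
  have hd0 : 0 < s (A (e + m)) := by linarith
  rw [norm_smul, norm_inv, Real.norm_eq_abs, abs_of_pos hd0, inv_mul_le_iff₀ hd0]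
  refine (h.num_bound hA hm hm2).trans ?_
  set r := 8 * ε / (μ - κ) with hrdef
  have hr0 : 0 ≤ r := by positivity
  have hre : r * (μ - κ) = 8 * ε := by
    rw [hrdef]; field_simp
  have h1 : κ * ‖m‖ ≤ κ * r := by gcongr
  have h2 : (μ - 2 * ε) * r ≤ s (A (e + m)) * r := by gcongr
  nlinarith

theorem Model.step_lip (h : Model e s L μ κ) {A : W →L[ℝ] W} {ε : ℝ} (hA : ‖A - L‖ ≤ ε)
    (hε : ε ≤ (μ - κ) / 16) {m m' : W}
    (hm : s m = 0) (hm1 : ‖m‖ ≤ 8 * ε / (μ - κ))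
    (hm' : s m' = 0) (hm1' : ‖m'‖ ≤ 8 * ε / (μ - κ)) :
    ‖(s (A (e + m)))⁻¹ • (A (e + m) - s (A (e + m)) • e) -
      (s (A (e + m')))⁻¹ • (A (e + m') - s (A (e + m')) • e)‖ ≤
      ((κ + 3 * ε) / (μ - 2 * ε)) * ‖m - m'‖ := by
  have hε0 : 0 ≤ ε := (norm_nonneg _).trans hA
  have hδ : 0 < μ - κ := sub_pos.2 h.hκμ
  have hk := h.hκ
  have hr : 8 * ε / (μ - κ) ≤ 1 / 2 := by
    rw [div_le_iff₀ hδ]; linarith
  have hm2 : ‖m‖ ≤ 1 := by linarith
  have hm2' : ‖m'‖ ≤ 1 := by linarith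
  have hd := h.den_bound hA hm hm2
  have hd' := h.den_bound hA hm' hm2'
  have hdl := h.den_lip hA hm hm'
  have hnl := h.num_lip hA hm hm'
  have hn' := h.num_bound hA hm' hm2'
  rw [abs_le] at hd hd'
  set d := s (A (e + m))
  set d' := s (A (e + m'))
  set N := A (e + m) - d • e
  set N' := A (e + m') - d' • e
  have hd1 : μ - 2 * ε ≤ d := by linarith
  have hd1' : μ - 2 * ε ≤ d' := by linarith
  have hp : 0 < μ - 2 * ε := by linarith
  have hd0 : 0 < d := by linarith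
  have hd0' : 0 < d' := by linarith
  have e1 : d⁻¹ • N - d'⁻¹ • N' = d⁻¹ • (N - N') + (d⁻¹ * (d' - d) * d'⁻¹) • N' := by
    have h9 : d⁻¹ * (d' - d) * d'⁻¹ = d⁻¹ - d'⁻¹ := by field_simp
    rw [h9, smul_sub d⁻¹ N N', sub_smul]
    abel
  rw [e1]
  have hN'2 : ‖N'‖ ≤ μ - 2 * ε := by
    have : κ * ‖m'‖ ≤ κ * 1 := by gcongr
    linarith
  calc _ ≤ ‖d⁻¹ • (N - N')‖ + ‖(d⁻¹ * (d' - d) * d'⁻¹) • N'‖ := norm_add_le _ _
    _ = d⁻¹ * ‖N - N'‖ + d⁻¹ * |d - d'| * (d'⁻¹ * ‖N'‖) := by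
      rw [norm_smul, norm_smul, norm_mul, norm_mul, norm_inv, norm_inv, Real.norm_eq_abs,
        Real.norm_eq_abs, Real.norm_eq_abs, abs_of_pos hd0, abs_of_pos hd0', abs_sub_comm d' d]
      ring
    _ ≤ (μ - 2 * ε)⁻¹ * ((κ + 2 * ε) * ‖m - m'‖) + (μ - 2 * ε)⁻¹ * (ε * ‖m - m'‖) * 1 := by
      have h1 : d'⁻¹ * ‖N'‖ ≤ 1 := by
        rw [inv_mul_le_iff₀ hd0', mul_one]; linarith
      have h2 : d⁻¹ ≤ (μ - 2 * ε)⁻¹ := by gcongr
      gcongr
    _ = ((κ + 3 * ε) / (μ - 2 * ε)) * ‖m - m'‖ := by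
      field_simp; ring

end pointwise

open BoundedContinuousFunction in
/-- A cocycle close to the constant cocycle `L` has an invariant line field close to `ℝ e`. -/
theorem exists_inv_line {X : Type*} [TopologicalSpace X] {W : Type*} [NormedAddCommGroup W]
    [NormedSpace ℝ W] [CompleteSpace W] {e : W} {s : W →L[ℝ] ℝ} {L : W →L[ℝ] W} {μ κ : ℝ}
    (h : Model e s L μ κ) {ε : ℝ} (hε : ε ≤ (μ - κ) / 16) {A : X → W →L[ℝ] W}
    (hA : Continuous A) (hAL : ∀ x, ‖A x - L‖ ≤ ε) {τ : X → X} (hτ : Continuous τ)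
    {R : X → X → Prop} (hRτ : ∀ x y, R x y → R (τ x) (τ y)) (hRA : ∀ x y, R x y → A x = A y) :
    ∃ m : X → W, Continuous m ∧ (∀ x, s (m x) = 0) ∧ (∀ x, ‖m x‖ ≤ 8 * ε / (μ - κ)) ∧
      (∀ x y, R x y → m x = m y) ∧
      ∀ x, A (τ x) (e + m (τ x)) = s (A (τ x) (e + m (τ x))) • (e + m x) := by
  rcases isEmpty_or_nonempty X with hX | ⟨⟨x0⟩⟩
  · exact ⟨fun x => 0, continuous_const, fun x => hX.elim x, fun x => hX.elim x,
      fun x => hX.elim x, fun x => hX.elim x⟩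
  have hε0 : 0 ≤ ε := (norm_nonneg _).trans (hAL x0)
  have hδ : 0 < μ - κ := sub_pos.2 h.hκμ
  have hk := h.hκ
  have hr0 : 0 ≤ 8 * ε / (μ - κ) := by positivity
  have hr : 8 * ε / (μ - κ) ≤ 1 / 2 := by
    rw [div_le_iff₀ hδ]; linarith
  set r := 8 * ε / (μ - κ) with hrdef
  let S : Set (X →ᵇ W) := {m | (∀ x, s (m x) = 0) ∧ (∀ x, ‖m x‖ ≤ r) ∧
    ∀ x y, R x y → m x = m y}
  have hSc : IsClosed S := by
    have h1 : IsClosed {m : X →ᵇ W | ∀ x, s (m x) = 0} := by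
      rw [Set.ofPred_forall]
      exact isClosed_iInter fun x => isClosed_eq
        (s.continuous.comp (continuous_eval_const (F := X →ᵇ W) x)) continuous_const
    have h2 : IsClosed {m : X →ᵇ W | ∀ x, ‖m x‖ ≤ r} := by
      rw [Set.ofPred_forall]
      exact isClosed_iInter fun x => isClosed_le
        (continuous_eval_const (F := X →ᵇ W) x).norm continuous_const
    have h3 : IsClosed {m : X →ᵇ W | ∀ x y, R x y → m x = m y} := by
      simp only [Set.ofPred_forall]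
      exact isClosed_iInter fun x => isClosed_iInter fun y => isClosed_iInter fun _ => isClosed_eq
        (continuous_eval_const (F := X →ᵇ W) x) (continuous_eval_const (F := X →ᵇ W) y)
    exact h1.inter (h2.inter h3)
  have hden : ∀ (m : X → W), (∀ x, s (m x) = 0) → (∀ x, ‖m x‖ ≤ r) → ∀ x,
      s (A (τ x) (e + m (τ x))) ≠ 0 := by
    intro m h1 h2 x
    have := h.den_bound (hAL (τ x)) (h1 (τ x)) ((h2 (τ x)).trans (by linarith))
    rw [abs_le] at this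
    have : 0 < s (A (τ x) (e + m (τ x))) := by linarith
    exact this.ne'
  let T : S → S := fun m => ⟨BoundedContinuousFunction.ofNormedAddCommGroup
    (fun x => (s (A (τ x) (e + m.1 (τ x))))⁻¹ •
      (A (τ x) (e + m.1 (τ x)) - s (A (τ x) (e + m.1 (τ x))) • e))
    (by
      have hm : Continuous (fun x => A (τ x) (e + m.1 (τ x))) :=
        (hA.comp hτ).clm_apply (continuous_const.add (m.1.continuous.comp hτ))
      have hd : Continuous (fun x => s (A (τ x) (e + m.1 (τ x)))) := s.continuous.comp hm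
      exact (hd.inv₀ (hden m.1 m.2.1 m.2.2.1)).smul (hm.sub (hd.smul continuous_const)))
    r (fun x => h.step_bound (hAL (τ x)) hε (m.2.1 _) (m.2.2.1 _)), by
      refine ⟨fun x => ?_, fun x => ?_, fun x y hxy => ?_⟩
      · simp only [coe_ofNormedAddCommGroup, map_smul, map_sub, h.hse]
        simp
      · exact h.step_bound (hAL (τ x)) hε (m.2.1 _) (m.2.2.1 _)
      · simp only [coe_ofNormedAddCommGroup]
        rw [hRA _ _ (hRτ _ _ hxy), m.2.2.2 _ _ (hRτ _ _ hxy)]⟩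
  have hp : 0 < μ - 2 * ε := by linarith
  have hK0 : 0 ≤ (κ + 3 * ε) / (μ - 2 * ε) := by positivity
  have hK1 : (κ + 3 * ε) / (μ - 2 * ε) < 1 := by
    rw [div_lt_one hp]; linarith
  have hT : ContractingWith ⟨(κ + 3 * ε) / (μ - 2 * ε), hK0⟩ T := by
    refine ⟨by exact_mod_cast hK1, LipschitzWith.of_dist_le_mul fun m m' => ?_⟩
    change dist (T m).1 (T m').1 ≤ (κ + 3 * ε) / (μ - 2 * ε) * dist m.1 m'.1
    rw [BoundedContinuousFunction.dist_le (by positivity)]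
    intro x
    rw [dist_eq_norm]
    refine (h.step_lip (hAL (τ x)) hε (m.2.1 _) (m.2.2.1 _) (m'.2.1 _) (m'.2.2.1 _)).trans ?_
    have : ‖m.1 (τ x) - m'.1 (τ x)‖ ≤ dist m.1 m'.1 := by
      rw [← dist_eq_norm]
      exact BoundedContinuousFunction.dist_coe_le_dist _
    gcongr
  have : CompleteSpace S := hSc.completeSpace_coe
  have : Nonempty S := ⟨⟨0, fun x => by simp, fun x => by simpa using hr0, fun _ _ _ => rfl⟩⟩
  let m0 : S := hT.fixedPoint T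
  have hfix : T m0 = m0 := hT.fixedPoint_isFixedPt
  refine ⟨m0.1, m0.1.continuous, m0.2.1, m0.2.2.1, m0.2.2.2, fun x => ?_⟩
  have h1 : (T m0).1 x = m0.1 x := by rw [hfix]
  have h2 : (s (A (τ x) (e + m0.1 (τ x))))⁻¹ •
      (A (τ x) (e + m0.1 (τ x)) - s (A (τ x) (e + m0.1 (τ x))) • e) = m0.1 x := h1
  rw [← h2, smul_add, smul_smul, mul_inv_cancel₀ (hden m0.1 m0.2.1 m0.2.2.1 x), one_smul]
  abel

end Pool.Agent.Lib.MP_48de40_an
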