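import Pool.Agent.Lib.MP_48de40_an.Frame
import Pool.Agent.Lib.MP_48de40_an.InvLine

/-!
# Diagonal maps and the models of the invariant line fields
-/

open MeasureTheory Set Filter Topology
open scoped ContDiff

namespace Pool.Agent.Lib.MP_48de40_an

/-- The diagonal map with entries `d`. -/
noncomputable def diag (d : Fin 6 → ℝ) : E →L[ℝ] E := LinearMap.toContinuousLinearMap
  { toFun := fun v => WithLp.toLp 2 (fun i => d i * v i)
    map_add' := by
      intro v w
      ext i; simp only [PiLp.add_apply]; ring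
    map_smul' := by
      intro r v
      ext i; simp only [PiLp.smul_apply, smul_eq_mul, RingHom.id_apply]; ring }

@[simp] theorem diag_apply (d : Fin 6 → ℝ) (v : E) (i : Fin 6) : diag d v i = d i * v i := rfl

/-- The basis vector. -/
noncomputable def bv (j : Fin 6) : E := EuclideanSpace.single j 1

/-- The coordinate functional. -/
noncomputable def pj (j : Fin 6) : E →L[ℝ] ℝ := EuclideanSpace.proj j

@[simp] theorem pj_apply (j : Fin 6) (v : E) : pj j v = v j := rfl

theorem bv_apply (j i : Fin 6) : bv j i = if i = j then 1 else 0 := by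
  simp [bv]

theorem norm_bv (j : Fin 6) : ‖bv j‖ = 1 := by simp [bv]

theorem abs_coord_le (j : Fin 6) (v : E) : |v j| ≤ ‖v‖ := by
  rw [EuclideanSpace.norm_eq, ← Real.sqrt_sq_eq_abs]
  apply Real.sqrt_le_sqrt
  have : v j ^ 2 = ‖v j‖ ^ 2 := by rw [Real.norm_eq_abs, sq_abs]
  rw [this]
  exact Finset.single_le_sum (f := fun i => ‖v i‖ ^ 2) (fun i _ => by positivity)
    (Finset.mem_univ j)

theorem norm_pj_le (j : Fin 6) : ‖pj j‖ ≤ 1 := by
  refine ContinuousLinearMap.opNorm_le_bound _ zero_le_one fun v => ?_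
  rw [one_mul]
  exact abs_coord_le j v

theorem norm_le_of_coord {v w : E} {κ : ℝ} (hκ : 0 ≤ κ) (h : ∀ i, |w i| ≤ κ * |v i|) :
    ‖w‖ ≤ κ * ‖v‖ := by
  rw [EuclideanSpace.norm_eq, EuclideanSpace.norm_eq, ← Real.sqrt_sq hκ, ← Real.sqrt_mul
    (by positivity), Finset.mul_sum]
  apply Real.sqrt_le_sqrt
  apply Finset.sum_le_sum
  intro i _
  rw [Real.norm_eq_abs, Real.norm_eq_abs, ← mul_pow]
  have := h i
  gcongr

theorem norm_diag_le {d : Fin 6 → ℝ} {κ : ℝ} (hκ : 0 ≤ κ) {v : E}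
    (h : ∀ i, |d i| ≤ κ ∨ v i = 0) : ‖diag d v‖ ≤ κ * ‖v‖ := by
  refine norm_le_of_coord hκ fun i => ?_
  rw [diag_apply, abs_mul]
  rcases h i with h | h
  · gcongr
  · rw [h]; simp

theorem le_norm_diag {d : Fin 6 → ℝ} {κ : ℝ} (hκ : 0 < κ) {v : E}
    (h : ∀ i, κ ≤ |d i| ∨ v i = 0) : κ * ‖v‖ ≤ ‖diag d v‖ := by
  have : ‖v‖ ≤ κ⁻¹ * ‖diag d v‖ := by
    refine norm_le_of_coord (by positivity) fun i => ?_
    rw [diag_apply, abs_mul]
    rcases h i with h | h
    · rw [← mul_assoc]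
      have : 1 ≤ κ⁻¹ * |d i| := by
        rw [inv_mul_eq_div, one_le_div hκ]; exact h
      nlinarith [abs_nonneg (v i)]
    · rw [h]; simp
  rw [inv_mul_eq_div, le_div_iff₀ hκ] at this
  linarith

theorem model_vec {d : Fin 6 → ℝ} {μ κ : ℝ} {j : Fin 6} (hκ : 0 ≤ κ) (hκμ : κ < μ)
    (hj : d j = μ) (h : ∀ i, i ≠ j → |d i| ≤ κ) : Model (bv j) (pj j) (diag d) μ κ where
  he := (norm_bv j).le
  hs := norm_pj_le j
  hse := by simp [bv_apply]
  hκ := hκ
  hκμ := hκμ
  hLe := by
    ext i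
    rw [diag_apply, bv_apply, PiLp.smul_apply, bv_apply, smul_eq_mul]
    split_ifs with hi
    · rw [hi, hj]
    · simp
  hLs v := by rw [pj_apply, pj_apply, diag_apply, hj]
  hL v hv := by
    refine norm_diag_le hκ fun i => ?_
    rcases eq_or_ne i j with rfl | hi
    · right; exact hv
    · left; exact h i hi

/-- Precomposition with a linear map, acting on functionals. -/
noncomputable def pre : (E →L[ℝ] E) →L[ℝ] (E →L[ℝ] ℝ) →L[ℝ] (E →L[ℝ] ℝ) :=
  (ContinuousLinearMap.compL ℝ E E ℝ).flip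

@[simp] theorem pre_apply (A : E →L[ℝ] E) (w : E →L[ℝ] ℝ) : pre A w = w.comp A := rfl

theorem norm_pre_sub_le (A B : E →L[ℝ] E) : ‖pre A - pre B‖ ≤ ‖A - B‖ := by
  have : pre A - pre B = pre (A - B) := (map_sub pre A B).symm
  rw [this]
  refine ContinuousLinearMap.opNorm_le_bound _ (norm_nonneg _) fun w => ?_
  rw [pre_apply, mul_comm]
  exact ContinuousLinearMap.opNorm_comp_le _ _

theorem norm_sub_coord_le (j : Fin 6) (v : E) : ‖v - v j • bv j‖ ≤ ‖v‖ := by
  have := norm_le_of_coord (v := v) (w := v - v j • bv j) (κ := 1) zero_le_one fun i => by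
    rw [PiLp.sub_apply, PiLp.smul_apply, bv_apply, one_mul]
    split_ifs with hi
    · rw [hi]; simp
    · simp
  rwa [one_mul] at this

theorem model_dual {d : Fin 6 → ℝ} {μ κ : ℝ} {j : Fin 6} (hκ : 0 ≤ κ) (hκμ : κ < μ)
    (hj : d j = μ) (h : ∀ i, i ≠ j → |d i| ≤ κ) :
    Model (pj j) (ContinuousLinearMap.apply ℝ ℝ (bv j)) (pre (diag d)) μ κ where
  he := norm_pj_le j
  hs := by
    refine ContinuousLinearMap.opNorm_le_bound _ zero_le_one fun w => ?_
    rw [ContinuousLinearMap.apply_apply, one_mul]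
    have := w.le_opNorm (bv j)
    rwa [norm_bv, mul_one] at this
  hse := by simp [bv_apply]
  hκ := hκ
  hκμ := hκμ
  hLe := by
    ext v
    simp [hj]
  hLs w := by
    rw [ContinuousLinearMap.apply_apply, ContinuousLinearMap.apply_apply, pre_apply,
      ContinuousLinearMap.comp_apply, (model_vec hκ hκμ hj h).hLe, map_smul, smul_eq_mul]
  hL w hw := by
    rw [ContinuousLinearMap.apply_apply] at hw
    refine ContinuousLinearMap.opNorm_le_bound _ (by positivity) fun v => ?_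
    rw [pre_apply, ContinuousLinearMap.comp_apply]
    have h1 : w (diag d v) = w (diag d (v - v j • bv j)) := by
      rw [map_sub, map_smul, (model_vec hκ hκμ hj h).hLe, map_sub, map_smul, map_smul, hw]
      simp
    have h2 : ‖diag d (v - v j • bv j)‖ ≤ κ * ‖v‖ := by
      refine ((model_vec hκ hκμ hj h).hL _ ?_).trans ?_
      · rw [pj_apply, PiLp.sub_apply, PiLp.smul_apply, bv_apply]; simp
      · have := norm_sub_coord_le j v
        gcongr
    rw [h1]
    calc ‖w (diag d (v - v j • bv j))‖ ≤ ‖w‖ * ‖diag d (v - v j • bv j)‖ := w.le_opNorm _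
      _ ≤ ‖w‖ * (κ * ‖v‖) := by gcongr
      _ = κ * ‖w‖ * ‖v‖ := by ring

end Pool.Agent.Lib.MP_48de40_an
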