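import Pool.Agent.Lib.MP_48de40_an.LocalMap

/-!
# Equivariant extension of the local perturbation
-/

open MeasureTheory Set Filter Topology
open scoped ContDiff Pointwise

namespace Pool.Agent.Lib.MP_48de40_an

/-- The deck transformation bringing a point to the fundamental domain. -/
noncomputable def rep (x : V) : Gam := (existsUnique_smul_mem_D x).choose

theorem rep_mem (x : V) : rep x • x ∈ D := (existsUnique_smul_mem_D x).choose_spec.1

theorem rep_unique {g : Gam} {x : V} (h : g • x ∈ D) : rep x = g :=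
  ((existsUnique_smul_mem_D x).choose_spec.2 g h).symm

theorem rep_smul (g : Gam) (x : V) : rep (g • x) = rep x * g⁻¹ := by
  apply rep_unique
  rw [mul_smul, inv_smul_smul]
  exact rep_mem x

theorem rep_of_mem {x : V} (h : x ∈ D) : rep x = 1 := rep_unique (by rwa [one_smul])

/-- The equivariant extension of a map of the fundamental domain. -/
noncomputable def ext (H : V → V) (x : V) : V := (rep x)⁻¹ • H (rep x • x)

theorem ext_smul (H : V → V) (g : Gam) (x : V) : ext H (g • x) = g • ext H x := by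
  unfold ext
  rw [rep_smul, mul_smul, inv_smul_smul, mul_inv_rev, inv_inv, mul_smul]

theorem ext_of_mem (H : V → V) {x : V} (h : x ∈ D) : ext H x = H x := by
  unfold ext
  rw [rep_of_mem h]; simp

theorem rep_ext {H : V → V} (hH : ∀ x ∈ D, H x ∈ D) (x : V) : rep (ext H x) = rep x := by
  apply rep_unique
  unfold ext
  rw [smul_inv_smul]
  exact hH _ (rep_mem x)

theorem ext_ext {H H' : V → V} (hH : ∀ x ∈ D, H x ∈ D) (h : ∀ x, H' (H x) = x) (x : V) :
    ext H' (ext H x) = x := by
  have h1 := rep_ext hH x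
  unfold ext at h1 ⊢
  rw [h1, smul_inv_smul, h, inv_smul_smul]

theorem ext_local (x : V) : ∀ᶠ y in 𝓝 x, ∀ H : V → V, (∀ z, z ∉ K1 → H z = z) →
    ext H y = (rep x)⁻¹ • H (rep x • y) := by
  by_cases hx : rep x • x ∈ box
  · have h1 : ∀ᶠ y in 𝓝 x, rep x • y ∈ box :=
      (continuous_const_smul (rep x)).continuousAt.eventually_mem (isOpen_box.mem_nhds hx)
    filter_upwards [h1] with y hy H _
    have : rep y = rep x := rep_unique (box_subset_D hy)
    unfold ext
    rw [this]
  · have hnot : x ∈ (⋃ g : Gam, {x | g • x ∈ K1})ᶜ := by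
      rw [Set.mem_compl_iff, Set.mem_iUnion]
      rintro ⟨g, hg⟩
      have hg' : g • x ∈ K1 := hg
      have : rep x = g := rep_unique (box_subset_D (K1_subset_box hg'))
      rw [this] at hx
      exact hx (K1_subset_box hg')
    have h1 := (isClosed_orbit isCompact_K1).isOpen_compl.mem_nhds hnot
    filter_upwards [h1] with y hy H hH
    rw [Set.mem_compl_iff, Set.mem_iUnion, not_exists] at hy
    have hy' : ∀ g : Gam, g • y ∉ K1 := hy
    unfold ext
    rw [hH _ (hy' _), hH _ (hy' _), inv_smul_smul, inv_smul_smul]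

theorem contDiff_ext {n : WithTop ℕ∞} {H : ℝ → V → V}
    (hH : ContDiff ℝ n (fun q : ℝ × V => H q.1 q.2)) (hid : ∀ t z, z ∉ K1 → H t z = z) :
    ContDiff ℝ n (fun q : ℝ × V => ext (H q.1) q.2) := by
  rw [contDiff_iff_contDiffAt]
  rintro ⟨t, x⟩
  have h1 : (fun q : ℝ × V => ext (H q.1) q.2) =ᶠ[𝓝 (t, x)]
      fun q => (rep x)⁻¹ • H q.1 (rep x • q.2) := by
    have h2 := (continuous_snd (X := ℝ) (Y := V)).continuousAt (x := (t, x)).eventually
      (ext_local x)
    filter_upwards [h2] with q hq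
    exact hq _ (hid q.1)
  refine ContDiffAt.congr_of_eventuallyEq ?_ h1
  have h3 : ContDiff ℝ n (fun q : ℝ × V => rep x • q.2) := (contDiff_smul _).comp contDiff_snd
  have h4 : ContDiff ℝ n (fun q : ℝ × V => H q.1 (rep x • q.2)) :=
    hH.comp (contDiff_fst.prodMk h3)
  exact ((contDiff_smul _).comp h4).contDiffAt

theorem measurePreserving_ext {H H' : V → V} (hHc : Continuous (ext H))
    (hH : MeasurePreserving H volume volume)
    (hD : ∀ x ∈ D, H x ∈ D) (hD' : ∀ x ∈ D, H' x ∈ D) (h1 : ∀ x, H' (H x) = x) :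
    MeasurePreserving (ext H) volume volume := by
  refine ⟨hHc.measurable, ?_⟩
  ext A hA
  rw [Measure.map_apply hHc.measurable hA, isFundamentalDomain_D.measure_eq_tsum,
    isFundamentalDomain_D.measure_eq_tsum A]
  congr 1
  funext g
  have hpre : H ⁻¹' (g • A ∩ D) = g • (ext H ⁻¹' A) ∩ D := by
    ext x
    simp only [Set.mem_preimage, Set.mem_inter_iff, Set.mem_smul_set_iff_inv_smul_mem]
    constructor
    · rintro ⟨a1, a2⟩
      have hx : x ∈ D := by
        have := hD' _ a2
        rwa [h1] at this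
      refine ⟨?_, hx⟩
      rw [ext_smul, ext_of_mem H hx]
      exact a1
    · rintro ⟨a1, a2⟩
      rw [ext_smul, ext_of_mem H a2] at a1
      exact ⟨a1, hD _ a2⟩
  rw [← hpre]
  refine hH.measure_preimage ?_
  have : MeasurableSet (g • A) := hA.const_smul g
  exact (this.inter measurableSet_D).nullMeasurableSet

/-- The perturbing family on the manifold. -/
noncomputable def hh (t : ℝ) : V → V := ext (HH t)

theorem contDiff_hh {n : ℕ∞} : ContDiff ℝ n (fun q : ℝ × V => hh q.1 q.2) :=
  contDiff_ext contDiff_HH fun t _ hz => HH_id hz t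

theorem slice_contDiff {n : WithTop ℕ∞} {F : ℝ → V → V}
    (hF : ContDiff ℝ n (fun q : ℝ × V => F q.1 q.2)) (t : ℝ) : ContDiff ℝ n (F t) :=
  hF.comp (by fun_prop : ContDiff ℝ n fun x : V => (t, x))

theorem volDiffeo_hh (t : ℝ) : VolDiffeo ∞ (hh t) where
  smooth := slice_contDiff contDiff_hh t
  inverse := ⟨ext (HI t), slice_contDiff (F := fun t => ext (HI t))
    (contDiff_ext contDiff_HI fun t _ hz => HI_id hz t) t,
    ext_ext (fun _ hx => HH_mem_D hx t) (HI_HH t),
    ext_ext (fun _ hx => HI_mem_D hx t) (HH_HI t)⟩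
  lift := ⟨MulEquiv.refl _, fun g x => ext_smul _ g x⟩
  volume_preserving := measurePreserving_ext (slice_contDiff (contDiff_hh (n := 0)) t).continuous
    (measurePreserving_HH t) (fun _ hx => HH_mem_D hx t) (fun _ hx => HI_mem_D hx t) (HI_HH t)

theorem coc_hh (t : ℝ) (x : V) : coc (hh t) x = coc (HH t) (rep x • x) := by
  have h1 : hh t =ᶠ[𝓝 x] fun y => (rep x)⁻¹ • HH t (rep x • y) := by
    filter_upwards [ext_local x] with y hy
    exact hy _ fun _ hz => HH_id hz t
  have hd : Differentiable ℝ (HH t) :=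
    (slice_contDiff (contDiff_HH (n := 1)) t).differentiable (by norm_num)
  rw [coc_congr h1, coc_smul_comp (F := fun y => HH t (rep x • y)), coc_comp_smul _ (hd _)]
  exact (hd _).comp x (hasFDerivAt_smul _ x).differentiableAt

theorem VolDiffeo.comp {n : WithTop ℕ∞} {F G : V → V} (hF : VolDiffeo n F) (hG : VolDiffeo n G) :
    VolDiffeo n (fun x => F (G x)) := by
  obtain ⟨F', hF', f1, f2⟩ := hF.inverse
  obtain ⟨G', hG', g1, g2⟩ := hG.inverse
  obtain ⟨α, hα⟩ := hF.lift
  obtain ⟨β, hβ⟩ := hG.lift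
  refine ⟨hF.smooth.comp hG.smooth, ⟨fun x => G' (F' x), hG'.comp hF', fun x => ?_, fun x => ?_⟩,
    ⟨β.trans α, fun g x => ?_⟩, hF.volume_preserving.comp hG.volume_preserving⟩
  · simp only [f1 _, g1 _]
  · simp only [g2 _, f2 _]
  · simp only [hβ, hα, MulEquiv.trans_apply]

end Pool.Agent.Lib.MP_48de40_an
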