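import Pool.Agent.Lib.MP_48de40_an.Integral

/-!
# Smooth families of lifts: uniform bounds
-/

open MeasureTheory Set Filter Topology
open scoped ContDiff

namespace Pool.Agent.Lib.MP_48de40_an

theorem lip_in_t {W : Type*} [NormedAddCommGroup W] [NormedSpace ℝ W] {Φ : ℝ × V → W}
    (hΦ : ContDiff ℝ 1 Φ) : ∃ C ≥ 0, ∀ t : ℝ, |t| ≤ 1 → ∀ x ∈ K0,
      ‖Φ (t, x) - Φ (0, x)‖ ≤ C * |t| := by
  have hc : Continuous (fun q => fderiv ℝ Φ q) := hΦ.continuous_fderiv (by norm_num)
  obtain ⟨C, hC⟩ := (isCompact_closedBall (0 : ℝ × V) 3).exists_bound_of_continuousOn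
    hc.continuousOn
  have hC0 : 0 ≤ C := (norm_nonneg _).trans (hC 0 (by simp))
  refine ⟨C, hC0, fun t ht x hx => ?_⟩
  have hx' : ‖x‖ ≤ 3 := by simpa [K0] using hx
  have h1 : ((0 : ℝ), x) ∈ Metric.closedBall (0 : ℝ × V) 3 := by
    rw [mem_closedBall_zero_iff, Prod.norm_def]
    simpa using hx'
  have h2 : (t, x) ∈ Metric.closedBall (0 : ℝ × V) 3 := by
    rw [mem_closedBall_zero_iff, Prod.norm_def]
    exact max_le (by rw [Real.norm_eq_abs]; linarith) hx'
  have h3 := (convex_closedBall (0 : ℝ × V) 3).norm_image_sub_le_of_norm_fderiv_le (𝕜 := ℝ)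
    (f := Φ) (C := C) (fun q _ => hΦ.differentiable (by norm_num) q) hC h1 h2
  have h4 : ‖(t, x) - ((0 : ℝ), x)‖ = |t| := by
    simp [Prod.norm_def]
  rwa [h4] at h3

theorem exists_mem_K0 (x : V) : ∃ g : Gam, g • x ∈ K0 := by
  obtain ⟨g, hg, _⟩ := existsUnique_smul_mem_D x
  exact ⟨g, D_subset_K0 hg⟩

theorem contDiff_coc_family {F : ℝ → V → V} {n k : WithTop ℕ∞}
    (hF : ContDiff ℝ k (fun q : ℝ × V => F q.1 q.2)) (hk : n + 1 ≤ k) :
    ContDiff ℝ n (fun q : ℝ × V => coc (F q.1) q.2) := by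
  unfold coc
  have h0 : ContDiff ℝ n (fun q : ℝ × V => F q.1 q.2) :=
    hF.of_le (le_trans (by exact le_self_add) hk)
  have h1 : ContDiff ℝ n (fun q : ℝ × V => cf (F q.1 q.2)) := contDiff_cf.comp h0
  have h2 : ContDiff ℝ n (fun q : ℝ × V => fderiv ℝ (F q.1) q.2) := by
    refine ContDiff.fderiv (f := fun (q : ℝ × V) => F q.1) (g := fun q : ℝ × V => q.2)
      (m := k) ?_ contDiff_snd hk
    exact hF.comp ((contDiff_fst.comp contDiff_fst).prodMk contDiff_snd)
  exact h1.clm_comp (h2.clm_comp (contDiff_fr.comp contDiff_snd))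

/-- The cocycles of a family are uniformly close to the one at time `0`. -/
theorem coc_family_bound {F : ℝ → V → V} (hF : ContDiff ℝ 2 (fun q : ℝ × V => F q.1 q.2))
    (hV : ∀ t, VolDiffeo 1 (F t)) :
    ∃ C ≥ 0, ∀ t : ℝ, |t| ≤ 1 → ∀ x, ‖coc (F t) x - coc (F 0) x‖ ≤ C * |t| := by
  obtain ⟨C, hC0, hC⟩ := lip_in_t (contDiff_coc_family (n := 1) hF (by norm_num))
  refine ⟨C, hC0, fun t ht x => ?_⟩
  obtain ⟨g, hg⟩ := exists_mem_K0 x
  obtain ⟨α, hα⟩ := (hV t).lift
  obtain ⟨α0, hα0⟩ := (hV 0).lift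
  have h1 := hC t ht _ hg
  simp only at h1
  rwa [coc_deck ((hV t).smooth.differentiable (by norm_num)) hα,
    coc_deck ((hV 0).smooth.differentiable (by norm_num)) hα0] at h1

theorem int_const {h : ℝ → ℤ} (hc : Continuous (fun t => (h t : ℝ))) (t : ℝ) : h t = h 0 := by
  have h1 : Continuous h := Int.isClosedEmbedding_coe_real.isInducing.continuous_iff.2 hc
  exact PreconnectedSpace.constant inferInstance h1

/-- Along a family the induced automorphism of the deck group is constant. -/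
theorem lift_const {F : ℝ → V → V} (hF : Continuous (fun q : ℝ × V => F q.1 q.2))
    {α : ℝ → Gam → Gam} (hα : ∀ (t : ℝ) (g : Gam) (x : V), F t (g • x) = α t g • F t x)
    (t : ℝ) (g : Gam) : α t g = α 0 g := by
  have hp : Continuous (fun t => F t (g • 0)) := hF.comp (by fun_prop : Continuous
    fun t : ℝ => (t, g • (0 : V)))
  have hq : Continuous (fun t => F t 0) := hF.comp (by fun_prop : Continuous
    fun t : ℝ => (t, (0 : V)))
  have a1 : Continuous (fun t => s1 (α t g).a) := by
    have : (fun t => s1 (α t g).a) = fun t => (F t (g • 0)).1.1 - (F t 0).1.1 := by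
      funext t; rw [hα]; simp [smul_def, hm, emb]
    rw [this]; fun_prop
  have a2 : Continuous (fun t => s2 (α t g).a) := by
    have : (fun t => s2 (α t g).a) = fun t => (F t (g • 0)).2.1 - (F t 0).2.1 := by
      funext t; rw [hα]; simp [smul_def, hm, emb]
    rw [this]; fun_prop
  have b1 : Continuous (fun t => s1 (α t g).b) := by
    have : (fun t => s1 (α t g).b) = fun t => (F t (g • 0)).1.2.1 - (F t 0).1.2.1 := by
      funext t; rw [hα]; simp [smul_def, hm, emb]
    rw [this]; fun_prop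
  have b2 : Continuous (fun t => s2 (α t g).b) := by
    have : (fun t => s2 (α t g).b) = fun t => (F t (g • 0)).2.2.1 - (F t 0).2.2.1 := by
      funext t; rw [hα]; simp [smul_def, hm, emb]
    rw [this]; fun_prop
  have c1 : Continuous (fun t => s1 (α t g).c) := by
    have : (fun t => s1 (α t g).c) = fun t => (F t (g • 0)).1.2.2 - (F t 0).1.2.2 -
        s1 (α t g).a * (F t 0).1.2.1 + s1 (α t g).b * (F t 0).1.1 := by
      funext t; rw [hα]; simp [smul_def, hm, emb]; ring
    rw [this]; fun_prop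
  have c2 : Continuous (fun t => s2 (α t g).c) := by
    have : (fun t => s2 (α t g).c) = fun t => (F t (g • 0)).2.2.2 - (F t 0).2.2.2 -
        s2 (α t g).a * (F t 0).2.2.1 + s2 (α t g).b * (F t 0).2.1 := by
      funext t; rw [hα]; simp [smul_def, hm, emb]; ring
    rw [this]; fun_prop
  have key : ∀ u : ℝ → ℤ√2, Continuous (fun t => s1 (u t)) → Continuous (fun t => s2 (u t)) →
      u t = u 0 := by
    intro u h1 h2
    ext
    · refine int_const (h := fun t => (u t).re) ?_ t
      have : (fun t => ((u t).re : ℝ)) = fun t => (s1 (u t) + s2 (u t)) / 2 := by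
        funext t; simp [s1, s2]
      rw [this]; fun_prop
    · refine int_const (h := fun t => (u t).im) ?_ t
      have : (fun t => ((u t).im : ℝ)) = fun t => (s1 (u t) - s2 (u t)) / (2 * √2) := by
        funext t
        have : √(2:ℝ) ≠ 0 := by positivity
        simp only [s1, s2]
        field_simp
        ring
      rw [this]; fun_prop
  ext1
  · exact key (fun t => (α t g).a) a1 a2
  · exact key (fun t => (α t g).b) b1 b2
  · exact key (fun t => (α t g).c) c1 c2

/-- The model automorphism with expansion `l`. -/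
noncomputable def mf (l : ℝ) (x : V) : V :=
  ((l * x.1.1, l * x.1.2.1, l ^ 2 * x.1.2.2), (l⁻¹ * x.2.1, l⁻¹ * x.2.2.1, (l ^ 2)⁻¹ * x.2.2.2))

/-- The model automorphism as a linear map. -/
noncomputable def mfL (l : ℝ) : V →L[ℝ] V := LinearMap.toContinuousLinearMap
  { toFun := mf l
    map_add' := by
      intro v w
      ext <;> simp only [mf, Prod.fst_add, Prod.snd_add] <;> ring
    map_smul' := by
      intro r v
      ext <;> simp only [mf, Prod.smul_fst, Prod.smul_snd, smul_eq_mul,
        RingHom.id_apply] <;> ring }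

theorem mfL_apply (l : ℝ) (x : V) : mfL l x = mf l x := rfl

theorem hasFDerivAt_mf (l : ℝ) (x : V) : HasFDerivAt (mf l) (mfL l) x := (mfL l).hasFDerivAt

theorem contDiff_mf (l : ℝ) {n : WithTop ℕ∞} : ContDiff ℝ n (mf l) := (mfL l).contDiff

theorem coc_mf {l : ℝ} (hl : l ≠ 0) (x : V) : coc (mf l) x = diag (dl l) := by
  ext1 v
  simp only [coc, ContinuousLinearMap.comp_apply, (hasFDerivAt_mf l x).fderiv, mfL_apply]
  rw [fr_apply, cf_apply]
  ext i; fin_cases i <;> simp [mf, diag_apply, dl] <;> field_simp <;> ring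

end Pool.Agent.Lib.MP_48de40_an
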