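import Pool.Agent.Lib.MP_48de40_an.Main

/-!
# The perturbation increases the unstable exponent
-/

open MeasureTheory Set Filter Topology
open scoped ContDiff

namespace Pool.Agent.Lib.MP_48de40_an

attribute [local irreducible] hh TT SS

/-- The perturbed family. -/
noncomputable def FF (k : ℕ) (t : ℝ) (x : V) : V := hh t (mf (lam k) x)

theorem contDiff_FF (k : ℕ) : ContDiff ℝ ∞ (fun q : ℝ × V => FF k q.1 q.2) := by
  have h1 : ContDiff ℝ ∞ (fun q : ℝ × V => hh q.1 q.2) := contDiff_hh
  have h2 : ContDiff ℝ ∞ (fun q : ℝ × V => (q.1, mf (lam k) q.2)) :=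
    contDiff_fst.prodMk ((contDiff_mf _).comp contDiff_snd)
  exact h1.comp h2

theorem volDiffeo_FF (k : ℕ) (t : ℝ) : VolDiffeo ∞ (FF k t) :=
  (volDiffeo_hh t).comp (volDiffeo_mf k)

theorem FF_zero (k : ℕ) : FF k 0 = mf (lam k) := by
  funext x
  unfold FF
  rw [hh_zero]; rfl

theorem norm_diag_dl {l : ℝ} (hl : 1 < l) : ‖diag (dl l)‖ ≤ l ^ 2 := by
  refine ContinuousLinearMap.opNorm_le_bound _ (by positivity) fun v => ?_
  refine norm_diag_le (by positivity) fun i => Or.inl ?_
  rcases eq_or_ne i 2 with rfl | hi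
  · rw [dl_two, abs_of_nonneg (by positivity)]
  · exact (dl_le hl i hi).trans (by nlinarith)

theorem coc_FF {k : ℕ} (hk : k ≠ 0) (t : ℝ) (x : V) :
    coc (FF k t) x = (coc (hh t) (mf (lam k) x)).comp (diag (dl (lam k))) := by
  have hl := one_lt_lam hk
  have h1 : FF k t = hh t ∘ mf (lam k) := rfl
  rw [h1, coc_comp ((volDiffeo_hh t).smooth.differentiable (by simp) _)
    ((contDiff_mf (lam k) (n := 1)).differentiable (by norm_num) _), coc_mf (by positivity)]

/-- For a strong enough model automorphism the perturbation increases the unstable exponent. -/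
theorem exists_gain : ∃ k : ℕ, k ≠ 0 ∧ ∀ η > 0, ∃ δ > 0, ∀ t : ℝ, |t| ≤ δ → t ≠ 0 →
    ∃ Q : Splitting, IsPH 0 (FF k t) Q ∧ Near η Q P0 ∧
      lamU (mf (lam k)) P0 < lamU (FF k t) Q := by
  obtain ⟨κ, hκ, δ1, hδ1, hgain⟩ := gain
  obtain ⟨C, hC, hcoc⟩ := coc_family_bound (F := hh) contDiff_hh
    (fun t => (volDiffeo_hh t).of_le (by simp))
  obtain ⟨k, hk⟩ := exists_nat_gt (32 * C ^ 2 / κ + 2)
  have hk0 : k ≠ 0 := by
    rintro rfl
    have : 0 ≤ 32 * C ^ 2 / κ := by positivity
    push_cast at hk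
    linarith
  refine ⟨k, hk0, fun η hη => ?_⟩
  have hl := one_lt_lam hk0
  have hkl := le_lam k
  set l := lam k with hldef
  have hl2 : 2 ≤ l := by
    have : 0 ≤ 32 * C ^ 2 / κ := by positivity
    linarith
  have hlκ : 32 * C ^ 2 < κ * l := by
    have h1 : 32 * C ^ 2 / κ < l := by linarith
    rw [div_lt_iff₀ hκ] at h1
    linarith
  have hl0 : 0 < l := by linarith
  have hδ0 : 0 < l ^ 2 - l := by nlinarith
  obtain ⟨ε0, hε0, C', hC', hp⟩ := persist hl
  -- the threshold
  refine ⟨min δ1 (min 1 (min (ε0 / (C * l ^ 2 + 1)) (min (η / (C' * (C * l ^ 2) + 1))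
    (1 / (16 * (C + 1) ^ 2))))), lt_min hδ1 (lt_min one_pos (lt_min (by positivity)
      (lt_min (by positivity) (by positivity)))), fun t ht ht0 => ?_⟩
  rw [le_min_iff, le_min_iff, le_min_iff, le_min_iff, le_div_iff₀ (by positivity),
    le_div_iff₀ (by positivity), le_div_iff₀ (by positivity)] at ht
  obtain ⟨t1, t2, t3, t4, t5⟩ := ht
  have htp : 0 < |t| := abs_pos.2 ht0
  have hhid : ∀ x, ‖coc (hh t) x - ContinuousLinearMap.id ℝ E‖ ≤ C * |t| := by
    intro x
    have := hcoc t t2 x
    rwa [hh_zero, coc_id] at this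
  have hAL : ∀ x, ‖coc (FF k t) x - diag (dl l)‖ ≤ C * |t| * l ^ 2 := by
    intro x
    rw [coc_FF hk0]
    have e : (coc (hh t) (mf (lam k) x)).comp (diag (dl (lam k))) - diag (dl l) =
        (coc (hh t) (mf (lam k) x) - ContinuousLinearMap.id ℝ E).comp (diag (dl l)) := by
      rw [ContinuousLinearMap.sub_comp, ContinuousLinearMap.id_comp]
    rw [e]
    refine (ContinuousLinearMap.opNorm_comp_le _ _).trans ?_
    exact mul_le_mul (hhid _) (norm_diag_dl hl) (norm_nonneg _) (by positivity)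
  have hV : VolDiffeo 1 (FF k t) := (volDiffeo_FF k t).of_le (by simp)
  obtain ⟨P, m, c, hPH, hN, m1, m2, m3, m4, m5, m6⟩ := hp (FF k t) hV (C * |t| * l ^ 2)
    (by nlinarith) hAL
  refine ⟨P, hPH, hN.mono ?_, ?_⟩
  · nlinarith
  -- the bound on the section
  have hm : ∀ x, ‖m x‖ ≤ 16 * C * |t| := by
    intro x
    refine (m3 x).trans ?_
    rw [div_le_iff₀ hδ0]
    have : l ^ 2 ≤ 2 * (l ^ 2 - l) := by nlinarith
    have h0 : 0 ≤ C * |t| := by positivity
    nlinarith
  have hcx : ∀ x, c x = coc (FF k t) x (bv 2 + m x) 2 := by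
    intro x
    rw [m5 x, PiLp.smul_apply, PiLp.add_apply, m2, bv_apply]; simp
  obtain ⟨q, hq⟩ : ∃ q : V → ℝ, ∀ x, q x = coc (hh t) x (bv 2) 2 := ⟨_, fun _ => rfl⟩
  have hq34 : ∀ x, 3 / 4 ≤ q x := by
    intro x
    have h1 : q x - 1 = pj 2 ((coc (hh t) x - ContinuousLinearMap.id ℝ E) (bv 2)) := by
      rw [pj_apply, _root_.sub_apply, PiLp.sub_apply, ContinuousLinearMap.id_apply, hq, bv_apply]
      simp
    have h2 : |q x - 1| ≤ C * |t| := by
      rw [h1]
      have h3 := abs_coord_le 2 ((coc (hh t) x - ContinuousLinearMap.id ℝ E) (bv 2))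
      have h4 := (coc (hh t) x - ContinuousLinearMap.id ℝ E).le_of_opNorm_le (hhid x) (bv 2)
      rw [norm_bv, mul_one] at h4
      exact h3.trans h4
    have h5 : C * |t| ≤ 1 / 4 := by nlinarith
    rw [abs_le] at h2
    linarith
  set e := 16 * C ^ 2 * t ^ 2 / l with he
  have he0 : 0 ≤ e := by positivity
  have tt : |t| * |t| = t ^ 2 := by rw [← abs_mul, ← sq, abs_of_nonneg (sq_nonneg t)]
  have he1 : e ≤ 1 / 4 := by
    rw [he, div_le_iff₀ hl0]
    have h1 : |t| * |t| ≤ |t| * 1 := by gcongr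
    have h2 : C ^ 2 ≤ (C + 1) ^ 2 := by nlinarith
    have h3 : C ^ 2 * |t| ≤ (C + 1) ^ 2 * |t| := by gcongr
    rw [← tt]
    nlinarith
  have hcge : ∀ x, l ^ 2 * (q (mf l x) - e) ≤ c x := by
    intro x
    have hLm : diag (dl l) (bv 2 + m x) = (l ^ 2) • bv 2 + diag (dl l) (m x) := by
      rw [map_add, diag_bv, dl_two]
    have hLm2 : (diag (dl l) (m x)) 2 = 0 := by rw [diag_apply, m2, mul_zero]
    have h1 : c x = l ^ 2 * q (mf l x) +
        pj 2 ((coc (hh t) (mf l x) - ContinuousLinearMap.id ℝ E) (diag (dl l) (m x))) := by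
      rw [hcx, coc_FF hk0, ContinuousLinearMap.comp_apply, hLm, map_add, map_smul,
        PiLp.add_apply, PiLp.smul_apply, smul_eq_mul, hq, pj_apply, _root_.sub_apply,
        PiLp.sub_apply, ContinuousLinearMap.id_apply, hLm2]
      ring
    have h2 : |pj 2 ((coc (hh t) (mf l x) - ContinuousLinearMap.id ℝ E) (diag (dl l) (m x)))| ≤
        l ^ 2 * e := by
      have M1 := model_vec (d := dl l) (j := 2) (μ := l ^ 2) (κ := l) (by linarith) (by nlinarith)
        (dl_two l) (dl_le hl)
      have h3 := abs_coord_le 2 ((coc (hh t) (mf l x) - ContinuousLinearMap.id ℝ E)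
        (diag (dl l) (m x)))
      have h4 := (coc (hh t) (mf l x) - ContinuousLinearMap.id ℝ E).le_of_opNorm_le (hhid (mf l x))
        (diag (dl l) (m x))
      have h5 := M1.hL (m x) (m2 x)
      calc _ ≤ C * |t| * ‖diag (dl l) (m x)‖ := h3.trans h4
        _ ≤ C * |t| * (l * (16 * C * |t|)) := by
          have := hm x
          gcongr
          exact h5.trans (by gcongr)
        _ = 16 * C ^ 2 * l * (|t| * |t|) := by ring
        _ = l ^ 2 * e := by rw [tt, he]; field_simp
    rw [abs_le] at h2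
    rw [h1]
    linarith [h2.1]
  have hcpos : ∀ x, 0 < c x := by
    intro x
    have h1 := hcge x
    have h2 := hq34 (mf l x)
    have h3 : 0 < l ^ 2 * (q (mf l x) - e) := by
      have : 0 < q (mf l x) - e := by linarith
      positivity
    linarith
  have hlam : lamU (FF k t) P = ⨍ x in D, Real.log |c x| := by
    refine lamU_eq hV (v := fun x => bv 2 + m x) (continuous_const.add m1) ?_ ?_ m5
      (fun x => (hcpos x).ne') m6
    · intro x; rw [PiLp.add_apply, m2, bv_apply]; simp
    · intro g x; simp only [m4]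
  have hlog : ∀ x ∈ D, 2 * Real.log l - 2 * e + Real.log (q (mf l x)) ≤ Real.log |c x| := by
    intro x _
    have h1 := hcge x
    have h2 := hq34 (mf l x)
    have h3 : 0 < q (mf l x) - e := by linarith
    have h4 := log_sub_ge h2 he0 he1
    rw [abs_of_pos (hcpos x)]
    have h5 : Real.log (l ^ 2 * (q (mf l x) - e)) ≤ Real.log (c x) :=
      Real.log_le_log (by positivity) h1
    rw [Real.log_mul (by positivity) h3.ne', Real.log_pow] at h5
    push_cast at h5
    linarith
  have hqc : Continuous q := by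
    have : q = fun x => pj 2 (coc (hh t) x (bv 2)) := funext hq
    rw [this]
    exact (pj 2).continuous.comp ((continuous_coc ((volDiffeo_hh t).smooth.of_le
      (by simp))).clm_apply continuous_const)
  have hlogq : Continuous (fun x => Real.log (q x)) :=
    hqc.log fun x => by have := hq34 x; linarith
  have hqg : ∀ (g : Gam) (x : V), q (g • x) = q x := by
    intro g x
    obtain ⟨α, hα⟩ := (volDiffeo_hh t).lift
    rw [hq, hq, coc_deck ((volDiffeo_hh t).smooth.differentiable (by simp)) hα]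
  have hint1 : ∫ x in D, Real.log (q (mf l x)) = ∫ x in D, Real.log (q x) :=
    setIntegral_comp (φ := fun x => Real.log (q x)) (volDiffeo_mf k) fun g x => by
      simp only [hqg]
  have hcc : Continuous c := by
    have : c = fun x => pj 2 (coc (FF k t) x (bv 2 + m x)) := funext hcx
    rw [this]
    exact (pj 2).continuous.comp ((continuous_coc hV.smooth).clm_apply (continuous_const.add m1))
  have hlogc : Continuous (fun x => Real.log |c x|) :=
    hcc.abs.log fun x => abs_ne_zero.2 (hcpos x).ne'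
  have i1 : IntegrableOn (fun _ : V => 2 * Real.log l - 2 * e) D volume :=
    integrableOn_D continuous_const
  have i2 : IntegrableOn (fun x => Real.log (q (mf l x))) D volume :=
    integrableOn_D (hlogq.comp (contDiff_mf l (n := 0)).continuous)
  have i3 : IntegrableOn (fun x => Real.log |c x|) D volume := integrableOn_D hlogc
  have i12 : IntegrableOn (fun x => 2 * Real.log l - 2 * e + Real.log (q (mf l x))) D volume :=
    i1.add i2
  have h1 := setIntegral_mono_on i12 i3 measurableSet_D hlog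
  rw [integral_add i1 i2, setIntegral_const, hint1, smul_eq_mul] at h1
  have h2 := hgain t t1
  have h3 : ⨍ x in D, Real.log (coc (hh t) x (bv 2) 2) = ⨍ x in D, Real.log (q x) := by
    simp only [hq]
  have hvol := volume_real_D_pos
  rw [h3, setAverage_eq, smul_eq_mul, ← div_eq_inv_mul, le_div_iff₀ hvol] at h2
  rw [lamU_mf k hk0, hlam, setAverage_eq, smul_eq_mul, ← div_eq_inv_mul, lt_div_iff₀ hvol,
    ← hldef]
  have t2pos : 0 < t ^ 2 := by positivity
  have h4 : 2 * e < κ * t ^ 2 := by
    rw [he, mul_div_assoc', div_lt_iff₀ hl0]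
    nlinarith
  nlinarith

end Pool.Agent.Lib.MP_48de40_an
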