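import Pool.Agent.Lib.MP_48de40_an.Lattice

/-!
# The frame cocycle
-/

open MeasureTheory Set Filter Topology
open scoped ContDiff

namespace Pool.Agent.Lib.MP_48de40_an

theorem fr_apply (x : V) (v : E) : fr x v = ((v 0, v 1, v 2 - x.1.2.1 * v 0 + x.1.1 * v 1),
      (v 3, v 4, v 5 - x.2.2.1 * v 3 + x.2.1 * v 4)) := rfl

theorem cf_apply (x w : V) : cf x w = !₂[w.1.1, w.1.2.1,
      w.1.2.2 + x.1.2.1 * w.1.1 - x.1.1 * w.1.2.1,
      w.2.1, w.2.2.1, w.2.2.2 + x.2.2.1 * w.2.1 - x.2.1 * w.2.2.1] := rfl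

@[simp] theorem fr_cf (x w : V) : fr x (cf x w) = w := by
  rw [fr_apply, cf_apply]
  ext <;> simp <;> ring

@[simp] theorem cf_fr (x : V) (v : E) : cf x (fr x v) = v := by
  rw [cf_apply, fr_apply]
  ext i; fin_cases i <;> simp <;> ring

theorem contDiff_fr {n : WithTop ℕ∞} : ContDiff ℝ n fr := by
  rw [contDiff_clm_apply_iff]
  intro v
  simp only [fr_apply]
  fun_prop

theorem contDiff_cf {n : WithTop ℕ∞} : ContDiff ℝ n cf := by
  rw [contDiff_clm_apply_iff]
  intro w
  rw [contDiff_euclidean]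
  intro i
  simp only [cf_apply]
  fin_cases i <;> simp <;> fun_prop

theorem coc_comp {F G : V → V} {x : V} (hF : DifferentiableAt ℝ F (G x))
    (hG : DifferentiableAt ℝ G x) : coc (F ∘ G) x = (coc F (G x)).comp (coc G x) := by
  ext1 v
  simp only [coc, ContinuousLinearMap.comp_apply, Function.comp, fr_cf]
  have : fderiv ℝ (F ∘ G) x = (fderiv ℝ F (G x)).comp (fderiv ℝ G x) :=
    fderiv_comp x hF hG
  rw [this]
  rfl

/-- The derivative of a left translation. -/
noncomputable def dsm (g : Gam) : V →L[ℝ] V := LinearMap.toContinuousLinearMap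
  { toFun := fun v => ((v.1.1, v.1.2.1, v.1.2.2 + s1 g.a * v.1.2.1 - s1 g.b * v.1.1),
      (v.2.1, v.2.2.1, v.2.2.2 + s2 g.a * v.2.2.1 - s2 g.b * v.2.1))
    map_add' := by
      intro v w
      ext <;> simp only [Prod.fst_add, Prod.snd_add] <;> ring
    map_smul' := by
      intro r v
      ext <;> simp only [Prod.smul_fst, Prod.smul_snd, smul_eq_mul,
        RingHom.id_apply] <;> ring }

theorem dsm_apply (g : Gam) (v : V) : dsm g v =
    ((v.1.1, v.1.2.1, v.1.2.2 + s1 g.a * v.1.2.1 - s1 g.b * v.1.1),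
      (v.2.1, v.2.2.1, v.2.2.2 + s2 g.a * v.2.2.1 - s2 g.b * v.2.1)) := rfl

theorem hasFDerivAt_smul (g : Gam) (x : V) : HasFDerivAt (fun y : V => g • y) (dsm g) x := by
  have : (fun y : V => g • y) = fun y => dsm g y + emb g := by
    funext y
    rw [dsm_apply, smul_def]
    ext <;> simp only [hm, emb, Prod.fst_add, Prod.snd_add] <;> ring
  rw [this]
  exact (dsm g).hasFDerivAt.add_const _

theorem coc_smul (g : Gam) (x : V) : coc (fun y => g • y) x = ContinuousLinearMap.id ℝ E := by
  ext1 v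
  simp only [coc, ContinuousLinearMap.comp_apply, (hasFDerivAt_smul g x).fderiv]
  rw [dsm_apply, fr_apply, cf_apply, smul_def]
  ext i; fin_cases i <;> simp [hm, emb] <;> ring

theorem coc_congr {F G : V → V} {x : V} (h : F =ᶠ[𝓝 x] G) : coc F x = coc G x := by
  unfold coc
  rw [h.fderiv_eq, h.self_of_nhds]

theorem coc_smul_comp {F : V → V} {x : V} (g : Gam) (hF : DifferentiableAt ℝ F x) :
    coc (fun y => g • F y) x = coc F x := by
  have := coc_comp (F := fun y => g • y) (G := F) (x := x)
    (hasFDerivAt_smul g (F x)).differentiableAt hF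
  rw [coc_smul, ContinuousLinearMap.id_comp] at this
  exact this

theorem coc_comp_smul {F : V → V} {x : V} (g : Gam) (hF : DifferentiableAt ℝ F (g • x)) :
    coc (fun y => F (g • y)) x = coc F (g • x) := by
  have := coc_comp (F := F) (G := fun y => g • y) (x := x)
    hF (hasFDerivAt_smul g x).differentiableAt
  rw [coc_smul, ContinuousLinearMap.comp_id] at this
  exact this

/-- The cocycle of a lift is invariant under the deck group. -/
theorem coc_deck {F : V → V} (hF : Differentiable ℝ F) {α : Gam → Gam}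
    (h : ∀ (g : Gam) (x : V), F (g • x) = α g • F x) (g : Gam) (x : V) :
    coc F (g • x) = coc F x := by
  rw [← coc_comp_smul g (hF _)]
  have : (fun y => F (g • y)) = fun y => α g • F y := by
    funext y; exact h g y
  rw [this, coc_smul_comp _ (hF _)]

end Pool.Agent.Lib.MP_48de40_an
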