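import Pool.Agent.Lib.MP_48de40_an.ModelMap

/-!
# The second-order gain: expansion of the centre direction
-/

open MeasureTheory Set Filter Topology
open scoped ContDiff

namespace Pool.Agent.Lib.MP_48de40_an

/-- The derivative of the profile. -/
noncomputable def fp (s : ℝ) : ℝ := deriv Ff s

theorem continuous_fp : Continuous fp :=
  (contDiff_Ff (n := 1)).continuous_deriv (by norm_num)

theorem hasDerivAt_Ff (s : ℝ) : HasDerivAt Ff (fp s) s :=
  ((contDiff_Ff (n := 1)).differentiable (by norm_num) s).hasDerivAt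

theorem fp_zero {s : ℝ} (h : 1 / 256 < s) : fp s = 0 := by
  have h1 : Ff =ᶠ[𝓝 s] fun _ => 0 := by
    filter_upwards [lt_mem_nhds h] with y hy
    exact Ff_zero (le_of_lt hy)
  unfold fp
  rw [h1.deriv_eq]; simp

/-- The derivative of the angle along the centre. -/
noncomputable def pz (τ : ℝ) (p : V3) : ℝ := τ * fp (ss p) * (2 * p.2.2)

/-- The expansion of the centre direction, minus one. -/
noncomputable def RR (τ : ℝ) (p : V3) : ℝ :=
  Real.cos (ph τ p) - 1 - pz τ p * (1 / 8 / rr p) *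
    (uu p * (1 - Real.cos (ph τ p)) + p.2.2 * Real.sin (ph τ p))

section line

variable {τ : ℝ} {p : V3}

/-- The vertical line through `p`. -/
def ln (p : V3) (s : ℝ) : V3 := (p.1, p.2.1, p.2.2 + s)

theorem ln_zero (p : V3) : ln p 0 = p := by simp [ln]

theorem uu_ln (p : V3) (s : ℝ) : uu (ln p s) = uu p := rfl
theorem rr_ln (p : V3) (s : ℝ) : rr (ln p s) = rr p := rfl

theorem hd_ss (p : V3) : HasDerivAt (fun s => ss (ln p s)) (2 * p.2.2) 0 := by
  have h1 : HasDerivAt (fun s : ℝ => p.2.2 + s) 1 0 := (hasDerivAt_id (0 : ℝ)).const_add _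
  have h2 := (h1.pow 2).const_add (uu p ^ 2)
  have e : (fun s => ss (ln p s)) = fun s => uu p ^ 2 + ((fun s : ℝ => p.2.2 + s) ^ 2) s := by
    funext s; rfl
  rw [e]
  refine h2.congr_deriv ?_
  simp

theorem hd_ph (τ : ℝ) (p : V3) : HasDerivAt (fun s => ph τ (ln p s)) (pz τ p) 0 := by
  have h1 : HasDerivAt Ff (fp (ss p)) (ss (ln p 0)) := by
    rw [ln_zero]; exact hasDerivAt_Ff _
  have h2 := (h1.comp (0 : ℝ) (hd_ss p)).const_mul τ
  refine h2.congr_deriv ?_
  unfold pz; ring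

theorem hd_UU (τ : ℝ) (p : V3) : HasDerivAt (fun s => UU τ (ln p s))
    (-Real.sin (ph τ p) - ZZ τ p * pz τ p) 0 := by
  have h1 := hd_ph τ p
  have h3 : HasDerivAt (fun s : ℝ => p.2.2 + s) 1 0 := (hasDerivAt_id (0 : ℝ)).const_add _
  have h2 := (h1.cos.const_mul (uu p)).sub (h3.mul h1.sin)
  refine h2.congr_deriv ?_
  simp only [ln_zero, ZZ]
  ring

theorem hd_ZZ (τ : ℝ) (p : V3) : HasDerivAt (fun s => ZZ τ (ln p s))
    (Real.cos (ph τ p) + UU τ p * pz τ p) 0 := by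
  have h1 := hd_ph τ p
  have h3 : HasDerivAt (fun s : ℝ => p.2.2 + s) 1 0 := (hasDerivAt_id (0 : ℝ)).const_add _
  have h2 := (h1.sin.const_mul (uu p)).add (h3.mul h1.cos)
  refine h2.congr_deriv ?_
  simp only [ln_zero, UU]
  ring

theorem hd_be (τ : ℝ) (p : V3) : HasDerivAt (fun s => be τ (ln p s))
    (pz τ p * uu p / rr p) 0 :=
  ((hd_ph τ p).mul_const (uu p)).div_const (rr p)

theorem hd_kk (τ : ℝ) {p : V3} (h0 : 0 < rr p) : ∃ k', HasDerivAt (fun s => kk τ (ln p s)) k' 0 := by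
  have h1 := ((hd_UU τ p).const_add (1 / 8)).div_const (rr p)
  have h2 := h1.sqrt (by
    simp only [ln_zero]
    exact (div_pos (UU_pos h0) h0).ne')
  exact ⟨_, h2⟩

end line

theorem UU_SS (τ : ℝ) (p : V3) : UU τ (SS τ p) = UU τ p := by
  rw [UU, uu_SS, ph_SS]; rfl

theorem ZZ_SS (τ : ℝ) (p : V3) : ZZ τ (SS τ p) = ZZ τ p := by
  rw [ZZ, uu_SS, ph_SS]; rfl

theorem kk_SS (τ : ℝ) (p : V3) : kk τ (SS τ p) = kk τ p := by
  rw [kk, UU_SS, rr_SS]; rfl

theorem TT_SS (τ : ℝ) (p : V3) : TT τ (SS τ p) =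
    (kk τ p * (p.1 * Real.cos (be τ p) - p.2.1 * Real.sin (be τ p)),
      kk τ p * (p.1 * Real.sin (be τ p) + p.2.1 * Real.cos (be τ p)), ZZ τ p) := by
  unfold TT
  rw [kk_SS, ZZ_SS]
  rfl

theorem coc_HH (t : ℝ) (x : V) : coc (HH t) x (bv 2) 2 = 1 + RR (ta t x) x.1 := by
  have hd : Differentiable ℝ (HH t) :=
    (slice_contDiff (contDiff_HH (n := 1)) t).differentiable (by norm_num)
  rcases eq_or_lt_of_le (rr_nonneg x.1) with h0 | h0
  · have h1 := ss_of_rr_zero h0.symm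
    have h2 : HH t =ᶠ[𝓝 x] id := by
      have h3 : ∀ᶠ y in 𝓝 x, 1 / 256 < ss y.1 :=
        (continuous_ss.comp continuous_fst).continuousAt.eventually_const_lt h1
      filter_upwards [h3] with y hy
      exact HH_id (fun hK => absurd hK.1 (not_le.2 hy)) t
    have h3 : RR (ta t x) x.1 = 0 := by
      unfold RR pz
      rw [ph_zero h1.le, fp_zero h1]; simp
    rw [coc_congr h2, coc_id, h3]
    simp [bv_apply]
  · set τ := ta t x with hτ
    obtain ⟨k', hk⟩ := hd_kk τ h0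
    have hb := hd_be τ x.1
    have hz := hd_ZZ τ x.1
    have hx1 := hk.mul ((hb.cos.const_mul x.1.1).sub (hb.sin.const_mul x.1.2.1))
    have hx2 := hk.mul ((hb.sin.const_mul x.1.1).add (hb.cos.const_mul x.1.2.1))
    have hline := (hx1.prodMk (hx2.prodMk hz)).prodMk (hasDerivAt_const (0 : ℝ) x.2)
    have hcurve : (fun s : ℝ => HH t (x + s • ez)) = fun s =>
        ((((fun s => kk τ (ln x.1 s)) * ((fun s => x.1.1 * Real.cos (be τ (ln x.1 s))) -
          fun s => x.1.2.1 * Real.sin (be τ (ln x.1 s)))) s,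
          ((fun s => kk τ (ln x.1 s)) * ((fun s => x.1.1 * Real.sin (be τ (ln x.1 s))) +
          fun s => x.1.2.1 * Real.cos (be τ (ln x.1 s)))) s, ZZ τ (ln x.1 s)), x.2) := by
      funext s
      have e3 : (x + s • ez).2 = x.2 := by
        ext <;> simp [ez]
      have e1 : ta t (x + s • ez) = τ := by rw [ta, e3, hτ, ta]
      have e2 : (x + s • ez).1 = ln x.1 s := by
        simp only [ez, ln]
        ext <;> simp
      unfold HH
      rw [e1, e2, e3, TT_SS]
      rfl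
    have hD1 : HasDerivAt (fun s : ℝ => HH t (x + s • ez)) (fderiv ℝ (HH t) x ez) 0 := by
      have h1 : HasDerivAt (fun s : ℝ => x + s • ez) ez 0 := by
        have := ((hasDerivAt_id (0 : ℝ)).smul_const ez).const_add x
        simpa using this
      have h2 : HasFDerivAt (HH t) (fderiv ℝ (HH t) x) (x + (0 : ℝ) • ez) := by
        rw [zero_smul, add_zero]; exact (hd x).hasFDerivAt
      exact h2.comp_hasDerivAt 0 h1
    rw [hcurve] at hD1
    have hD := hD1.unique hline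
    rw [coc_bv, hD]
    have hH : HH t x = ((kk τ x.1 * (x.1.1 * Real.cos (be τ x.1) - x.1.2.1 * Real.sin (be τ x.1)),
      kk τ x.1 * (x.1.1 * Real.sin (be τ x.1) + x.1.2.1 * Real.cos (be τ x.1)), ZZ τ x.1),
        x.2) := by
      unfold HH
      rw [← hτ, TT_SS]
    rw [hH]
    simp only [ln_zero, Pi.sub_apply, Pi.add_apply]
    have hk2 := kk_sq (τ := τ) h0
    have hsc := Real.sin_sq_add_cos_sq (be τ x.1)
    have hrr : rr x.1 = x.1.1 ^ 2 + x.1.2.1 ^ 2 := rfl
    have hru := rr_eq x.1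
    unfold RR
    have hU : UU τ x.1 = uu x.1 * Real.cos (ph τ x.1) - x.1.2.2 * Real.sin (ph τ x.1) := rfl
    have hfin : UU τ x.1 * pz τ x.1 - (1 / 8 + UU τ x.1) * (pz τ x.1 * uu x.1 / rr x.1) =
        -(pz τ x.1 * (1 / 8 / rr x.1) * (uu x.1 * (1 - Real.cos (ph τ x.1)) +
          x.1.2.2 * Real.sin (ph τ x.1))) := by
      have h1 : pz τ x.1 * uu x.1 / rr x.1 * rr x.1 = pz τ x.1 * uu x.1 := by field_simp
      have h2 : 1 / 8 / rr x.1 * rr x.1 = 1 / 8 := by field_simp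
      apply mul_right_cancel₀ h0.ne'
      rw [sub_mul, mul_assoc (1 / 8 + UU τ x.1), h1]
      have h3 : -(pz τ x.1 * (1 / 8 / rr x.1) * (uu x.1 * (1 - Real.cos (ph τ x.1)) +
          x.1.2.2 * Real.sin (ph τ x.1))) * rr x.1 = -(pz τ x.1 * (1 / 8 / rr x.1 * rr x.1) *
          (uu x.1 * (1 - Real.cos (ph τ x.1)) + x.1.2.2 * Real.sin (ph τ x.1))) := by ring
      rw [h3, h2, hU, hru]
      ring
    set b' := pz τ x.1 * uu x.1 / rr x.1
    linear_combination hfin - (kk τ x.1) ^ 2 * (x.1.1 ^ 2 + x.1.2.1 ^ 2) * b' * hsc +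
      (kk τ x.1) ^ 2 * b' * hrr - b' * hk2

end Pool.Agent.Lib.MP_48de40_an
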