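import Pool.Agent.Lib.MP_48de40_an.Gain

/-!
# The second-order gain: integral of the expansion of the centre direction
-/

open MeasureTheory Set Filter Topology
open scoped ContDiff

namespace Pool.Agent.Lib.MP_48de40_an

theorem RR_zero {x : V} (hx : x ∉ K1) (t : ℝ) : RR (ta t x) x.1 = 0 := by
  have h := ph_ta_zero hx t
  unfold RR pz
  rw [h]
  by_cases h1 : ss x.1 ≤ 1 / 256
  · have h2 : 1 / 16 ≤ nn x.2 := by
      by_contra h3
      exact hx ⟨h1, (not_le.1 h3).le⟩
    rw [ta, ch_zero h2]; simp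
  · rw [fp_zero (not_le.1 h1)]; simp

theorem abs_ta_le (t : ℝ) (x : V) : |ta t x| ≤ |t| := by
  rw [ta, abs_mul, abs_of_nonneg (ch_nonneg _)]
  have h1 := ch_le_one x.2
  have h2 := abs_nonneg t
  nlinarith

/-- The expansion of the centre direction is `1 + O(t²)`. -/
theorem RR_bound : ∃ C ≥ 0, ∀ t : ℝ, |t| ≤ 1 → ∀ x : V, |RR (ta t x) x.1| ≤ C * t ^ 2 := by
  obtain ⟨C, hC⟩ := (isCompact_Icc (a := (0 : ℝ)) (b := 1 / 256)).exists_bound_of_continuousOn
    continuous_fp.continuousOn
  have hC0 : 0 ≤ C := (norm_nonneg _).trans (hC 0 (by constructor <;> norm_num))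
  refine ⟨1 / 2 + 6 * C, by positivity, fun t ht x => ?_⟩
  by_cases hx : x ∈ K1
  · set τ := ta t x with hτ
    have hτ1 : |τ| ≤ |t| := abs_ta_le t x
    have hτ2 : |τ| ≤ 1 := hτ1.trans ht
    have hss : ss x.1 ≤ 1 / 256 := hx.1
    have hss0 : 0 ≤ ss x.1 := by unfold ss; positivity
    have hrr := rr_pos_of_ss hss
    have hfp : |fp (ss x.1)| ≤ C := hC _ ⟨hss0, hss⟩
    have hz : |x.1.2.2| ≤ 1 := by
      have h1 : uu x.1 ^ 2 + x.1.2.2 ^ 2 ≤ 1 / 256 := hss
      rw [abs_le]; constructor <;> nlinarith [sq_nonneg (uu x.1), sq_nonneg x.1.2.2]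
    have hu : |uu x.1| ≤ 1 := by
      have h1 : uu x.1 ^ 2 + x.1.2.2 ^ 2 ≤ 1 / 256 := hss
      rw [abs_le]; constructor <;> nlinarith [sq_nonneg (uu x.1), sq_nonneg x.1.2.2]
    have hph : |ph τ x.1| ≤ |τ| := by
      rw [ph, abs_mul, abs_of_nonneg (Ff_nonneg _)]
      have := Ff_le_one (ss x.1)
      nlinarith [abs_nonneg τ]
    have hph2 : ph τ x.1 ^ 2 ≤ τ ^ 2 := sq_le_sq.2 hph
    have hcos : |1 - Real.cos (ph τ x.1)| ≤ τ ^ 2 / 2 := by
      have h1 := Real.one_sub_sq_div_two_le_cos (x := ph τ x.1)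
      have h2 := Real.cos_le_one (ph τ x.1)
      rw [abs_of_nonneg (by linarith)]
      linarith
    have hsin : |Real.sin (ph τ x.1)| ≤ |τ| := (Real.abs_sin_le_abs).trans hph
    have hpz : |pz τ x.1| ≤ 2 * C * |τ| := by
      rw [pz, abs_mul, abs_mul, abs_mul, abs_two]
      calc |τ| * |fp (ss x.1)| * (2 * |x.1.2.2|) ≤ |τ| * C * (2 * 1) := by gcongr
        _ = 2 * C * |τ| := by ring
    have hq : |1 / 8 / rr x.1| ≤ 2 := by
      rw [abs_of_pos (by positivity), div_le_iff₀ (by positivity)]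
      linarith
    have t2 : |t| * |t| = t ^ 2 := by rw [← abs_mul, ← sq, abs_of_nonneg (sq_nonneg t)]
    have τ2 : |τ| * |τ| = τ ^ 2 := by rw [← abs_mul, ← sq, abs_of_nonneg (sq_nonneg τ)]
    have τt : τ ^ 2 ≤ t ^ 2 := sq_le_sq.2 hτ1
    have hτ3 : τ ^ 2 ≤ |τ| := by rw [← τ2]; nlinarith [abs_nonneg τ]
    have hin : |uu x.1 * (1 - Real.cos (ph τ x.1)) + x.1.2.2 * Real.sin (ph τ x.1)| ≤
        3 / 2 * |τ| := by
      calc _ ≤ |uu x.1 * (1 - Real.cos (ph τ x.1))| + |x.1.2.2 * Real.sin (ph τ x.1)| :=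
            abs_add_le _ _
        _ = |uu x.1| * |1 - Real.cos (ph τ x.1)| + |x.1.2.2| * |Real.sin (ph τ x.1)| := by
            rw [abs_mul, abs_mul]
        _ ≤ 1 * (τ ^ 2 / 2) + 1 * |τ| := by gcongr
        _ ≤ 3 / 2 * |τ| := by linarith
    unfold RR
    calc _ ≤ |Real.cos (ph τ x.1) - 1| + |pz τ x.1 * (1 / 8 / rr x.1) *
          (uu x.1 * (1 - Real.cos (ph τ x.1)) + x.1.2.2 * Real.sin (ph τ x.1))| := abs_sub _ _
      _ = |1 - Real.cos (ph τ x.1)| + |pz τ x.1| * |1 / 8 / rr x.1| *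
          |uu x.1 * (1 - Real.cos (ph τ x.1)) + x.1.2.2 * Real.sin (ph τ x.1)| := by
          rw [abs_mul, abs_mul, abs_sub_comm]
      _ ≤ τ ^ 2 / 2 + 2 * C * |τ| * 2 * (3 / 2 * |τ|) := by gcongr
      _ = (1 / 2 + 6 * C) * τ ^ 2 := by rw [← τ2]; ring
      _ ≤ (1 / 2 + 6 * C) * t ^ 2 := by gcongr
  · rw [RR_zero hx, abs_zero]; positivity

/-- Continuity of functions supported in the ring. -/
theorem continuous_of_ring {f : V → ℝ} (h1 : ∀ x : V, 0 < rr x.1 → ContinuousAt f x)
    (h2 : ∀ x : V, 1 / 256 < ss x.1 → f x = 0) : Continuous f := by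
  rw [continuous_iff_continuousAt]
  intro x
  rcases eq_or_lt_of_le (rr_nonneg x.1) with h0 | h0
  · have h3 := ss_of_rr_zero h0.symm
    have h4 : f =ᶠ[𝓝 x] fun _ => 0 := by
      filter_upwards [(continuous_ss.comp continuous_fst).continuousAt.eventually_const_lt h3]
        with y hy
      exact h2 y hy
    exact continuousAt_const.congr h4.symm
  · exact h1 x h0

theorem hld_const (x v : V) (c : ℝ) : HasLineDerivAt ℝ (fun _ : V => c) 0 x v := by
  simpa [HasLineDerivAt] using hasDerivAt_const (0 : ℝ) c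

theorem hasLineDerivAt_of_ring {f f' : V → ℝ} {v : V}
    (h1 : ∀ x : V, 0 < rr x.1 → HasLineDerivAt ℝ f (f' x) x v)
    (h2 : ∀ x : V, 1 / 256 < ss x.1 → f x = 0) (h3 : ∀ x : V, 1 / 256 < ss x.1 → f' x = 0)
    (x : V) : HasLineDerivAt ℝ f (f' x) x v := by
  rcases eq_or_lt_of_le (rr_nonneg x.1) with h0 | h0
  · have h4 := ss_of_rr_zero h0.symm
    have h5 : f =ᶠ[𝓝 x] fun _ => 0 := by
      filter_upwards [(continuous_ss.comp continuous_fst).continuousAt.eventually_const_lt h4]
        with y hy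
      exact h2 y hy
    rw [h3 x h4]
    exact (hld_const x v 0).congr_of_eventuallyEq h5
  · exact h1 x h0

theorem integrable_of_K1 {f : V → ℝ} (hf : Continuous f) (h : ∀ x, x ∉ K1 → f x = 0) :
    Integrable f volume :=
  hf.integrable_of_hasCompactSupport (HasCompactSupport.intro isCompact_K1 h)

theorem integral_line_zero {f f' : V → ℝ} {v : V} (hf : Continuous f) (hf' : Continuous f')
    (h1 : ∀ x, x ∉ K1 → f x = 0) (h2 : ∀ x, x ∉ K1 → f' x = 0)
    (h : ∀ x, HasLineDerivAt ℝ f (f' x) x v) : ∫ x, f' x = 0 := by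
  have key := integral_bilinear_hasLineDerivAt_right_eq_neg_left_of_integrable
    (μ := (volume : Measure V)) (f := fun _ => (1 : ℝ)) (f' := fun _ => (0 : ℝ)) (g := f)
    (g' := f') (v := v) (B := ContinuousLinearMap.mul ℝ ℝ)
    (by simp) (by simpa using integrable_of_K1 hf' h2) (by simpa using integrable_of_K1 hf h1)
    (fun x _ => hld_const x v 1) (fun x _ => h x)
  simpa using key

/-- `1 - cos` of the angle. -/
noncomputable def Cc (t : ℝ) (x : V) : ℝ := 1 - Real.cos (ph (ta t x) x.1)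

/-- The function whose vertical derivative appears. -/
noncomputable def Psi (t : ℝ) (x : V) : ℝ :=
  1 / 8 / rr x.1 * (uu x.1 * (Real.sin (ph (ta t x) x.1) - ph (ta t x) x.1) -
    x.1.2.2 * (1 - Real.cos (ph (ta t x) x.1)))

/-- Its vertical derivative. -/
noncomputable def Psi' (t : ℝ) (x : V) : ℝ := RR (ta t x) x.1 + uu x.1 / rr x.1 * Cc t x

/-- The antiderivative in `s`. -/
noncomputable def C2 (t : ℝ) (x : V) : ℝ :=
  ∫ s in (1 / 256)..(ss x.1), (1 - Real.cos (ta t x * Ff s))

/-- The horizontal potential, first coordinate. -/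
noncomputable def fX (t : ℝ) (x : V) : ℝ := x.1.1 * C2 t x / rr x.1
/-- Its derivative. -/
noncomputable def fX' (t : ℝ) (x : V) : ℝ := C2 t x / rr x.1 +
  4 * uu x.1 * x.1.1 ^ 2 * Cc t x / rr x.1 - 2 * x.1.1 ^ 2 * C2 t x / rr x.1 ^ 2
/-- The horizontal potential, second coordinate. -/
noncomputable def fY (t : ℝ) (x : V) : ℝ := x.1.2.1 * C2 t x / rr x.1
/-- Its derivative. -/
noncomputable def fY' (t : ℝ) (x : V) : ℝ := C2 t x / rr x.1 +
  4 * uu x.1 * x.1.2.1 ^ 2 * Cc t x / rr x.1 - 2 * x.1.2.1 ^ 2 * C2 t x / rr x.1 ^ 2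
/-- The positive part. -/
noncomputable def Pp (t : ℝ) (x : V) : ℝ := 8 * uu x.1 ^ 2 * Cc t x / rr x.1

theorem C2_zero_of_ss {t : ℝ} {x : V} (h : 1 / 256 ≤ ss x.1) : C2 t x = 0 := by
  unfold C2
  have : ∀ s ∈ Set.uIcc (1 / 256 : ℝ) (ss x.1), (1 - Real.cos (ta t x * Ff s)) = 0 := by
    intro s hs
    rw [Set.uIcc_of_le h] at hs
    rw [Ff_zero hs.1]; simp
  rw [intervalIntegral.integral_congr (g := fun _ => (0 : ℝ)) this]
  simp

theorem C2_zero {t : ℝ} {x : V} (h : x ∉ K1) : C2 t x = 0 := by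
  by_cases h1 : ss x.1 ≤ 1 / 256
  · have h2 : 1 / 16 ≤ nn x.2 := by
      by_contra h3
      exact h ⟨h1, (not_le.1 h3).le⟩
    unfold C2
    rw [ta, ch_zero h2]; simp
  · exact C2_zero_of_ss (not_le.1 h1).le

theorem Cc_zero {t : ℝ} {x : V} (h : x ∉ K1) : Cc t x = 0 := by
  rw [Cc, ph_ta_zero h]; simp

theorem Psi_zero {t : ℝ} {x : V} (h : x ∉ K1) : Psi t x = 0 := by
  rw [Psi, ph_ta_zero h]; simp

theorem Psi'_zero {t : ℝ} {x : V} (h : x ∉ K1) : Psi' t x = 0 := by
  rw [Psi', RR_zero h, Cc_zero h]; simp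

theorem fX_zero {t : ℝ} {x : V} (h : x ∉ K1) : fX t x = 0 := by rw [fX, C2_zero h]; simp
theorem fX'_zero {t : ℝ} {x : V} (h : x ∉ K1) : fX' t x = 0 := by
  rw [fX', C2_zero h, Cc_zero h]; simp
theorem fY_zero {t : ℝ} {x : V} (h : x ∉ K1) : fY t x = 0 := by rw [fY, C2_zero h]; simp
theorem fY'_zero {t : ℝ} {x : V} (h : x ∉ K1) : fY' t x = 0 := by
  rw [fY', C2_zero h, Cc_zero h]; simp
theorem Pp_zero {t : ℝ} {x : V} (h : x ∉ K1) : Pp t x = 0 := by rw [Pp, Cc_zero h]; simp

theorem notMem_K1 {x : V} (h : 1 / 256 < ss x.1) : x ∉ K1 := fun hx => absurd hx.1 (not_le.2 h)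

/-- The pointwise identity. -/
theorem RR_identity (t : ℝ) (x : V) :
    RR (ta t x) x.1 = Psi' t x - 2 * (fX' t x + fY' t x) + Pp t x := by
  rcases eq_or_lt_of_le (rr_nonneg x.1) with h0 | h0
  · have h := notMem_K1 (ss_of_rr_zero h0.symm)
    rw [RR_zero h, Psi'_zero h, fX'_zero h, fY'_zero h, Pp_zero h]; simp
  · have hrr : rr x.1 = x.1.1 ^ 2 + x.1.2.1 ^ 2 := rfl
    have hsum : fX' t x + fY' t x = 4 * uu x.1 * Cc t x := by
      have e : fX' t x + fY' t x = 2 * C2 t x / rr x.1 +
          4 * uu x.1 * Cc t x * ((x.1.1 ^ 2 + x.1.2.1 ^ 2) / rr x.1) -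
          2 * C2 t x * ((x.1.1 ^ 2 + x.1.2.1 ^ 2) / rr x.1) / rr x.1 := by
        unfold fX' fY'
        field_simp
        ring
      rw [e, ← hrr, div_self h0.ne']; ring
    rw [hsum]
    unfold Psi' Pp
    have hu : uu x.1 = rr x.1 - 1 / 8 := rfl
    have : uu x.1 / rr x.1 * Cc t x + 8 * uu x.1 ^ 2 * Cc t x / rr x.1 =
        8 * uu x.1 * Cc t x := by
      rw [hu]; field_simp; ring
    linear_combination (-1 : ℝ) * this

theorem continuous_ta (t : ℝ) : Continuous (ta t) :=
  continuous_const.mul ((contDiff_ch (n := 0)).continuous.comp continuous_snd)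

theorem continuous_Ff : Continuous Ff := (contDiff_Ff (n := 0)).continuous

theorem continuous_phx (t : ℝ) : Continuous (fun x : V => ph (ta t x) x.1) :=
  (continuous_ta t).mul (continuous_Ff.comp (continuous_ss.comp continuous_fst))

theorem continuous_Cc (t : ℝ) : Continuous (Cc t) :=
  continuous_const.sub (Real.continuous_cos.comp (continuous_phx t))

theorem continuous_C2 (t : ℝ) : Continuous (C2 t) := by
  unfold C2
  refine intervalIntegral.continuous_parametric_intervalIntegral_of_continuous ?_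
    (continuous_ss.comp continuous_fst)
  have h1 := continuous_ta t
  have h2 := continuous_Ff
  have h3 : Continuous (fun q : V × ℝ => ta t q.1 * Ff q.2) :=
    (h1.comp continuous_fst).mul (h2.comp continuous_snd)
  exact continuous_const.sub (Real.continuous_cos.comp h3)

theorem continuous_rr : Continuous (fun x : V => rr x.1) := by unfold rr; fun_prop
theorem continuous_uu : Continuous (fun x : V => uu x.1) := by unfold uu rr; fun_prop

theorem continuous_Psi (t : ℝ) : Continuous (Psi t) := by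
  refine continuous_of_ring (fun x h0 => ?_) fun x hx => Psi_zero (notMem_K1 hx)
  have h1 := (continuous_phx t).continuousAt (x := x)
  have h2 := continuous_rr.continuousAt (x := x)
  have h3 := continuous_uu.continuousAt (x := x)
  have h4 : ContinuousAt (fun x : V => x.1.2.2) x := by fun_prop
  have hs := (Real.continuous_sin.comp (continuous_phx t)).continuousAt (x := x)
  have hc := (Real.continuous_cos.comp (continuous_phx t)).continuousAt (x := x)
  exact (continuousAt_const.div h2 h0.ne').mul ((h3.mul (hs.sub h1)).sub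
    (h4.mul (continuousAt_const.sub hc)))

theorem continuous_RR (t : ℝ) : Continuous (fun x : V => RR (ta t x) x.1) := by
  refine continuous_of_ring (fun x h0 => ?_) fun x hx => RR_zero (notMem_K1 hx) t
  have h1 := (continuous_phx t).continuousAt (x := x)
  have h2 := continuous_rr.continuousAt (x := x)
  have h3 := continuous_uu.continuousAt (x := x)
  have h4 : ContinuousAt (fun x : V => x.1.2.2) x := by fun_prop
  have h5 := (continuous_ta t).continuousAt (x := x)
  have h6 : ContinuousAt (fun x : V => fp (ss x.1)) x :=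
    (continuous_fp.comp (continuous_ss.comp continuous_fst)).continuousAt
  have hs := (Real.continuous_sin.comp (continuous_phx t)).continuousAt (x := x)
  have hc := (Real.continuous_cos.comp (continuous_phx t)).continuousAt (x := x)
  exact (hc.sub continuousAt_const).sub
    ((((h5.mul h6).mul (continuousAt_const.mul h4)).mul (continuousAt_const.div h2 h0.ne')).mul
      ((h3.mul (continuousAt_const.sub hc)).add (h4.mul hs)))

theorem continuous_Psi' (t : ℝ) : Continuous (Psi' t) := by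
  refine continuous_of_ring (fun x h0 => ?_) fun x hx => Psi'_zero (notMem_K1 hx)
  have h1 := (continuous_RR t).continuousAt (x := x)
  have h2 := continuous_rr.continuousAt (x := x)
  have h3 := continuous_uu.continuousAt (x := x)
  have h4 := (continuous_Cc t).continuousAt (x := x)
  exact h1.add ((h3.div h2 h0.ne').mul h4)

theorem continuous_fX (t : ℝ) : Continuous (fX t) := by
  refine continuous_of_ring (fun x h0 => ?_) fun x hx => fX_zero (notMem_K1 hx)
  have h1 := (continuous_C2 t).continuousAt (x := x)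
  have h2 := continuous_rr.continuousAt (x := x)
  have h4 : ContinuousAt (fun x : V => x.1.1) x := by fun_prop
  exact (h4.mul h1).div h2 h0.ne'

theorem continuous_fY (t : ℝ) : Continuous (fY t) := by
  refine continuous_of_ring (fun x h0 => ?_) fun x hx => fY_zero (notMem_K1 hx)
  have h1 := (continuous_C2 t).continuousAt (x := x)
  have h2 := continuous_rr.continuousAt (x := x)
  have h4 : ContinuousAt (fun x : V => x.1.2.1) x := by fun_prop
  exact (h4.mul h1).div h2 h0.ne'

theorem continuous_fX' (t : ℝ) : Continuous (fX' t) := by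
  refine continuous_of_ring (fun x h0 => ?_) fun x hx => fX'_zero (notMem_K1 hx)
  have h1 := (continuous_C2 t).continuousAt (x := x)
  have h2 := continuous_rr.continuousAt (x := x)
  have h3 := continuous_uu.continuousAt (x := x)
  have h5 := (continuous_Cc t).continuousAt (x := x)
  have h4 : ContinuousAt (fun x : V => x.1.1) x := by fun_prop
  exact ((h1.div h2 h0.ne').add ((((continuousAt_const.mul h3).mul (h4.pow 2)).mul h5).div h2
    h0.ne')).sub (((continuousAt_const.mul (h4.pow 2)).mul h1).div (h2.pow 2)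
    (pow_ne_zero 2 h0.ne'))

theorem continuous_fY' (t : ℝ) : Continuous (fY' t) := by
  refine continuous_of_ring (fun x h0 => ?_) fun x hx => fY'_zero (notMem_K1 hx)
  have h1 := (continuous_C2 t).continuousAt (x := x)
  have h2 := continuous_rr.continuousAt (x := x)
  have h3 := continuous_uu.continuousAt (x := x)
  have h5 := (continuous_Cc t).continuousAt (x := x)
  have h4 : ContinuousAt (fun x : V => x.1.2.1) x := by fun_prop
  exact ((h1.div h2 h0.ne').add ((((continuousAt_const.mul h3).mul (h4.pow 2)).mul h5).div h2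
    h0.ne')).sub (((continuousAt_const.mul (h4.pow 2)).mul h1).div (h2.pow 2)
    (pow_ne_zero 2 h0.ne'))

theorem continuous_Pp (t : ℝ) : Continuous (Pp t) := by
  refine continuous_of_ring (fun x h0 => ?_) fun x hx => Pp_zero (notMem_K1 hx)
  have h2 := continuous_rr.continuousAt (x := x)
  have h3 := continuous_uu.continuousAt (x := x)
  have h5 := (continuous_Cc t).continuousAt (x := x)
  exact ((continuousAt_const.mul (h3.pow 2)).mul h5).div h2 h0.ne'

end Pool.Agent.Lib.MP_48de40_an
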