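import Pool.Agent.Lib.MP_48de40_an.Gain2

/-!
# The second-order gain: the integral is positive
-/

open MeasureTheory Set Filter Topology
open scoped ContDiff

namespace Pool.Agent.Lib.MP_48de40_an

theorem add_ez_fst (x : V) (s : ℝ) : (x + s • ez).1 = ln x.1 s := by
  simp only [ez, ln]
  ext <;> simp

theorem add_ez_snd (x : V) (s : ℝ) : (x + s • ez).2 = x.2 := by
  ext <;> simp [ez]

theorem ta_add_ez (t : ℝ) (x : V) (s : ℝ) : ta t (x + s • ez) = ta t x := by
  rw [ta, add_ez_snd, ta]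

theorem hld_Psi (t : ℝ) (x : V) (h0 : 0 < rr x.1) : HasLineDerivAt ℝ (Psi t) (Psi' t x) x ez := by
  unfold HasLineDerivAt
  set τ := ta t x with hτ
  have e : (fun s : ℝ => Psi t (x + s • ez)) = fun s => 1 / 8 / rr x.1 *
      (uu x.1 * (Real.sin (ph τ (ln x.1 s)) - ph τ (ln x.1 s)) -
        (x.1.2.2 + s) * (1 - Real.cos (ph τ (ln x.1 s)))) := by
    funext s
    unfold Psi
    rw [ta_add_ez, add_ez_fst]
    rfl
  rw [e]
  have h1 := hd_ph τ x.1
  have h3 : HasDerivAt (fun s : ℝ => x.1.2.2 + s) 1 0 := (hasDerivAt_id (0 : ℝ)).const_add _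
  have h2 := (((h1.sin.sub h1).const_mul (uu x.1)).sub (h3.mul (h1.cos.const_sub 1))).const_mul
    (1 / 8 / rr x.1)
  refine h2.congr_deriv ?_
  simp only [ln_zero, add_zero]
  unfold Psi' RR Cc
  rw [← hτ]
  have hu : uu x.1 = rr x.1 - 1 / 8 := rfl
  have h4 : uu x.1 / rr x.1 = 1 - 1 / 8 / rr x.1 := by rw [hu]; field_simp
  rw [h4]
  ring

/-- The direction of the first coordinate. -/
def ex : V := ((1, 0, 0), (0, 0, 0))
/-- The direction of the second coordinate. -/
def ey : V := ((0, 1, 0), (0, 0, 0))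

/-- Horizontal line. -/
def lx (p : V3) (s : ℝ) : V3 := (p.1 + s, p.2.1, p.2.2)
/-- Horizontal line. -/
def ly (p : V3) (s : ℝ) : V3 := (p.1, p.2.1 + s, p.2.2)

theorem add_ex_fst (x : V) (s : ℝ) : (x + s • ex).1 = lx x.1 s := by
  simp only [ex, lx]
  ext <;> simp
theorem add_ex_snd (x : V) (s : ℝ) : (x + s • ex).2 = x.2 := by
  ext <;> simp [ex]
theorem ta_add_ex (t : ℝ) (x : V) (s : ℝ) : ta t (x + s • ex) = ta t x := by
  rw [ta, add_ex_snd, ta]
theorem add_ey_fst (x : V) (s : ℝ) : (x + s • ey).1 = ly x.1 s := by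
  simp only [ey, ly]
  ext <;> simp
theorem add_ey_snd (x : V) (s : ℝ) : (x + s • ey).2 = x.2 := by
  ext <;> simp [ey]
theorem ta_add_ey (t : ℝ) (x : V) (s : ℝ) : ta t (x + s • ey) = ta t x := by
  rw [ta, add_ey_snd, ta]

theorem hd_rr_lx (p : V3) : HasDerivAt (fun s => rr (lx p s)) (2 * p.1) 0 := by
  have h1 : HasDerivAt (fun s : ℝ => p.1 + s) 1 0 := (hasDerivAt_id (0 : ℝ)).const_add _
  have h2 := (h1.pow 2).add_const (p.2.1 ^ 2)
  refine h2.congr_deriv ?_
  simp

theorem hd_rr_ly (p : V3) : HasDerivAt (fun s => rr (ly p s)) (2 * p.2.1) 0 := by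
  have h1 : HasDerivAt (fun s : ℝ => p.2.1 + s) 1 0 := (hasDerivAt_id (0 : ℝ)).const_add _
  have h2 := (h1.pow 2).const_add (p.1 ^ 2)
  refine h2.congr_deriv ?_
  simp

theorem lx_zero (p : V3) : lx p 0 = p := by simp [lx]
theorem ly_zero (p : V3) : ly p 0 = p := by simp [ly]

/-- General computation of the horizontal derivatives. -/
theorem hd_hor {τ a : ℝ} {c : ℝ → V3} {p : V3} (hc0 : c 0 = p) (h0 : 0 < rr p)
    (hr : HasDerivAt (fun s => rr (c s)) (2 * a) 0) (hz : ∀ s, (c s).2.2 = p.2.2) :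
    HasDerivAt (fun s => (a + s) * (∫ y in (1 / 256)..(ss (c s)), (1 - Real.cos (τ * Ff y))) /
      rr (c s))
      ((∫ y in (1 / 256)..(ss p), (1 - Real.cos (τ * Ff y))) / rr p +
        4 * uu p * a ^ 2 * (1 - Real.cos (τ * Ff (ss p))) / rr p -
        2 * a ^ 2 * (∫ y in (1 / 256)..(ss p), (1 - Real.cos (τ * Ff y))) / rr p ^ 2) 0 := by
  have hu : HasDerivAt (fun s => uu (c s)) (2 * a) 0 := hr.sub_const _
  have hs : HasDerivAt (fun s => ss (c s)) (2 * uu p * (2 * a)) 0 := by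
    have h1 := (hu.pow 2).add_const (p.2.2 ^ 2)
    have e : (fun s => ss (c s)) = fun s => ((fun s => uu (c s)) ^ 2) s + p.2.2 ^ 2 := by
      funext s
      simp only [ss, hz, Pi.pow_apply]
    rw [e]
    refine h1.congr_deriv ?_
    rw [hc0]; simp
  have hcont : Continuous (fun y : ℝ => 1 - Real.cos (τ * Ff y)) :=
    continuous_const.sub (Real.continuous_cos.comp (continuous_const.mul continuous_Ff))
  have hI : HasDerivAt (fun b : ℝ => ∫ y in (1 / 256)..b, (1 - Real.cos (τ * Ff y)))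
      (1 - Real.cos (τ * Ff (ss (c 0)))) (ss (c 0)) :=
    (hcont.integral_hasStrictDerivAt _ _).hasDerivAt
  have hIs := hI.comp (0 : ℝ) hs
  have ha : HasDerivAt (fun s : ℝ => a + s) 1 0 := (hasDerivAt_id (0 : ℝ)).const_add _
  have hfin := (ha.mul hIs).div hr (by rw [hc0]; exact h0.ne')
  refine hfin.congr_deriv ?_
  simp only [Function.comp_apply, hc0, Pi.mul_apply, add_zero]
  field_simp
  ring

theorem hld_fX (t : ℝ) (x : V) (h0 : 0 < rr x.1) : HasLineDerivAt ℝ (fX t) (fX' t x) x ex := by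
  unfold HasLineDerivAt
  have e : (fun s : ℝ => fX t (x + s • ex)) = fun s => (x.1.1 + s) *
      (∫ y in (1 / 256)..(ss (lx x.1 s)), (1 - Real.cos (ta t x * Ff y))) / rr (lx x.1 s) := by
    funext s
    unfold fX C2
    rw [ta_add_ex, add_ex_fst]
    rfl
  rw [e]
  exact hd_hor (lx_zero x.1) h0 (hd_rr_lx x.1) fun s => rfl

theorem hld_fY (t : ℝ) (x : V) (h0 : 0 < rr x.1) : HasLineDerivAt ℝ (fY t) (fY' t x) x ey := by
  unfold HasLineDerivAt
  have e : (fun s : ℝ => fY t (x + s • ey)) = fun s => (x.1.2.1 + s) *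
      (∫ y in (1 / 256)..(ss (ly x.1 s)), (1 - Real.cos (ta t x * Ff y))) / rr (ly x.1 s) := by
    funext s
    unfold fY C2
    rw [ta_add_ey, add_ey_fst]
    rfl
  rw [e]
  exact hd_hor (ly_zero x.1) h0 (hd_rr_ly x.1) fun s => rfl

/-- The exact integral of the expansion of the centre direction. -/
theorem integral_RR (t : ℝ) : ∫ x : V, RR (ta t x) x.1 = ∫ x : V, Pp t x := by
  have i1 : ∫ x, Psi' t x = 0 := integral_line_zero (continuous_Psi t) (continuous_Psi' t)
    (fun x hx => Psi_zero hx) (fun x hx => Psi'_zero hx)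
    (hasLineDerivAt_of_ring (hld_Psi t) (fun x hx => Psi_zero (notMem_K1 hx))
      (fun x hx => Psi'_zero (notMem_K1 hx)))
  have i2 : ∫ x, fX' t x = 0 := integral_line_zero (continuous_fX t) (continuous_fX' t)
    (fun x hx => fX_zero hx) (fun x hx => fX'_zero hx)
    (hasLineDerivAt_of_ring (hld_fX t) (fun x hx => fX_zero (notMem_K1 hx))
      (fun x hx => fX'_zero (notMem_K1 hx)))
  have i3 : ∫ x, fY' t x = 0 := integral_line_zero (continuous_fY t) (continuous_fY' t)
    (fun x hx => fY_zero hx) (fun x hx => fY'_zero hx)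
    (hasLineDerivAt_of_ring (hld_fY t) (fun x hx => fY_zero (notMem_K1 hx))
      (fun x hx => fY'_zero (notMem_K1 hx)))
  have j1 := integrable_of_K1 (continuous_Psi' t) fun x hx => Psi'_zero hx
  have j2 := integrable_of_K1 (continuous_fX' t) fun x hx => fX'_zero hx
  have j3 := integrable_of_K1 (continuous_fY' t) fun x hx => fY'_zero hx
  have j4 := integrable_of_K1 (continuous_Pp t) fun x hx => Pp_zero hx
  have j23 : Integrable (fun x => fX' t x + fY' t x) volume := j2.add j3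
  have j5 : Integrable (fun x => 2 * (fX' t x + fY' t x)) volume := j23.const_mul 2
  have j15 : Integrable (fun x => Psi' t x - 2 * (fX' t x + fY' t x)) volume := j1.sub j5
  simp only [RR_identity t]
  rw [integral_add j15 j4, integral_sub j1 j5, integral_const_mul, integral_add j2 j3, i1, i2, i3]
  simp

/-- The leading coefficient of the gain. -/
noncomputable def Q0 (x : V) : ℝ :=
  8 * uu x.1 ^ 2 * (2 / Real.pi ^ 2 * (ch x.2 * Ff (ss x.1)) ^ 2) / rr x.1

theorem Q0_zero {x : V} (h : x ∉ K1) : Q0 x = 0 := by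
  by_cases h1 : ss x.1 ≤ 1 / 256
  · have h2 : 1 / 16 ≤ nn x.2 := by
      by_contra h3
      exact h ⟨h1, (not_le.1 h3).le⟩
    rw [Q0, ch_zero h2]; simp
  · rw [Q0, Ff_zero (not_le.1 h1).le]; simp

theorem continuous_Q0 : Continuous Q0 := by
  refine continuous_of_ring (fun x h0 => ?_) fun x hx => Q0_zero (notMem_K1 hx)
  have h2 := continuous_rr.continuousAt (x := x)
  have h3 := continuous_uu.continuousAt (x := x)
  have h5 : ContinuousAt (fun x : V => ch x.2) x :=
    ((contDiff_ch (n := 0)).continuous.comp continuous_snd).continuousAt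
  have h6 : ContinuousAt (fun x : V => Ff (ss x.1)) x :=
    (continuous_Ff.comp (continuous_ss.comp continuous_fst)).continuousAt
  exact ((continuousAt_const.mul (h3.pow 2)).mul (continuousAt_const.mul
    ((h5.mul h6).pow 2))).div h2 h0.ne'

theorem Q0_nonneg (x : V) : 0 ≤ Q0 x := by
  unfold Q0
  exact div_nonneg (by positivity) (rr_nonneg _)

theorem Pp_ge {t : ℝ} (ht : |t| ≤ 1) (x : V) : t ^ 2 * Q0 x ≤ Pp t x := by
  have h1 : |ph (ta t x) x.1| ≤ Real.pi := by
    have h2 := abs_ta_le t x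
    rw [ph, abs_mul, abs_of_nonneg (Ff_nonneg _)]
    have h3 := Ff_le_one (ss x.1)
    have h4 := Real.pi_gt_three
    nlinarith [abs_nonneg (ta t x), Ff_nonneg (ss x.1)]
  have h2 := Real.cos_le_one_sub_mul_cos_sq h1
  have h3 : 2 / Real.pi ^ 2 * ph (ta t x) x.1 ^ 2 ≤ Cc t x := by
    unfold Cc; linarith
  have e : t ^ 2 * Q0 x = 8 * uu x.1 ^ 2 * (2 / Real.pi ^ 2 * ph (ta t x) x.1 ^ 2) / rr x.1 := by
    unfold Q0 ph ta; ring
  rw [e, Pp]
  have h4 := rr_nonneg x.1
  gcongr

/-- The integral of the leading coefficient is positive. -/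
theorem integral_Q0_pos : 0 < ∫ x, Q0 x := by
  refine continuous_Q0.integral_pos_of_hasCompactSupport_nonneg_nonzero
    (HasCompactSupport.intro isCompact_K1 fun x hx => Q0_zero hx) (fun x => Q0_nonneg x)
    (x := ((√(5 / 32), 0, 0), (0, 0, 0))) ?_
  have hs : √(5 / 32 : ℝ) ^ 2 = 5 / 32 := Real.sq_sqrt (by norm_num)
  have hr : rr ((√(5 / 32), 0, 0) : V3) = 5 / 32 := by
    simp only [rr, hs]; norm_num
  have hu : uu ((√(5 / 32), 0, 0) : V3) = 1 / 32 := by rw [uu, hr]; norm_num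
  have hss : ss ((√(5 / 32), 0, 0) : V3) = 1 / 1024 := by
    rw [ss, hu]; norm_num
  have h1 : 0 < Ff (ss ((√(5 / 32), 0, 0) : V3)) := Ff_pos (by rw [hss]; norm_num)
  have h2 : 0 < ch ((0, 0, 0) : V3) := by
    unfold ch nn
    exact expNegInvGlue.pos_of_pos (by norm_num)
  have h3 : 0 < Q0 ((√(5 / 32), 0, 0), (0, 0, 0)) := by
    unfold Q0
    simp only
    rw [hu, hr]
    have := Real.pi_pos
    positivity
  exact h3.ne'

/-- The integral of the logarithm of the expansion is at least `κ t²`. -/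
theorem gain : ∃ κ > 0, ∃ δ > 0, ∀ t : ℝ, |t| ≤ δ →
    κ * t ^ 2 ≤ ⨍ x in D, Real.log (coc (hh t) x (bv 2) 2) := by
  obtain ⟨C, hC, hb⟩ := RR_bound
  have hI := integral_Q0_pos
  have hvol := volume_real_D_pos
  set I := ∫ x, Q0 x with hIdef
  set κ := I / volume.real D with hκ
  have hκ0 : 0 < κ := by positivity
  refine ⟨κ / 2, by positivity, min (1 / (2 * (C + 1))) (min 1 (κ / (4 * (C ^ 2 + 1)))),
    lt_min (by positivity) (lt_min one_pos (by positivity)), fun t ht => ?_⟩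
  rw [le_min_iff, le_min_iff, le_div_iff₀ (by positivity), le_div_iff₀ (by positivity)] at ht
  obtain ⟨t1, t2, t3⟩ := ht
  have ht0 := abs_nonneg t
  have tt : t ^ 2 ≤ |t| := by rw [← sq_abs]; nlinarith
  have hR : ∀ x : V, |RR (ta t x) x.1| ≤ 1 / 2 := by
    intro x
    have h1 := hb t t2 x
    nlinarith
  have e1 : ∀ x ∈ D, Real.log (coc (hh t) x (bv 2) 2) = Real.log (1 + RR (ta t x) x.1) := by
    intro x hx
    rw [coc_hh, rep_of_mem hx, one_smul, coc_HH]
  have e2 : ∀ x ∈ D, RR (ta t x) x.1 - 2 * C ^ 2 * t ^ 4 ≤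
      Real.log (coc (hh t) x (bv 2) 2) := by
    intro x hx
    rw [e1 x hx]
    have h1 := abs_log_sub_le (hR x)
    rw [abs_le] at h1
    have h2 : RR (ta t x) x.1 ^ 2 ≤ (C * t ^ 2) ^ 2 := by
      have := pow_le_pow_left₀ (abs_nonneg _) (hb t t2 x) 2
      rwa [sq_abs] at this
    have h3 : (C * t ^ 2) ^ 2 = C ^ 2 * t ^ 4 := by ring
    rw [h3] at h2
    linarith [h1.1]
  have hRint : IntegrableOn (fun x : V => RR (ta t x) x.1) D volume :=
    integrableOn_D (continuous_RR t)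
  have hcint : IntegrableOn (fun _ : V => 2 * C ^ 2 * t ^ 4) D volume :=
    integrableOn_D continuous_const
  have hlint : IntegrableOn (fun x => Real.log (coc (hh t) x (bv 2) 2)) D volume := by
    have hc : Continuous (fun x => Real.log (1 + RR (ta t x) x.1)) := by
      refine (continuous_const.add (continuous_RR t)).log fun x => ?_
      have := hR x
      rw [abs_le] at this
      have : 0 < 1 + RR (ta t x) x.1 := by linarith
      exact this.ne'
    exact (integrableOn_D hc).congr_fun (fun x hx => (e1 x hx).symm) measurableSet_D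
  have hRint' : IntegrableOn (fun x : V => RR (ta t x) x.1 - 2 * C ^ 2 * t ^ 4) D volume :=
    hRint.sub hcint
  have h1 := setIntegral_mono_on hRint' hlint measurableSet_D e2
  rw [integral_sub hRint hcint, setIntegral_const, smul_eq_mul] at h1
  have h2 : ∫ x in D, RR (ta t x) x.1 = ∫ x : V, RR (ta t x) x.1 := by
    refine setIntegral_eq_integral_of_forall_compl_eq_zero fun x hx => RR_zero (fun hK => ?_) t
    exact hx (box_subset_D (K1_subset_box hK))
  have h3 : t ^ 2 * I ≤ ∫ x : V, Pp t x := by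
    rw [hIdef, ← integral_const_mul]
    refine integral_mono ?_ ?_ fun x => Pp_ge t2 x
    · exact (integrable_of_K1 continuous_Q0 fun x hx => Q0_zero hx).const_mul _
    · exact integrable_of_K1 (continuous_Pp t) fun x hx => Pp_zero hx
  rw [h2, integral_RR] at h1
  rw [setAverage_eq, smul_eq_mul, ← div_eq_inv_mul, le_div_iff₀ hvol]
  have h4 : κ * volume.real D = I := by rw [hκ]; field_simp
  have h5 : t ^ 4 * (4 * (C ^ 2 + 1)) ≤ κ * t ^ 2 := by
    have : t ^ 2 * (4 * (C ^ 2 + 1)) ≤ κ := by nlinarith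
    nlinarith [sq_nonneg t]
  have h6 : 2 * C ^ 2 * t ^ 4 ≤ κ / 2 * t ^ 2 := by
    nlinarith [pow_nonneg (sq_nonneg t) 2]
  have h7 : volume.real D * (2 * C ^ 2 * t ^ 4) ≤ volume.real D * (κ / 2 * t ^ 2) := by gcongr
  nlinarith

end Pool.Agent.Lib.MP_48de40_an
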