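import Pool.Agent.Lib.MP_48de40_an.Persist4

/-!
# Integrals over the manifold and the formula for the unstable exponent
-/

open MeasureTheory Set Filter Topology
open scoped ContDiff

namespace Pool.Agent.Lib.MP_48de40_an

theorem setIntegral_comp {F : V → V} {n : WithTop ℕ∞} (hF : VolDiffeo n F) {φ : V → ℝ}
    (hφ : ∀ (g : Gam) (x : V), φ (g • x) = φ x) : ∫ x in D, φ (F x) = ∫ x in D, φ x := by
  obtain ⟨G, hG, hGF, hFG⟩ := hF.inverse
  obtain ⟨α, hα⟩ := hF.lift
  let e : V ≃ₜ V := ⟨⟨F, G, hGF, hFG⟩, hF.smooth.continuous, hG.continuous⟩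
  have hme : MeasurableEmbedding F := e.measurableEmbedding
  have h1 : MeasurePreserving e.toMeasurableEquiv volume volume := hF.volume_preserving
  have h2 : MeasurePreserving e.toMeasurableEquiv.symm volume volume := h1.symm
  have h3 : IsFundamentalDomain Gam (F '' D) (volume : Measure V) :=
    isFundamentalDomain_D.image_of_equiv e.toEquiv h2.quasiMeasurePreserving α.symm.toEquiv
      (fun g x => by
        have := hα (α.symm g) x
        rw [MulEquiv.apply_symm_apply] at this
        exact this)
  rw [← hF.volume_preserving.setIntegral_image_emb hme]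
  exact h3.setIntegral_eq isFundamentalDomain_D hφ

theorem integrableOn_D {φ : V → ℝ} (hφ : Continuous φ) : IntegrableOn φ D volume :=
  (hφ.continuousOn.integrableOn_compact isCompact_K0).mono_set D_subset_K0

/-- The direction of the centre of the first factor. -/
def ez : V := ((0, 0, 1), (0, 0, 0))

theorem smul_add_ez (g : Gam) (x : V) (s : ℝ) : g • (x + s • ez) = g • x + s • ez := by
  simp only [smul_def, hm, emb, ez]
  ext <;> simp
  ring

theorem volDiffeo_ez (s : ℝ) : VolDiffeo 1 (fun x : V => x + s • ez) where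
  smooth := by fun_prop
  inverse := ⟨fun x => x - s • ez, by fun_prop, fun x => by simp, fun x => by simp⟩
  lift := ⟨MulEquiv.refl _, fun g x => (smul_add_ez g x s).symm⟩
  volume_preserving := measurePreserving_add_right _ _

theorem setIntegral_ez {φ : V → ℝ} (hφ : ∀ (g : Gam) (x : V), φ (g • x) = φ x) (s : ℝ) :
    ∫ x in D, φ (x + s • ez) = ∫ x in D, φ x :=
  setIntegral_comp (volDiffeo_ez s) hφ

theorem norm_ez : ‖ez‖ = 1 := by simp [ez, Prod.norm_def]

/-- The integral of a derivative along the centre vanishes. -/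
theorem setIntegral_fderiv_ez {φ : V → ℝ} (hφc : ContDiff ℝ 1 φ)
    (hφ : ∀ (g : Gam) (x : V), φ (g • x) = φ x) : ∫ x in D, fderiv ℝ φ x ez = 0 := by
  have hd : Continuous (fun x => fderiv ℝ φ x ez) :=
    (hφc.continuous_fderiv (by norm_num)).clm_apply continuous_const
  obtain ⟨C, hC⟩ := (isCompact_closedBall (0 : V) 4).exists_bound_of_continuousOn hd.continuousOn
  have key := hasDerivAt_integral_of_dominated_loc_of_deriv_le (μ := volume.restrict D)
    (F := fun (s : ℝ) (x : V) => φ (x + s • ez)) (x₀ := 0) (s := Metric.ball 0 1)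
    (F' := fun (s : ℝ) (x : V) => fderiv ℝ φ (x + s • ez) ez) (bound := fun _ => C)
    (Metric.ball_mem_nhds _ one_pos)
    (Eventually.of_forall fun s =>
      (hφc.continuous.comp (by fun_prop : Continuous fun x : V => x + s • ez)).aestronglyMeasurable)
    (by
      simp only [zero_smul, add_zero]
      exact integrableOn_D hφc.continuous)
    (hd.comp (by fun_prop : Continuous fun x : V => x + (0 : ℝ) • ez)).aestronglyMeasurable
    (by
      rw [ae_restrict_iff' measurableSet_D]
      refine Eventually.of_forall fun x hx s hs => ?_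
      apply hC
      have h1 : ‖x‖ ≤ 3 := by simpa [K0] using D_subset_K0 hx
      rw [mem_closedBall_zero_iff]
      rw [mem_ball_zero_iff] at hs
      calc ‖x + s • ez‖ ≤ ‖x‖ + ‖s • ez‖ := norm_add_le _ _
        _ = ‖x‖ + ‖s‖ := by rw [norm_smul, norm_ez, mul_one]
        _ ≤ 3 + 1 := add_le_add h1 hs.le
        _ = 4 := by norm_num)
    (by
      have : IsFiniteMeasure (volume.restrict D) := ⟨by simpa using volume_D_lt_top⟩
      exact integrable_const _)
    (Eventually.of_forall fun x s _ => by
      have h1 : HasDerivAt (fun s : ℝ => x + s • ez) ez s := by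
        have := ((hasDerivAt_id s).smul_const ez).const_add x
        simpa using this
      exact ((hφc.differentiable (by norm_num)) (x + s • ez)).hasFDerivAt.comp_hasDerivAt s h1)
  have h2 := key.2
  have h3 : (fun s : ℝ => ∫ x in D, φ (x + s • ez)) = fun _ => ∫ x in D, φ x := by
    funext s; exact setIntegral_ez hφ s
  rw [h3] at h2
  have h4 := h2.unique (hasDerivAt_const (0 : ℝ) _)
  simpa using h4

theorem jac_eq {F : V → V} {P : Splitting} {x : V} {v v' : E} {c : ℝ}
    (hr : LinearMap.range (P.u x).toLinearMap = Submodule.span ℝ {v}) (hv : v ≠ 0)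
    (hc : coc F x v = c • v') : jac F P x = |c| * ‖v'‖ / ‖v‖ := by
  have hn : 0 < ‖v‖ := norm_pos_iff.2 hv
  have : {r : ℝ | ∃ u ∈ LinearMap.range (P.u x).toLinearMap, ‖u‖ = 1 ∧ r = ‖coc F x u‖} =
      {|c| * ‖v'‖ / ‖v‖} := by
    ext r
    rw [Set.mem_ofPred_eq, Set.mem_singleton_iff, hr]
    constructor
    · rintro ⟨u, hu, hu1, rfl⟩
      obtain ⟨a, rfl⟩ := Submodule.mem_span_singleton.1 hu
      rw [norm_smul, Real.norm_eq_abs] at hu1
      have ha : |a| = ‖v‖⁻¹ := by
        field_simp
        exact hu1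
      rw [map_smul, hc, norm_smul, norm_smul, Real.norm_eq_abs, Real.norm_eq_abs, ha]
      field_simp
    · rintro rfl
      refine ⟨‖v‖⁻¹ • v, Submodule.smul_mem _ _ (Submodule.mem_span_singleton_self v), ?_, ?_⟩
      · rw [norm_smul, norm_inv, norm_norm, inv_mul_cancel₀ hn.ne']
      · rw [map_smul, hc, norm_smul, norm_smul, norm_inv, norm_norm, Real.norm_eq_abs]
        field_simp
  unfold jac
  rw [this, csSup_singleton]

/-- The formula for the unstable exponent: the coboundary term integrates to zero. -/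
theorem lamU_eq {F : V → V} (hF : VolDiffeo 1 F) {P : Splitting} {v : V → E} {c : V → ℝ}
    (hv : Continuous v) (hv1 : ∀ x, v x 2 = 1) (hvg : ∀ (g : Gam) (x : V), v (g • x) = v x)
    (hc : ∀ x, coc F x (v x) = c x • v (F x)) (hc0 : ∀ x, c x ≠ 0)
    (hr : ∀ x, LinearMap.range (P.u x).toLinearMap = Submodule.span ℝ {v x}) :
    lamU F P = ⨍ x in D, Real.log |c x| := by
  have hvn : ∀ x, 1 ≤ ‖v x‖ := by
    intro x
    have := abs_coord_le 2 (v x)
    rw [hv1] at this
    simpa using this
  have hv0 : ∀ x, v x ≠ 0 := fun x h => by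
    have := hvn x
    rw [h, norm_zero] at this
    linarith
  have hcc : ∀ x, c x = coc F x (v x) 2 := by
    intro x
    rw [hc, PiLp.smul_apply, hv1, smul_eq_mul, mul_one]
  have hccont : Continuous c := by
    have : c = fun x => pj 2 (coc F x (v x)) := funext hcc
    rw [this]
    exact (pj 2).continuous.comp ((continuous_coc hF.smooth).clm_apply hv)
  have hlogc : Continuous (fun x => Real.log |c x|) :=
    hccont.abs.log fun x => abs_ne_zero.2 (hc0 x)
  have hlogv : Continuous (fun x => Real.log ‖v x‖) :=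
    hv.norm.log fun x => (norm_pos_iff.2 (hv0 x)).ne'
  have e1 : ∀ x, Real.log (jac F P x) = Real.log |c x| + Real.log ‖v (F x)‖ -
      Real.log ‖v x‖ := by
    intro x
    have h1 : 0 < |c x| := abs_pos.2 (hc0 x)
    have h2 : 0 < ‖v (F x)‖ := norm_pos_iff.2 (hv0 _)
    have h3 : 0 < ‖v x‖ := norm_pos_iff.2 (hv0 _)
    rw [jac_eq (hr x) (hv0 x) (hc x), Real.log_div (by positivity) h3.ne',
      Real.log_mul h1.ne' h2.ne']
  unfold lamU
  rw [setAverage_eq, setAverage_eq]
  congr 1
  simp only [e1]
  rw [integral_sub, integral_add, setIntegral_comp (φ := fun x => Real.log ‖v x‖) hF]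
  · ring
  · intro g x
    simp only [hvg]
  · exact integrableOn_D hlogc
  · exact integrableOn_D (hlogv.comp hF.smooth.continuous)
  · exact (integrableOn_D hlogc).add (integrableOn_D (hlogv.comp hF.smooth.continuous))
  · exact integrableOn_D hlogv

end Pool.Agent.Lib.MP_48de40_an
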