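import Pool.Agent.Lib.MP_48de40_an.Defs

/-!
# The deck group and its fundamental domain
-/

open MeasureTheory Set Filter Topology
open scoped ContDiff

namespace Pool.Agent.Lib.MP_48de40_an

theorem contDiff_hm (p : V3) {n : WithTop ℕ∞} : ContDiff ℝ n (fun q : V3 => hm p q) := by
  unfold hm; fun_prop

theorem contDiff_smul (g : Gam) {n : WithTop ℕ∞} : ContDiff ℝ n (fun x : V => g • x) := by
  simp only [smul_def, hm]; fun_prop

instance : ContinuousConstSMul Gam V := ⟨fun g => (contDiff_smul g (n := 0)).continuous⟩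

instance : MeasurableConstSMul Gam V := ⟨fun g => (contDiff_smul g (n := 0)).continuous.measurable⟩

theorem measurePreserving_hm (p : V3) :
    MeasurePreserving (fun q : V3 => hm p q) volume volume := by
  have h1 : ∀ x : ℝ, MeasurePreserving (fun q : ℝ × ℝ =>
      (p.2.1 + q.1, p.2.2 + q.2 + p.1 * q.1 - p.2.1 * x)) (volume.prod volume)
        (volume.prod volume) := by
    intro x
    refine (measurePreserving_add_left (volume : Measure ℝ) p.2.1).skew_product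
      (g := fun a b => p.2.2 + b + p.1 * a - p.2.1 * x) ?_ ?_
    · exact (by fun_prop : Continuous (fun q : ℝ × ℝ =>
          p.2.2 + q.2 + p.1 * q.1 - p.2.1 * x)).measurable
    · refine Eventually.of_forall fun a => ?_
      have := (measurePreserving_add_left (volume : Measure ℝ)
          (p.2.2 + p.1 * a - p.2.1 * x)).map_eq
      have e : (fun b : ℝ => p.2.2 + b + p.1 * a - p.2.1 * x) =
          (fun b => p.2.2 + p.1 * a - p.2.1 * x + b) := by
        funext b; ring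
      change Measure.map (fun b : ℝ => p.2.2 + b + p.1 * a - p.2.1 * x) volume = volume
      rw [e, this]
  exact (measurePreserving_add_left (volume : Measure ℝ) p.1).skew_product
      (g := fun (a : ℝ) (b : ℝ × ℝ) => (p.2.1 + b.1, p.2.2 + b.2 + p.1 * b.1 - p.2.1 * a))
      (by
        exact (by fun_prop : Continuous (fun q : ℝ × ℝ × ℝ =>
          (p.2.1 + q.2.1, p.2.2 + q.2.2 + p.1 * q.2.1 - p.2.1 * q.1))).measurable)
      (Eventually.of_forall fun a => (h1 a).map_eq)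

theorem measurePreserving_smul' (g : Gam) :
    MeasurePreserving (fun x : V => g • x) volume volume :=
  (measurePreserving_hm (emb g).1).prod (measurePreserving_hm (emb g).2)

instance : SMulInvariantMeasure Gam V volume :=
  ⟨fun g _ hs => (measurePreserving_smul' g).measure_preimage hs.nullMeasurableSet⟩

instance : Countable Gam := by
  let φ : Gam → (ℤ × ℤ) × (ℤ × ℤ) × (ℤ × ℤ) := fun g =>
    ((g.a.re, g.a.im), (g.b.re, g.b.im), (g.c.re, g.c.im))
  have : Function.Injective φ := by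
    intro g h e
    simp only [φ, Prod.mk.injEq] at e
    ext <;> simp [e]
  exact this.countable

theorem inPar_shift (a : ℤ√2) (p q : ℝ) :
    InPar (s1 a + p) (s2 a + q) ↔
      (-(1 / 2) ≤ a.re + (p + q) / 2 ∧ a.re + (p + q) / 2 < 1 / 2) ∧
      (-(1 / 2) ≤ a.im + (p - q) / (2 * √2) ∧ a.im + (p - q) / (2 * √2) < 1 / 2) := by
  have h2 : √(2:ℝ) ≠ 0 := by positivity
  have e1 : (s1 a + p + (s2 a + q)) / 2 = a.re + (p + q) / 2 := by
    simp only [s1, s2]; ring
  have e2 : (s1 a + p - (s2 a + q)) / (2 * √2) = a.im + (p - q) / (2 * √2) := by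
    simp only [s1, s2]; field_simp; ring
  unfold InPar
  rw [e1, e2]
  tauto

theorem existsUnique_int (S : ℝ) : ∃! m : ℤ, -(1 / 2) ≤ m + S ∧ m + S < 1 / 2 := by
  refine ⟨-⌊S + 1 / 2⌋, ⟨?_, ?_⟩, ?_⟩
  · push_cast; linarith [Int.floor_le (S + 1 / 2)]
  · push_cast; linarith [Int.lt_floor_add_one (S + 1 / 2)]
  · rintro m ⟨h1, h2⟩
    have : ⌊S + 1 / 2⌋ = -m := by
      rw [Int.floor_eq_iff]
      push_cast
      constructor <;> linarith
    omega

theorem existsUnique_par (p q : ℝ) : ∃! a : ℤ√2, InPar (s1 a + p) (s2 a + q) := by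
  obtain ⟨m, hm, hm'⟩ := existsUnique_int ((p + q) / 2)
  obtain ⟨n, hn, hn'⟩ := existsUnique_int ((p - q) / (2 * √2))
  refine ⟨⟨m, n⟩, (inPar_shift _ _ _).2 ⟨hm, hn⟩, ?_⟩
  intro a ha
  obtain ⟨h1, h2⟩ := (inPar_shift _ _ _).1 ha
  ext
  · exact hm' _ h1
  · exact hn' _ h2

theorem smul_mem_D_iff (g : Gam) (x : V) : g • x ∈ D ↔
    InPar (s1 g.a + x.1.1) (s2 g.a + x.2.1) ∧ InPar (s1 g.b + x.1.2.1) (s2 g.b + x.2.2.1) ∧
    InPar (s1 g.c + (x.1.2.2 + s1 g.a * x.1.2.1 - s1 g.b * x.1.1))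
      (s2 g.c + (x.2.2.2 + s2 g.a * x.2.2.1 - s2 g.b * x.2.1)) := by
  have e1 : s1 g.c + (x.1.2.2 + s1 g.a * x.1.2.1 - s1 g.b * x.1.1) =
    s1 g.c + x.1.2.2 + s1 g.a * x.1.2.1 - s1 g.b * x.1.1 := by ring
  have e2 : s2 g.c + (x.2.2.2 + s2 g.a * x.2.2.1 - s2 g.b * x.2.1) =
    s2 g.c + x.2.2.2 + s2 g.a * x.2.2.1 - s2 g.b * x.2.1 := by ring
  rw [e1, e2]
  rfl

theorem existsUnique_smul_mem_D (x : V) : ∃! g : Gam, g • x ∈ D := by
  obtain ⟨a, ha, ha'⟩ := existsUnique_par x.1.1 x.2.1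
  obtain ⟨b, hb, hb'⟩ := existsUnique_par x.1.2.1 x.2.2.1
  obtain ⟨c, hc, hc'⟩ := existsUnique_par (x.1.2.2 + s1 a * x.1.2.1 - s1 b * x.1.1)
    (x.2.2.2 + s2 a * x.2.2.1 - s2 b * x.2.1)
  refine ⟨⟨a, b, c⟩, (smul_mem_D_iff _ _).2 ⟨ha, hb, hc⟩, ?_⟩
  rintro ⟨a1, b1, c1⟩ hg
  obtain ⟨h1, h2, h3⟩ := (smul_mem_D_iff _ _).1 hg
  obtain rfl := ha' _ h1
  obtain rfl := hb' _ h2
  obtain rfl := hc' _ h3
  rfl

theorem measurableSet_D : MeasurableSet D := by
  have h1 : ∀ f g : V → ℝ, Continuous f → Continuous g →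
      MeasurableSet {x : V | InPar (f x) (g x)} := by
    intro f g hf hg
    have : {x : V | InPar (f x) (g x)} = {x | -(1 / 2) ≤ (f x + g x) / 2} ∩
        ({x | (f x + g x) / 2 < 1 / 2} ∩ ({x | -(1 / 2) ≤ (f x - g x) / (2 * √2)} ∩
        {x | (f x - g x) / (2 * √2) < 1 / 2})) := by
      ext x; rfl
    rw [this]
    refine MeasurableSet.inter ?_ (MeasurableSet.inter ?_ (MeasurableSet.inter ?_ ?_))
    · exact measurableSet_le measurable_const (by fun_prop)
    · exact measurableSet_lt (by fun_prop) measurable_const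
    · exact measurableSet_le measurable_const (by fun_prop)
    · exact measurableSet_lt (by fun_prop) measurable_const
  exact (h1 _ _ (by fun_prop) (by fun_prop)).inter
    ((h1 _ _ (by fun_prop) (by fun_prop)).inter (h1 _ _ (by fun_prop) (by fun_prop)))

theorem isFundamentalDomain_D : IsFundamentalDomain Gam D (volume : Measure V) :=
  IsFundamentalDomain.mk' measurableSet_D.nullMeasurableSet existsUnique_smul_mem_D

theorem inPar_bound {p q : ℝ} (h : InPar p q) : |p| ≤ 3 ∧ |q| ≤ 3 := by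
  obtain ⟨h1, h2, h3, h4⟩ := h
  have h0 : (0:ℝ) < 2 * √2 := by positivity
  rw [le_div_iff₀ h0] at h3
  rw [div_lt_iff₀ h0] at h4
  have h5 : √(2:ℝ) ≤ 2 := by
    rw [Real.sqrt_le_left (by norm_num)]; norm_num
  constructor <;> rw [abs_le] <;> constructor <;> nlinarith

/-- A compact convex set containing the fundamental domain. -/
def K0 : Set V := Metric.closedBall 0 3

theorem D_subset_K0 : D ⊆ K0 := by
  intro x hx
  obtain ⟨h1, h2, h3⟩ := hx
  obtain ⟨a1, a2⟩ := inPar_bound h1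
  obtain ⟨b1, b2⟩ := inPar_bound h2
  obtain ⟨c1, c2⟩ := inPar_bound h3
  simp only [K0, Metric.mem_closedBall, dist_zero_right, Prod.norm_def, Real.norm_eq_abs]
  simp only [sup_le_iff]
  exact ⟨⟨a1, b1, c1⟩, a2, b2, c2⟩

theorem isCompact_K0 : IsCompact K0 := isCompact_closedBall _ _

/-- The open box around the origin, contained in the fundamental domain. -/
def box : Set V := {x | |x.1.1| < 1 / 2 ∧ |x.1.2.1| < 1 / 2 ∧ |x.1.2.2| < 1 / 2 ∧
  |x.2.1| < 1 / 2 ∧ |x.2.2.1| < 1 / 2 ∧ |x.2.2.2| < 1 / 2}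

theorem inPar_of_abs_lt {p q : ℝ} (hp : |p| < 1 / 2) (hq : |q| < 1 / 2) : InPar p q := by
  have h0 : (0:ℝ) < 2 * √2 := by positivity
  have h5 : 1 ≤ √(2:ℝ) := by
    rw [Real.one_le_sqrt]; norm_num
  rw [abs_lt] at hp hq
  refine ⟨by linarith, by linarith, ?_, ?_⟩
  · rw [le_div_iff₀ h0]; nlinarith
  · rw [div_lt_iff₀ h0]; nlinarith

theorem box_subset_D : box ⊆ D := by
  rintro x ⟨h1, h2, h3, h4, h5, h6⟩
  exact ⟨inPar_of_abs_lt h1 h4, inPar_of_abs_lt h2 h5, inPar_of_abs_lt h3 h6⟩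

theorem isOpen_box : IsOpen box := by
  have h : ∀ f : V → ℝ, Continuous f → IsOpen {x | |f x| < 1 / 2} := fun f hf =>
    isOpen_lt (by fun_prop) continuous_const
  exact (h (fun x => x.1.1) (by fun_prop)).inter ((h (fun x => x.1.2.1) (by fun_prop)).inter
    ((h (fun x => x.1.2.2) (by fun_prop)).inter ((h (fun x => x.2.1) (by fun_prop)).inter
    ((h (fun x => x.2.2.1) (by fun_prop)).inter (h (fun x => x.2.2.2) (by fun_prop))))))

instance haar2 : (volume : Measure (ℝ × ℝ)).IsAddHaarMeasure :=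
  Measure.prod.instIsAddHaarMeasure (volume : Measure ℝ) (volume : Measure ℝ)

instance haar3 : (volume : Measure V3).IsAddHaarMeasure :=
  Measure.prod.instIsAddHaarMeasure (volume : Measure ℝ) (volume : Measure (ℝ × ℝ))

instance haar6 : (volume : Measure V).IsAddHaarMeasure :=
  Measure.prod.instIsAddHaarMeasure (volume : Measure V3) (volume : Measure V3)

theorem volume_D_lt_top : volume D < ⊤ :=
  lt_of_le_of_lt (measure_mono D_subset_K0) isCompact_K0.measure_lt_top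

theorem volume_D_pos : 0 < volume D := by
  refine lt_of_lt_of_le (isOpen_box.measure_pos volume ⟨0, ?_⟩) (measure_mono box_subset_D)
  simp [box]

theorem smul_free (g : Gam) (x : V) (h : g • x = x) : g = 1 := by
  obtain ⟨g0, h0, h0'⟩ := existsUnique_smul_mem_D x
  have e1 : (g0 * g) • x ∈ D := by rw [mul_smul, h]; exact h0
  have := h0' _ e1
  exact mul_eq_left.1 this

theorem int_bound {a : ℤ√2} {B : ℝ} (h1 : |s1 a| ≤ B) (h2 : |s2 a| ≤ B) :
    |(a.re : ℝ)| ≤ B ∧ |(a.im : ℝ)| ≤ B := by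
  have h5 : 1 ≤ √(2:ℝ) := by
    rw [Real.one_le_sqrt]; norm_num
  simp only [s1, s2] at h1 h2
  rw [abs_le] at h1 h2
  have hB : 0 ≤ B := by linarith
  refine ⟨abs_le.2 ⟨by linarith, by linarith⟩, ?_⟩
  have h6 : |(a.im : ℝ) * √2| ≤ B := abs_le.2 ⟨by linarith, by linarith⟩
  rw [abs_mul, abs_of_nonneg (Real.sqrt_nonneg 2)] at h6
  nlinarith [abs_nonneg (a.im : ℝ)]

theorem finite_near (R : ℝ) : {g : Gam | ∃ x : V, ‖x‖ ≤ R ∧ ‖g • x‖ ≤ R}.Finite := by
  obtain ⟨N, hN⟩ := exists_int_gt (2 * R + 4 * R ^ 2)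
  let φ : Gam → (ℤ × ℤ) × (ℤ × ℤ) × (ℤ × ℤ) := fun g =>
    ((g.a.re, g.a.im), (g.b.re, g.b.im), (g.c.re, g.c.im))
  have hinj : Function.Injective φ := by
    intro g h e
    simp only [φ, Prod.mk.injEq] at e
    ext <;> simp [e]
  have hfin : (Set.Icc (((-N, -N), (-N, -N), (-N, -N)) : (ℤ × ℤ) × (ℤ × ℤ) × (ℤ × ℤ))
      ((N, N), (N, N), (N, N))).Finite := Set.finite_Icc _ _
  refine (hfin.preimage hinj.injOn).subset ?_
  rintro g ⟨x, hx, hgx⟩
  have hR : 0 ≤ R := le_trans (norm_nonneg _) hx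
  simp only [smul_def, hm, emb, Prod.norm_def, Real.norm_eq_abs, sup_le_iff] at hx hgx
  obtain ⟨⟨x1, x2, x3⟩, x4, x5, x6⟩ := hx
  obtain ⟨⟨g1, g2, g3⟩, g4, g5, g6⟩ := hgx
  have key : ∀ a b p q : ℝ, |p| ≤ R → |q| ≤ R → |a| ≤ 2 * R → |b| ≤ 2 * R →
      |a * p - b * q| ≤ 4 * R ^ 2 := by
    intro a b p q hp hq ha hb
    calc |a * p - b * q| ≤ |a * p| + |b * q| := abs_sub _ _
      _ = |a| * |p| + |b| * |q| := by rw [abs_mul, abs_mul]
      _ ≤ 2 * R * R + 2 * R * R := by gcongr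
      _ = 4 * R ^ 2 := by ring
  have ha1 : |s1 g.a| ≤ 2 * R := by
    rw [abs_le] at *; constructor <;> linarith
  have ha2 : |s2 g.a| ≤ 2 * R := by
    rw [abs_le] at *; constructor <;> linarith
  have hb1 : |s1 g.b| ≤ 2 * R := by
    rw [abs_le] at *; constructor <;> linarith
  have hb2 : |s2 g.b| ≤ 2 * R := by
    rw [abs_le] at *; constructor <;> linarith
  have k1 := key _ _ _ _ x2 x1 ha1 hb1
  have k2 := key _ _ _ _ x5 x4 ha2 hb2
  have hc1 : |s1 g.c| ≤ 2 * R + 4 * R ^ 2 := by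
    rw [abs_le] at *; constructor <;> linarith
  have hc2 : |s2 g.c| ≤ 2 * R + 4 * R ^ 2 := by
    rw [abs_le] at *; constructor <;> linarith
  have hR2 : 0 ≤ 4 * R ^ 2 := by positivity
  obtain ⟨i1, i2⟩ := int_bound (B := 2 * R + 4 * R ^ 2) (by linarith) (by linarith : |s2 g.a| ≤ _)
  obtain ⟨i3, i4⟩ := int_bound (B := 2 * R + 4 * R ^ 2) (by linarith) (by linarith : |s2 g.b| ≤ _)
  obtain ⟨i5, i6⟩ := int_bound hc1 hc2
  have fin : ∀ m : ℤ, |(m : ℝ)| ≤ 2 * R + 4 * R ^ 2 → -N ≤ m ∧ m ≤ N := by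
    intro m hm
    rw [abs_le] at hm
    constructor
    · have : (-N : ℝ) < m := by linarith
      exact_mod_cast this.le
    · have : (m : ℝ) < N := by linarith
      exact_mod_cast this.le
  simp only [φ, Set.mem_preimage, Set.mem_Icc, Prod.mk_le_mk]
  exact ⟨⟨⟨(fin _ i1).1, (fin _ i2).1⟩, ⟨(fin _ i3).1, (fin _ i4).1⟩, (fin _ i5).1, (fin _ i6).1⟩,
    ⟨(fin _ i1).2, (fin _ i2).2⟩, ⟨(fin _ i3).2, (fin _ i4).2⟩, (fin _ i5).2, (fin _ i6).2⟩

theorem isClosed_orbit {K : Set V} (hK : IsCompact K) : IsClosed (⋃ g : Gam, {x | g • x ∈ K}) := by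
  refine LocallyFinite.isClosed_iUnion ?_ ?_
  · intro x
    obtain ⟨R, hR⟩ := hK.isBounded.exists_norm_le
    refine ⟨Metric.closedBall x 1, Metric.closedBall_mem_nhds _ one_pos,
      (finite_near (max R (‖x‖ + 1))).subset ?_⟩
    rintro g ⟨y, hy1, hy2⟩
    refine ⟨y, ?_, (hR _ hy1).trans (le_max_left _ _)⟩
    refine le_trans ?_ (le_max_right _ _)
    rw [Metric.mem_closedBall, dist_eq_norm] at hy2
    calc ‖y‖ = ‖x + (y - x)‖ := by rw [add_sub_cancel]
      _ ≤ ‖x‖ + ‖y - x‖ := norm_add_le _ _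
      _ ≤ ‖x‖ + 1 := by gcongr
  · intro g
    exact hK.isClosed.preimage (continuous_const_smul g)

instance : ProperlyDiscontinuousSMul Gam V where
  finite_disjoint_inter_image := by
    intro K L hK hL
    obtain ⟨R, hR⟩ := hK.isBounded.exists_norm_le
    obtain ⟨R', hR'⟩ := hL.isBounded.exists_norm_le
    refine (finite_near (max R R')).subset ?_
    intro g hg
    obtain ⟨y, ⟨x, hx, rfl⟩, hy⟩ := hg
    exact ⟨x, (hR _ hx).trans (le_max_left _ _), (hR' _ hy).trans (le_max_right _ _)⟩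

end Pool.Agent.Lib.MP_48de40_an
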