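import Pool.Agent.Lib.MP_48de40_an.Crit2

/-!
# The local perturbation
-/

open MeasureTheory Set Filter Topology
open scoped ContDiff

namespace Pool.Agent.Lib.MP_48de40_an

/-- Squared distance to the axis. -/
def rr (p : V3) : ℝ := p.1 ^ 2 + p.2.1 ^ 2

/-- The radial coordinate centred on the circle of squared radius `1/8`. -/
noncomputable def uu (p : V3) : ℝ := rr p - 1 / 8

/-- Squared distance to the circle in the coordinates `(u, z)`. -/
noncomputable def ss (p : V3) : ℝ := uu p ^ 2 + p.2.2 ^ 2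

/-- The smooth profile: positive exactly for `s < 1/256`. -/
noncomputable def Ff (s : ℝ) : ℝ := expNegInvGlue (1 / 256 - s)

theorem contDiff_Ff {n : ℕ∞} : ContDiff ℝ n Ff := by
  unfold Ff
  exact expNegInvGlue.contDiff.comp (by fun_prop)

theorem Ff_zero {s : ℝ} (hs : 1 / 256 ≤ s) : Ff s = 0 :=
  expNegInvGlue.zero_of_nonpos (by linarith)

theorem Ff_pos {s : ℝ} (hs : s < 1 / 256) : 0 < Ff s :=
  expNegInvGlue.pos_of_pos (by linarith)

theorem Ff_nonneg (s : ℝ) : 0 ≤ Ff s := expNegInvGlue.nonneg _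

theorem expNegInvGlue_le_one (x : ℝ) : expNegInvGlue x ≤ 1 := by
  unfold expNegInvGlue
  split_ifs with h
  · norm_num
  · rw [Real.exp_le_one_iff]
    have : 0 < x⁻¹ := by
      rw [inv_pos]; exact not_le.1 h
    linarith

theorem Ff_le_one (s : ℝ) : Ff s ≤ 1 := expNegInvGlue_le_one _

/-- The angle of the poloidal rotation. -/
noncomputable def ph (τ : ℝ) (p : V3) : ℝ := τ * Ff (ss p)

/-- The rotated radial coordinate. -/
noncomputable def UU (τ : ℝ) (p : V3) : ℝ :=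
  uu p * Real.cos (ph τ p) - p.2.2 * Real.sin (ph τ p)

/-- The rotated height. -/
noncomputable def ZZ (τ : ℝ) (p : V3) : ℝ :=
  uu p * Real.sin (ph τ p) + p.2.2 * Real.cos (ph τ p)

/-- The radial factor. -/
noncomputable def kk (τ : ℝ) (p : V3) : ℝ := √((1 / 8 + UU τ p) / rr p)

/-- The toroidal angle. -/
noncomputable def be (τ : ℝ) (p : V3) : ℝ := ph τ p * uu p / rr p

/-- The poloidal rotation. -/
noncomputable def TT (τ : ℝ) (p : V3) : V3 := (kk τ p * p.1, kk τ p * p.2.1, ZZ τ p)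

/-- The toroidal rotation. -/
noncomputable def SS (τ : ℝ) (p : V3) : V3 :=
  (p.1 * Real.cos (be τ p) - p.2.1 * Real.sin (be τ p),
    p.1 * Real.sin (be τ p) + p.2.1 * Real.cos (be τ p), p.2.2)

theorem UU_sq_add_ZZ_sq (τ : ℝ) (p : V3) : UU τ p ^ 2 + ZZ τ p ^ 2 = ss p := by
  unfold UU ZZ ss
  linear_combination (uu p ^ 2 + p.2.2 ^ 2) * Real.sin_sq_add_cos_sq (ph τ p)

theorem rr_nonneg (p : V3) : 0 ≤ rr p := by unfold rr; positivity

theorem rr_eq (p : V3) : rr p = 1 / 8 + uu p := by unfold uu; ring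

theorem ph_zero {τ : ℝ} {p : V3} (h : 1 / 256 ≤ ss p) : ph τ p = 0 := by
  rw [ph, Ff_zero h, mul_zero]

theorem ss_of_rr_zero {p : V3} (h : rr p = 0) : 1 / 256 < ss p := by
  unfold ss uu
  rw [h]
  nlinarith [sq_nonneg p.2.2]

theorem rr_pos_of_ss {p : V3} (h : ss p ≤ 1 / 256) : 1 / 16 ≤ rr p := by
  have h1 : uu p ^ 2 ≤ 1 / 256 := by unfold ss at h; nlinarith [sq_nonneg p.2.2]
  have h2 : |uu p| ≤ 1 / 16 := by
    rw [← Real.sqrt_sq_eq_abs, Real.sqrt_le_left (by norm_num)]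
    norm_num at h1 ⊢; exact h1
  rw [rr_eq]
  rw [abs_le] at h2
  linarith

theorem UU_pos {τ : ℝ} {p : V3} (h : 0 < rr p) : 0 < 1 / 8 + UU τ p := by
  rcases le_or_gt (1 / 256) (ss p) with hs | hs
  · have : UU τ p = uu p := by unfold UU; rw [ph_zero hs]; simp
    rw [this, ← rr_eq]; exact h
  · have h1 := UU_sq_add_ZZ_sq τ p
    have h2 : UU τ p ^ 2 < 1 / 256 := by nlinarith [sq_nonneg (ZZ τ p)]
    nlinarith

theorem kk_sq {τ : ℝ} {p : V3} (h : 0 < rr p) : kk τ p ^ 2 * rr p = 1 / 8 + UU τ p := by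
  have := UU_pos (τ := τ) h
  rw [kk, Real.sq_sqrt (by positivity)]
  field_simp

theorem kk_pos {τ : ℝ} {p : V3} (h : 0 < rr p) : 0 < kk τ p := by
  have := UU_pos (τ := τ) h
  exact Real.sqrt_pos.2 (by positivity)

theorem TT_id {τ : ℝ} {p : V3} (h : 1 / 256 ≤ ss p) : TT τ p = p := by
  have h1 : UU τ p = uu p := by unfold UU; rw [ph_zero h]; simp
  have h2 : ZZ τ p = p.2.2 := by unfold ZZ; rw [ph_zero h]; simp
  unfold TT kk
  rw [h1, h2, ← rr_eq]
  rcases eq_or_ne (rr p) 0 with h0 | h0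
  · have hx : p.1 = 0 := by
      have : p.1 ^ 2 + p.2.1 ^ 2 = 0 := h0
      nlinarith [sq_nonneg p.1, sq_nonneg p.2.1]
    have hy : p.2.1 = 0 := by
      have : p.1 ^ 2 + p.2.1 ^ 2 = 0 := h0
      nlinarith [sq_nonneg p.1, sq_nonneg p.2.1]
    ext <;> simp [hx, hy]
  · rw [div_self h0, Real.sqrt_one]
    ext <;> simp

theorem SS_id {τ : ℝ} {p : V3} (h : 1 / 256 ≤ ss p) : SS τ p = p := by
  unfold SS be
  rw [ph_zero h]
  ext <;> simp

theorem rr_TT {τ : ℝ} {p : V3} (h : 0 < rr p) : rr (TT τ p) = 1 / 8 + UU τ p := by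
  rw [← kk_sq h]
  simp only [rr, TT]; ring

theorem uu_TT {τ : ℝ} {p : V3} (h : 0 < rr p) : uu (TT τ p) = UU τ p := by
  rw [uu, rr_TT h]; ring

theorem ss_TT {τ : ℝ} {p : V3} (h : 0 < rr p) : ss (TT τ p) = ss p := by
  rw [← UU_sq_add_ZZ_sq τ p, ss, uu_TT h]
  rfl

theorem TT_TT (τ : ℝ) (p : V3) : TT (-τ) (TT τ p) = p := by
  rcases eq_or_lt_of_le (rr_nonneg p) with h0 | h0
  · have h1 := (ss_of_rr_zero h0.symm).le
    rw [TT_id h1, TT_id h1]
  · have e1 : ph (-τ) (TT τ p) = -ph τ p := by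
      rw [ph, ss_TT h0, ph]; ring
    have e2 : UU (-τ) (TT τ p) = uu p := by
      rw [UU, e1, uu_TT h0, Real.cos_neg, Real.sin_neg]
      simp only [TT, UU, ZZ]
      linear_combination (uu p) * Real.sin_sq_add_cos_sq (ph τ p)
    have e3 : ZZ (-τ) (TT τ p) = p.2.2 := by
      rw [ZZ, e1, uu_TT h0, Real.cos_neg, Real.sin_neg]
      simp only [TT, UU, ZZ]
      linear_combination (p.2.2) * Real.sin_sq_add_cos_sq (ph τ p)
    have e4 : kk (-τ) (TT τ p) * kk τ p = 1 := by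
      have hU := UU_pos (τ := τ) h0
      rw [kk, e2, rr_TT h0, ← rr_eq, kk, ← Real.sqrt_mul (by positivity)]
      have : rr p / (1 / 8 + UU τ p) * ((1 / 8 + UU τ p) / rr p) = 1 := by
        rw [div_mul_div_comm, mul_comm (rr p), div_self (mul_ne_zero hU.ne' h0.ne')]
      rw [this, Real.sqrt_one]
    have e5 : TT (-τ) (TT τ p) = (kk (-τ) (TT τ p) * (kk τ p * p.1),
        kk (-τ) (TT τ p) * (kk τ p * p.2.1), ZZ (-τ) (TT τ p)) := rfl
    rw [e5, e3, ← mul_assoc, ← mul_assoc, e4]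
    ext <;> simp

theorem rr_SS (τ : ℝ) (p : V3) : rr (SS τ p) = rr p := by
  simp only [rr, SS]
  linear_combination (p.1 ^ 2 + p.2.1 ^ 2) * Real.sin_sq_add_cos_sq (be τ p)

theorem uu_SS (τ : ℝ) (p : V3) : uu (SS τ p) = uu p := by rw [uu, rr_SS, uu]

theorem ss_SS (τ : ℝ) (p : V3) : ss (SS τ p) = ss p := by
  rw [ss, uu_SS, ss]; rfl

theorem ph_SS (σ τ : ℝ) (p : V3) : ph σ (SS τ p) = ph σ p := by rw [ph, ss_SS, ph]

theorem SS_SS (τ : ℝ) (p : V3) : SS (-τ) (SS τ p) = p := by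
  have e1 : be (-τ) (SS τ p) = -be τ p := by
    rw [be, ph_SS, uu_SS, rr_SS, be, ph, ph]; ring
  have e2 : SS (-τ) (SS τ p) = ((SS τ p).1 * Real.cos (be τ p) + (SS τ p).2.1 *
      Real.sin (be τ p), -(SS τ p).1 * Real.sin (be τ p) + (SS τ p).2.1 * Real.cos (be τ p),
      p.2.2) := by
    rw [SS, e1, Real.cos_neg, Real.sin_neg]
    ext <;> simp [SS] <;> ring
  rw [e2]
  ext
  · simp only [SS]
    linear_combination (p.1) * Real.sin_sq_add_cos_sq (be τ p)
  · simp only [SS]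
    linear_combination (p.2.1) * Real.sin_sq_add_cos_sq (be τ p)
  · rfl

/-! ### Smoothness -/

theorem continuous_ss : Continuous ss := by unfold ss uu rr; fun_prop

theorem contDiff_rr {n : WithTop ℕ∞} : ContDiff ℝ n rr := by unfold rr; fun_prop

theorem contDiff_uu {n : WithTop ℕ∞} : ContDiff ℝ n uu := by unfold uu rr; fun_prop

theorem contDiff_ss {n : WithTop ℕ∞} : ContDiff ℝ n ss := by unfold ss uu rr; fun_prop

theorem contDiff_ph {n : ℕ∞} : ContDiff ℝ n (fun q : ℝ × V3 => ph q.1 q.2) :=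
  contDiff_fst.mul (contDiff_Ff.comp (contDiff_ss.comp contDiff_snd))

theorem contDiff_UU {n : ℕ∞} : ContDiff ℝ n (fun q : ℝ × V3 => UU q.1 q.2) := by
  have h1 := contDiff_ph (n := n)
  have h2 : ContDiff ℝ n (fun q : ℝ × V3 => uu q.2) := contDiff_uu.comp contDiff_snd
  have h3 : ContDiff ℝ n (fun q : ℝ × V3 => q.2.2.2) := by fun_prop
  exact (h2.mul h1.cos).sub (h3.mul h1.sin)

theorem contDiff_ZZ {n : ℕ∞} : ContDiff ℝ n (fun q : ℝ × V3 => ZZ q.1 q.2) := by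
  have h1 := contDiff_ph (n := n)
  have h2 : ContDiff ℝ n (fun q : ℝ × V3 => uu q.2) := contDiff_uu.comp contDiff_snd
  have h3 : ContDiff ℝ n (fun q : ℝ × V3 => q.2.2.2) := by fun_prop
  exact (h2.mul h1.sin).add (h3.mul h1.cos)

theorem contDiffAt_kk {n : ℕ∞} {q : ℝ × V3} (h : 0 < rr q.2) :
    ContDiffAt ℝ n (fun q : ℝ × V3 => kk q.1 q.2) q := by
  have h1 := (contDiff_UU (n := n)).contDiffAt (x := q)
  have h2 : ContDiffAt ℝ n (fun q : ℝ × V3 => rr q.2) q :=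
    (contDiff_rr.comp contDiff_snd).contDiffAt
  have h3 := UU_pos (τ := q.1) h
  refine ContDiffAt.sqrt ((contDiffAt_const.add h1).div h2 h.ne') ?_
  exact (div_pos h3 h).ne'

theorem contDiffAt_be {n : ℕ∞} {q : ℝ × V3} (h : 0 < rr q.2) :
    ContDiffAt ℝ n (fun q : ℝ × V3 => be q.1 q.2) q := by
  have h1 := (contDiff_ph (n := n)).contDiffAt (x := q)
  have h2 : ContDiffAt ℝ n (fun q : ℝ × V3 => rr q.2) q :=
    (contDiff_rr.comp contDiff_snd).contDiffAt
  have h3 : ContDiffAt ℝ n (fun q : ℝ × V3 => uu q.2) q :=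
    (contDiff_uu.comp contDiff_snd).contDiffAt
  exact (h1.mul h3).div h2 h.ne'

theorem eventually_ss {q : ℝ × V3} (h : 1 / 256 < ss q.2) :
    ∀ᶠ q' : ℝ × V3 in 𝓝 q, 1 / 256 < ss q'.2 :=
  (continuous_ss.comp continuous_snd).continuousAt.eventually_const_lt h

theorem contDiff_TT {n : ℕ∞} : ContDiff ℝ n (fun q : ℝ × V3 => TT q.1 q.2) := by
  rw [contDiff_iff_contDiffAt]
  intro q
  rcases eq_or_lt_of_le (rr_nonneg q.2) with h0 | h0
  · have h1 := ss_of_rr_zero h0.symm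
    have h2 : (fun q : ℝ × V3 => TT q.1 q.2) =ᶠ[𝓝 q] fun q => q.2 := by
      filter_upwards [eventually_ss h1] with q' hq'
      exact TT_id hq'.le
    exact contDiffAt_snd.congr_of_eventuallyEq h2
  · have h1 := contDiffAt_kk (n := n) h0
    have h2 := (contDiff_ZZ (n := n)).contDiffAt (x := q)
    have h3 : ContDiffAt ℝ n (fun q : ℝ × V3 => q.2.1) q := by fun_prop
    have h4 : ContDiffAt ℝ n (fun q : ℝ × V3 => q.2.2.1) q := by fun_prop
    exact (h1.mul h3).prodMk ((h1.mul h4).prodMk h2)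

theorem contDiff_SS {n : ℕ∞} : ContDiff ℝ n (fun q : ℝ × V3 => SS q.1 q.2) := by
  rw [contDiff_iff_contDiffAt]
  intro q
  rcases eq_or_lt_of_le (rr_nonneg q.2) with h0 | h0
  · have h1 := ss_of_rr_zero h0.symm
    have h2 : (fun q : ℝ × V3 => SS q.1 q.2) =ᶠ[𝓝 q] fun q => q.2 := by
      filter_upwards [eventually_ss h1] with q' hq'
      exact SS_id hq'.le
    exact contDiffAt_snd.congr_of_eventuallyEq h2
  · have h1 := contDiffAt_be (n := n) h0
    have h3 : ContDiffAt ℝ n (fun q : ℝ × V3 => q.2.1) q := by fun_prop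
    have h4 : ContDiffAt ℝ n (fun q : ℝ × V3 => q.2.2.1) q := by fun_prop
    have h5 : ContDiffAt ℝ n (fun q : ℝ × V3 => q.2.2.2) q := by fun_prop
    exact ((h3.mul h1.cos).sub (h4.mul h1.sin)).prodMk
      (((h3.mul h1.sin).add (h4.mul h1.cos)).prodMk h5)

end Pool.Agent.Lib.MP_48de40_an
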