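import Pool.Agent.Lib.MP_48de40_an.Local

/-!
# The local perturbation preserves the volume
-/

open MeasureTheory Set Filter Topology
open scoped ContDiff

namespace Pool.Agent.Lib.MP_48de40_an

/-- `ℝ³` as a space of functions. -/
def e3 : V3 ≃ₗ[ℝ] (Fin 3 → ℝ) where
  toFun p := ![p.1, p.2.1, p.2.2]
  invFun v := (v 0, v 1, v 2)
  map_add' p q := by ext i; fin_cases i <;> rfl
  map_smul' r p := by ext i; fin_cases i <;> rfl
  left_inv p := rfl
  right_inv v := by ext i; fin_cases i <;> rfl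

theorem det_V3 (L : V3 →L[ℝ] V3) : L.det =
    (L (1, 0, 0)).1 * ((L (0, 1, 0)).2.1 * (L (0, 0, 1)).2.2 -
      (L (0, 0, 1)).2.1 * (L (0, 1, 0)).2.2) -
    (L (0, 1, 0)).1 * ((L (1, 0, 0)).2.1 * (L (0, 0, 1)).2.2 -
      (L (0, 0, 1)).2.1 * (L (1, 0, 0)).2.2) +
    (L (0, 0, 1)).1 * ((L (1, 0, 0)).2.1 * (L (0, 1, 0)).2.2 -
      (L (0, 1, 0)).2.1 * (L (1, 0, 0)).2.2) := by
  have h1 : L.det = LinearMap.det ((e3 : V3 →ₗ[ℝ] (Fin 3 → ℝ)) ∘ₗ L.toLinearMap ∘ₗ
      (e3.symm : (Fin 3 → ℝ) →ₗ[ℝ] V3)) := (LinearMap.det_conj L.toLinearMap e3).symm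
  rw [h1, ← LinearMap.det_toMatrix', Matrix.det_fin_three]
  have e0 : e3.symm (Pi.single 0 1) = (1, 0, 0) := rfl
  have e1 : e3.symm (Pi.single 1 1) = (0, 1, 0) := rfl
  have e2 : e3.symm (Pi.single 2 1) = (0, 0, 1) := rfl
  have k0 : ∀ p : V3, e3 p 0 = p.1 := fun _ => rfl
  have k1 : ∀ p : V3, e3 p 1 = p.2.1 := fun _ => rfl
  have k2 : ∀ p : V3, e3 p 2 = p.2.2 := fun _ => rfl
  simp only [LinearMap.toMatrix'_apply, LinearMap.comp_apply, LinearEquiv.coe_coe, e0, e1, e2,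
    k0, k1, k2, ContinuousLinearMap.coe_coe]
  ring

theorem measurePreserving_of_det {T : V3 → V3} (hc : Continuous T) {S : V3 → V3}
    (hST : ∀ p, S (T p) = p) (hTS : ∀ p, T (S p) = p)
    (h : ∀ p, ∃ L : V3 →L[ℝ] V3, HasFDerivAt T L p ∧ L.det = 1) :
    MeasurePreserving T volume volume := by
  choose L hL hdet using h
  have key := map_withDensity_abs_det_fderiv_eq_addHaar (volume : Measure V3)
    (s := Set.univ) (f := T) (f' := L) nullMeasurableSet_univ
    (fun x _ => (hL x).hasFDerivWithinAt) (Function.LeftInverse.injective hST).injOn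
  have h1 : (fun x => ENNReal.ofReal |(L x).det|) = fun _ => 1 := by
    funext x; rw [hdet]; simp
  rw [h1, Measure.restrict_univ, Set.image_univ, (Function.RightInverse.surjective hTS).range_eq,
    Measure.restrict_univ] at key
  have h2 : (volume : Measure V3).withDensity (fun _ => 1) = volume := withDensity_one
  rw [h2] at key
  exact ⟨hc.measurable, key⟩

/-- The differential `dx`. -/
noncomputable def dX : V3 →L[ℝ] ℝ := ContinuousLinearMap.fst ℝ ℝ (ℝ × ℝ)
/-- The differential `dy`. -/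
noncomputable def dY : V3 →L[ℝ] ℝ :=
  (ContinuousLinearMap.fst ℝ ℝ ℝ).comp (ContinuousLinearMap.snd ℝ ℝ (ℝ × ℝ))
/-- The differential `dz`. -/
noncomputable def dZ : V3 →L[ℝ] ℝ :=
  (ContinuousLinearMap.snd ℝ ℝ ℝ).comp (ContinuousLinearMap.snd ℝ ℝ (ℝ × ℝ))

@[simp] theorem dX_apply (v : V3) : dX v = v.1 := rfl
@[simp] theorem dY_apply (v : V3) : dY v = v.2.1 := rfl
@[simp] theorem dZ_apply (v : V3) : dZ v = v.2.2 := rfl

theorem hX (p : V3) : HasFDerivAt (fun p : V3 => p.1) dX p := dX.hasFDerivAt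
theorem hY (p : V3) : HasFDerivAt (fun p : V3 => p.2.1) dY p := dY.hasFDerivAt
theorem hZ (p : V3) : HasFDerivAt (fun p : V3 => p.2.2) dZ p := dZ.hasFDerivAt

/-- The differential of `rr`. -/
noncomputable def dR (p : V3) : V3 →L[ℝ] ℝ := (2 * p.1) • dX + (2 * p.2.1) • dY

theorem hR (p : V3) : HasFDerivAt rr (dR p) p := by
  have h := ((hX p).pow 2).add ((hY p).pow 2)
  refine h.congr_fderiv ?_
  ext <;> simp [dR]

theorem hU (p : V3) : HasFDerivAt uu (dR p) p := (hR p).sub_const _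

/-- The differential of the angle. -/
theorem hPh (τ : ℝ) (p : V3) : ∃ a : ℝ, HasFDerivAt (ph τ)
    (a • ((2 * uu p) • dR p + (2 * p.2.2) • dZ)) p := by
  have h1 : HasFDerivAt ss ((2 * uu p) • dR p + (2 * p.2.2) • dZ) p := by
    have h := ((hU p).pow 2).add ((hZ p).pow 2)
    refine h.congr_fderiv ?_
    ext <;> simp
  have h2 : HasDerivAt Ff (deriv Ff (ss p)) (ss p) :=
    ((contDiff_Ff (n := 1)).differentiable (by norm_num) _).hasDerivAt
  refine ⟨τ * deriv Ff (ss p), ?_⟩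
  have h3 := (h2.comp_hasFDerivAt p h1).const_mul τ
  refine h3.congr_fderiv ?_
  rw [smul_smul]

theorem hBe (τ : ℝ) {p : V3} (h0 : 0 < rr p) : ∃ b c : ℝ, HasFDerivAt (be τ)
    (b • dR p + c • dZ) p := by
  obtain ⟨a, ha⟩ := hPh τ p
  have hi : HasFDerivAt (fun p => (rr p)⁻¹) ((-(rr p ^ 2)⁻¹) • dR p) p :=
    (hasDerivAt_inv h0.ne').comp_hasFDerivAt p (hR p)
  have h := (ha.mul (hU p)).mul hi
  have e : be τ = ph τ * uu * fun p => (rr p)⁻¹ := by
    funext q; simp [be, div_eq_mul_inv]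
  rw [e]
  refine ⟨((ph τ p + 2 * a * uu p ^ 2) * rr p - ph τ p * uu p) / rr p ^ 2,
    2 * a * p.2.2 * uu p / rr p, h.congr_fderiv ?_⟩
  ext <;> simp <;> field_simp <;> ring

theorem det_SS (τ : ℝ) (p : V3) : ∃ L : V3 →L[ℝ] V3, HasFDerivAt (SS τ) L p ∧ L.det = 1 := by
  rcases eq_or_lt_of_le (rr_nonneg p) with h0 | h0
  · have h1 := ss_of_rr_zero h0.symm
    refine ⟨ContinuousLinearMap.id ℝ V3, ?_, ?_⟩
    · refine (hasFDerivAt_id p).congr_of_eventuallyEq ?_
      filter_upwards [continuous_ss.continuousAt.eventually_const_lt h1] with q hq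
      exact SS_id hq.le
    · rw [det_V3]; simp
  · obtain ⟨b, c, hb⟩ := hBe τ h0
    have h := (((hX p).mul hb.cos).sub ((hY p).mul hb.sin)).prodMk
      ((((hX p).mul hb.sin).add ((hY p).mul hb.cos)).prodMk (hZ p))
    refine ⟨_, h, ?_⟩
    rw [det_V3]
    simp [dR]
    linear_combination Real.sin_sq_add_cos_sq (be τ p)

theorem det_TT (τ : ℝ) (p : V3) : ∃ L : V3 →L[ℝ] V3, HasFDerivAt (TT τ) L p ∧ L.det = 1 := by
  rcases eq_or_lt_of_le (rr_nonneg p) with h0 | h0
  · have h1 := ss_of_rr_zero h0.symm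
    refine ⟨ContinuousLinearMap.id ℝ V3, ?_, ?_⟩
    · refine (hasFDerivAt_id p).congr_of_eventuallyEq ?_
      filter_upwards [continuous_ss.continuousAt.eventually_const_lt h1] with q hq
      exact TT_id hq.le
    · rw [det_V3]; simp
  · obtain ⟨a, ha⟩ := hPh τ p
    set U := UU τ p with hUdef
    set Z := ZZ τ p with hZdef
    set k := kk τ p with hkdef
    have hk0 : 0 < k := kk_pos h0
    have hk2 : k ^ 2 * rr p = 1 / 8 + U := kk_sq h0
    set cs := Real.cos (ph τ p) with hcs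
    set sn := Real.sin (ph τ p) with hsn
    have hsc : sn ^ 2 + cs ^ 2 = 1 := Real.sin_sq_add_cos_sq (ph τ p)
    have hUU : HasFDerivAt (UU τ) ((cs - Z * (2 * uu p * a)) • dR p +
        (-sn - Z * (2 * p.2.2 * a)) • dZ) p := by
      have h := ((hU p).mul ha.cos).sub ((hZ p).mul ha.sin)
      refine h.congr_fderiv ?_
      rw [hZdef, ZZ]
      ext <;> simp [dR] <;> ring
    have hZZ : HasFDerivAt (ZZ τ) ((sn + U * (2 * uu p * a)) • dR p +
        (cs + U * (2 * p.2.2 * a)) • dZ) p := by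
      have h := ((hU p).mul ha.sin).add ((hZ p).mul ha.cos)
      refine h.congr_fderiv ?_
      rw [hUdef, UU]
      ext <;> simp [dR] <;> ring
    have hi : HasFDerivAt (fun p => (rr p)⁻¹) ((-(rr p ^ 2)⁻¹) • dR p) p :=
      (hasDerivAt_inv h0.ne').comp_hasFDerivAt p (hR p)
    have hw0 : (1 / 8 + UU τ p) * (rr p)⁻¹ = k ^ 2 := by
      rw [← hUdef, ← hk2]; field_simp
    have hkk : HasFDerivAt (kk τ)
        ((((cs - Z * (2 * uu p * a)) * rr p - (1 / 8 + U)) / (2 * k * rr p ^ 2)) • dR p +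
        ((-sn - Z * (2 * p.2.2 * a)) / (2 * k * rr p)) • dZ) p := by
      have h := ((hUU.const_add (1 / 8)).mul hi).sqrt (by
        show (1 / 8 + UU τ p) * (rr p)⁻¹ ≠ 0
        rw [hw0]; positivity)
      have e : kk τ = fun q => √(((fun x => 1 / 8 + UU τ x) * fun p => (rr p)⁻¹) q) := by
        funext q; simp [kk, div_eq_mul_inv]
      rw [e]
      refine h.congr_fderiv ?_
      have hs : √(((fun x => 1 / 8 + UU τ x) * fun p => (rr p)⁻¹) p) = k := by
        rw [hkdef, e]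
      rw [hs, ← hUdef]
      ext <;> simp [dR] <;> field_simp <;> ring
    have h := (hkk.mul (hX p)).prodMk ((hkk.mul (hY p)).prodMk hZZ)
    refine ⟨_, h, ?_⟩
    rw [det_V3]
    simp [dR]
    rw [← hkdef]
    have h8 : (8⁻¹ : ℝ) = 1 / 8 := by norm_num
    rw [h8]
    have hu : U * cs + Z * sn = uu p := by
      rw [hUdef, hZdef, UU, ZZ]
      linear_combination (uu p) * hsc
    have hz : Z * cs - U * sn = p.2.2 := by
      rw [hUdef, hZdef, UU, ZZ]
      linear_combination (p.2.2) * hsc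
    have hkr : 2 * k * (((cs - Z * (2 * uu p * a)) * rr p - (1 / 8 + U)) / (2 * k * rr p ^ 2)) *
        rr p = (cs - Z * (2 * uu p * a)) - k ^ 2 := by
      rw [← hk2]; field_simp
    have hkz : 2 * k * ((-sn - Z * (2 * p.2.2 * a)) / (2 * k * rr p)) * rr p =
        -sn - Z * (2 * p.2.2 * a) := by field_simp
    have hrr : rr p = p.1 ^ 2 + p.2.1 ^ 2 := rfl
    set kr := ((cs - Z * (2 * uu p * a)) * rr p - (1 / 8 + U)) / (2 * k * rr p ^ 2)
    set kz := (-sn - Z * (2 * p.2.2 * a)) / (2 * k * rr p)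
    linear_combination (cs + U * (2 * p.2.2 * a)) * hkr - (sn + U * (2 * uu p * a)) * hkz + hsc +
      2 * a * p.2.2 * hu - 2 * a * uu p * hz -
      (2 * k * kr * (cs + U * (2 * p.2.2 * a)) - 2 * k * kz * (sn + U * (2 * uu p * a))) * hrr

theorem continuous_TT (τ : ℝ) : Continuous (TT τ) := by
  have h1 : Continuous (Function.uncurry TT) := (contDiff_TT (n := 0)).continuous
  exact h1.uncurry_left τ

theorem continuous_SS (τ : ℝ) : Continuous (SS τ) := by
  have h1 : Continuous (Function.uncurry SS) := (contDiff_SS (n := 0)).continuous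
  exact h1.uncurry_left τ

theorem TT_TT' (τ : ℝ) (p : V3) : TT τ (TT (-τ) p) = p := by
  have := TT_TT (-τ) p
  rwa [neg_neg] at this

theorem SS_SS' (τ : ℝ) (p : V3) : SS τ (SS (-τ) p) = p := by
  have := SS_SS (-τ) p
  rwa [neg_neg] at this

theorem measurePreserving_TT (τ : ℝ) : MeasurePreserving (TT τ) volume volume :=
  measurePreserving_of_det (continuous_TT τ) (TT_TT τ) (TT_TT' τ) (det_TT τ)

theorem measurePreserving_SS (τ : ℝ) : MeasurePreserving (SS τ) volume volume :=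
  measurePreserving_of_det (continuous_SS τ) (SS_SS τ) (SS_SS' τ) (det_SS τ)

end Pool.Agent.Lib.MP_48de40_an
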