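import Pool.Agent.Lib.MP_48de40_an.LocalDet

/-!
# The local perturbation on `V`
-/

open MeasureTheory Set Filter Topology
open scoped ContDiff

namespace Pool.Agent.Lib.MP_48de40_an

/-- Squared norm on `ℝ³`. -/
def nn (p : V3) : ℝ := p.1 ^ 2 + p.2.1 ^ 2 + p.2.2 ^ 2

/-- The cutoff in the second factor. -/
noncomputable def ch (p : V3) : ℝ := expNegInvGlue (1 / 16 - nn p)

theorem contDiff_ch {n : ℕ∞} : ContDiff ℝ n ch := by
  unfold ch nn
  exact expNegInvGlue.contDiff.comp (by fun_prop)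

theorem ch_zero {p : V3} (h : 1 / 16 ≤ nn p) : ch p = 0 :=
  expNegInvGlue.zero_of_nonpos (by linarith)

theorem ch_nonneg (p : V3) : 0 ≤ ch p := expNegInvGlue.nonneg _

theorem ch_le_one (p : V3) : ch p ≤ 1 := expNegInvGlue_le_one _

/-- The support of the perturbation. -/
def K1 : Set V := {x | ss x.1 ≤ 1 / 256 ∧ nn x.2 ≤ 1 / 16}

theorem continuous_nn : Continuous nn := by unfold nn; fun_prop

theorem isClosed_K1 : IsClosed K1 :=
  (isClosed_le (continuous_ss.comp continuous_fst) continuous_const).inter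
    (isClosed_le (continuous_nn.comp continuous_snd) continuous_const)

theorem abs_lt_half {a : ℝ} (h : a ^ 2 < 1 / 4) : |a| < 1 / 2 := by
  rw [abs_lt]; constructor <;> nlinarith

theorem K1_subset_box : K1 ⊆ box := by
  rintro x ⟨h1, h2⟩
  have e1 : uu x.1 ^ 2 + x.1.2.2 ^ 2 ≤ 1 / 256 := h1
  have e2 : uu x.1 ≤ 1 / 16 := by nlinarith [sq_nonneg x.1.2.2]
  have e3 : x.1.1 ^ 2 + x.1.2.1 ^ 2 ≤ 3 / 16 := by
    have : rr x.1 = 1 / 8 + uu x.1 := rr_eq _
    have h3 : rr x.1 = x.1.1 ^ 2 + x.1.2.1 ^ 2 := rfl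
    linarith
  have e4 : x.2.1 ^ 2 + x.2.2.1 ^ 2 + x.2.2.2 ^ 2 ≤ 1 / 16 := h2
  refine ⟨abs_lt_half ?_, abs_lt_half ?_, abs_lt_half ?_, abs_lt_half ?_, abs_lt_half ?_,
    abs_lt_half ?_⟩ <;>
  nlinarith [sq_nonneg x.1.1, sq_nonneg x.1.2.1, sq_nonneg x.1.2.2, sq_nonneg x.2.1,
    sq_nonneg x.2.2.1, sq_nonneg x.2.2.2, sq_nonneg (uu x.1)]

theorem isCompact_K1 : IsCompact K1 :=
  isCompact_K0.of_isClosed_subset isClosed_K1
    ((K1_subset_box.trans box_subset_D).trans D_subset_K0)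

theorem TT_of_ph {τ : ℝ} {p : V3} (h : ph τ p = 0) : TT τ p = p := by
  have h1 : UU τ p = uu p := by unfold UU; rw [h]; simp
  have h2 : ZZ τ p = p.2.2 := by unfold ZZ; rw [h]; simp
  unfold TT kk
  rw [h1, h2, ← rr_eq]
  rcases eq_or_ne (rr p) 0 with h0 | h0
  · have hx : p.1 = 0 := by
      have : p.1 ^ 2 + p.2.1 ^ 2 = 0 := h0
      nlinarith [sq_nonneg p.1, sq_nonneg p.2.1]
    have hy : p.2.1 = 0 := by
      have : p.1 ^ 2 + p.2.1 ^ 2 = 0 := h0
      nlinarith [sq_nonneg p.1, sq_nonneg p.2.1]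
    ext <;> simp [hx, hy]
  · rw [div_self h0, Real.sqrt_one]
    ext <;> simp

theorem SS_of_ph {τ : ℝ} {p : V3} (h : ph τ p = 0) : SS τ p = p := by
  unfold SS be
  rw [h]
  ext <;> simp

attribute [local irreducible] TT SS

/-- The effective time at a point. -/
noncomputable def ta (t : ℝ) (x : V) : ℝ := t * ch x.2

/-- The local perturbation. -/
noncomputable def HH (t : ℝ) (x : V) : V := (TT (ta t x) (SS (ta t x) x.1), x.2)

/-- The inverse of the local perturbation. -/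
noncomputable def HI (t : ℝ) (x : V) : V := (SS (-ta t x) (TT (-ta t x) x.1), x.2)

theorem HI_HH (t : ℝ) (x : V) : HI t (HH t x) = x := by
  have : ta t (HH t x) = ta t x := rfl
  unfold HI
  rw [this]
  simp only [HH, TT_TT, SS_SS]

theorem HH_HI (t : ℝ) (x : V) : HH t (HI t x) = x := by
  have : ta t (HI t x) = ta t x := rfl
  unfold HH
  rw [this]
  simp only [HI, TT_TT', SS_SS']

theorem contDiff_ta {n : ℕ∞} : ContDiff ℝ n (fun q : ℝ × V => ta q.1 q.2) :=
  contDiff_fst.mul (contDiff_ch.comp (contDiff_snd.comp contDiff_snd))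

theorem contDiff_HH {n : ℕ∞} : ContDiff ℝ n (fun q : ℝ × V => HH q.1 q.2) := by
  have h1 := contDiff_ta (n := n)
  have h2 : ContDiff ℝ n (fun q : ℝ × V => q.2.1) := by fun_prop
  have h3 : ContDiff ℝ n (fun q : ℝ × V => q.2.2) := by fun_prop
  have h4 : ContDiff ℝ n (fun q : ℝ × V => SS (ta q.1 q.2) q.2.1) :=
    (contDiff_SS (n := n)).comp (h1.prodMk h2)
  have h5 : ContDiff ℝ n (fun q : ℝ × V => TT (ta q.1 q.2) (SS (ta q.1 q.2) q.2.1)) :=
    (contDiff_TT (n := n)).comp (h1.prodMk h4)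
  exact h5.prodMk h3

theorem contDiff_HI {n : ℕ∞} : ContDiff ℝ n (fun q : ℝ × V => HI q.1 q.2) := by
  have h1 := (contDiff_ta (n := n)).neg
  have h2 : ContDiff ℝ n (fun q : ℝ × V => q.2.1) := by fun_prop
  have h3 : ContDiff ℝ n (fun q : ℝ × V => q.2.2) := by fun_prop
  have h4 : ContDiff ℝ n (fun q : ℝ × V => TT (-ta q.1 q.2) q.2.1) :=
    (contDiff_TT (n := n)).comp (h1.prodMk h2)
  have h5 : ContDiff ℝ n (fun q : ℝ × V => SS (-ta q.1 q.2) (TT (-ta q.1 q.2) q.2.1)) :=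
    (contDiff_SS (n := n)).comp (h1.prodMk h4)
  exact h5.prodMk h3

theorem ph_ta_zero {x : V} (hx : x ∉ K1) (t : ℝ) : ph (ta t x) x.1 = 0 := by
  by_cases h : ss x.1 ≤ 1 / 256
  · have h2 : 1 / 16 ≤ nn x.2 := by
      by_contra h3
      exact hx ⟨h, (not_le.1 h3).le⟩
    rw [ph, ta, ch_zero h2]; simp
  · exact ph_zero (not_le.1 h).le

theorem ph_neg (τ : ℝ) (p : V3) : ph (-τ) p = -ph τ p := by rw [ph, ph]; ring

theorem HH_id {x : V} (hx : x ∉ K1) (t : ℝ) : HH t x = x := by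
  have h := ph_ta_zero hx t
  unfold HH
  rw [SS_of_ph h, TT_of_ph h]

theorem HI_id {x : V} (hx : x ∉ K1) (t : ℝ) : HI t x = x := by
  have h := ph_ta_zero hx t
  have h' : ph (-ta t x) x.1 = 0 := by rw [ph_neg, h, neg_zero]
  unfold HI
  rw [TT_of_ph h', SS_of_ph h']

theorem ss_TT' (τ : ℝ) (p : V3) : ss (TT τ p) = ss p := by
  rcases eq_or_lt_of_le (rr_nonneg p) with h0 | h0
  · rw [TT_id (ss_of_rr_zero h0.symm).le]
  · exact ss_TT h0

theorem HH_mem_K1 {x : V} (hx : x ∈ K1) (t : ℝ) : HH t x ∈ K1 := by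
  refine ⟨?_, hx.2⟩
  change ss (TT (ta t x) (SS (ta t x) x.1)) ≤ 1 / 256
  rw [ss_TT', ss_SS]
  exact hx.1

theorem HI_mem_K1 {x : V} (hx : x ∈ K1) (t : ℝ) : HI t x ∈ K1 := by
  refine ⟨?_, hx.2⟩
  change ss (SS (-ta t x) (TT (-ta t x) x.1)) ≤ 1 / 256
  rw [ss_SS, ss_TT']
  exact hx.1

theorem HH_mem_D {x : V} (hx : x ∈ D) (t : ℝ) : HH t x ∈ D := by
  by_cases h : x ∈ K1
  · exact box_subset_D (K1_subset_box (HH_mem_K1 h t))
  · rw [HH_id h]; exact hx

theorem HI_mem_D {x : V} (hx : x ∈ D) (t : ℝ) : HI t x ∈ D := by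
  by_cases h : x ∈ K1
  · exact box_subset_D (K1_subset_box (HI_mem_K1 h t))
  · rw [HI_id h]; exact hx

theorem measurePreserving_HH (t : ℝ) : MeasurePreserving (HH t) volume volume := by
  have h1 : ∀ τ : ℝ, MeasurePreserving (fun p => TT τ (SS τ p)) volume volume := fun τ =>
    (measurePreserving_TT τ).comp (measurePreserving_SS τ)
  have hcont : Continuous (fun q : V3 × V3 => TT (t * ch q.1) (SS (t * ch q.1) q.2)) := by
    have := (contDiff_HH (n := 0)).continuous.comp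
      (by fun_prop : Continuous fun q : V3 × V3 => (t, ((q.2, q.1) : V)))
    exact this.fst
  have h2 : MeasurePreserving (fun q : V3 × V3 => (id q.1, TT (t * ch q.1) (SS (t * ch q.1) q.2)))
      (volume.prod volume) (volume.prod volume) :=
    (MeasurePreserving.id (volume : Measure V3)).skew_product
      (g := fun a b => TT (t * ch a) (SS (t * ch a) b)) hcont.measurable
      (Eventually.of_forall fun a => (h1 (t * ch a)).map_eq)
  have h3 : MeasurePreserving (Prod.swap : V3 × V3 → V3 × V3) (volume.prod volume)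
      (volume.prod volume) := Measure.measurePreserving_swap
  exact (h3.comp h2).comp h3

end Pool.Agent.Lib.MP_48de40_an
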