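import Pool.Agent.Lib.MP_48de40_an.Gain3

/-!
# Assembly of the counterexample
-/

open MeasureTheory Set Filter Topology
open scoped ContDiff

namespace Pool.Agent.Lib.MP_48de40_an

theorem diag_bv {d : Fin 6 → ℝ} (j : Fin 6) : diag d (bv j) = d j • bv j := by
  ext i
  rw [diag_apply, PiLp.smul_apply, bv_apply]
  split_ifs with hi
  · rw [hi]; simp
  · simp

theorem diag_comp_pr (d : Fin 6 → ℝ) (j : Fin 6) :
    (diag d).comp (pr (pj j) (bv j)) = (pr (pj j) (bv j)).comp (diag d) := by
  ext1 v
  rw [ContinuousLinearMap.comp_apply, ContinuousLinearMap.comp_apply, pr_apply, pr_apply,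
    map_smul, diag_bv, smul_smul, pj_apply, pj_apply, pj_apply, diag_apply]
  congr 1
  ring

theorem pj_bv_ne (j : Fin 6) : pj j (bv j) ≠ 0 := by simp [bv_apply]

theorem finrank_pr {w : E →L[ℝ] ℝ} {v : E} (h : w v ≠ 0) :
    Module.finrank ℝ (LinearMap.range (pr w v).toLinearMap) = 1 := by
  rw [range_pr h]
  refine finrank_span_singleton fun h0 => h ?_
  rw [h0, map_zero]

/-- The model automorphism is partially hyperbolic with a smooth splitting. -/
theorem isPH_mf {l : ℝ} (hl : 1 < l) {n : WithTop ℕ∞} : IsPH n (mf l) P0 := by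
  have hl0 : 0 < l := by linarith
  have hl2 : 1 < l ^ 2 := one_lt_pow₀ hl (by norm_num)
  have hc : ∀ x, coc (mf l) x = diag (dl l) := coc_mf hl0.ne'
  have ps := pr_pr (pj_bv_ne 5)
  have pu := pr_pr (pj_bv_ne 2)
  have su : (pr (pj 5) (bv 5)).comp (pr (pj 2) (bv 2)) = 0 :=
    pr_comp_zero (by simp [bv_apply])
  have us : (pr (pj 2) (bv 2)).comp (pr (pj 5) (bv 5)) = 0 :=
    pr_comp_zero (by simp [bv_apply])
  have cs := diag_comp_pr (dl l) 5
  have cu := diag_comp_pr (dl l) 2
  refine ⟨⟨contDiff_const, contDiff_const, contDiff_const, fun x => ?_, fun x => ps, fun x => ?_,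
    fun x => pu, fun x => su, fun x => us, fun _ _ => rfl, fun _ _ => rfl, fun _ _ => rfl,
    fun x => ?_, fun x => ?_, fun x => ?_, fun x => ?_, fun x => ?_⟩,
    (l ^ 2)⁻¹, l⁻¹, l, l ^ 2, by positivity, inv_lt_one_of_one_lt₀ hl2, hl2, ?_, by nlinarith,
    fun x v => ?_, fun x v => ?_, fun x v => ?_, fun x v => ?_⟩
  · simp only [P0]; abel
  · simp only [P0, ContinuousLinearMap.sub_comp, ContinuousLinearMap.comp_sub, ps, pu, su, us,
      ContinuousLinearMap.id_comp, ContinuousLinearMap.comp_id]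
    abel
  · rw [hc]; exact cs
  · rw [hc]
    simp only [P0, ContinuousLinearMap.sub_comp, ContinuousLinearMap.comp_sub, cs, cu,
      ContinuousLinearMap.id_comp, ContinuousLinearMap.comp_id]
  · rw [hc]; exact cu
  · exact finrank_pr (pj_bv_ne 5)
  · exact finrank_pr (pj_bv_ne 2)
  · exact inv_strictAnti₀ hl0 (by nlinarith)
  · rw [hc]
    refine norm_diag_le (by positivity) fun i => ?_
    rcases eq_or_ne i 5 with rfl | hi
    · left
      rw [show dl l 5 = (l ^ 2)⁻¹ from rfl, abs_of_pos (by positivity)]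
    · right
      simp [P0, pr_apply, bv_apply, hi]
  · rw [hc]
    refine le_norm_diag (by positivity) fun i => ?_
    rcases eq_or_ne i 5 with rfl | hi
    · right
      simp [P0, pr_apply, bv_apply]
    · left; exact le_dl hl i hi
  · rw [hc]
    refine norm_diag_le hl0.le fun i => ?_
    rcases eq_or_ne i 2 with rfl | hi
    · right
      simp [P0, pr_apply, bv_apply]
    · left; exact dl_le hl i hi
  · rw [hc]
    refine le_norm_diag (by positivity) fun i => ?_
    rcases eq_or_ne i 2 with rfl | hi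
    · left
      rw [dl_two, abs_of_pos (by positivity)]
    · right
      simp [P0, pr_apply, bv_apply, hi]

theorem lamU_mf (k : ℕ) (hk : k ≠ 0) : lamU (mf (lam k)) P0 = 2 * Real.log (lam k) := by
  have hl := one_lt_lam hk
  have h0 : 0 < lam k := by linarith
  have hV : VolDiffeo 1 (mf (lam k)) := (volDiffeo_mf k).of_le (by norm_num)
  rw [lamU_eq hV (v := fun _ => bv 2) (c := fun _ => lam k ^ 2) continuous_const
    (fun x => by simp [bv_apply]) (fun g x => rfl) (fun x => ?_) (fun x => by positivity)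
    (fun x => ?_)]
  · rw [setAverage_const volume_D_pos.ne' volume_D_lt_top.ne, abs_of_pos (by positivity),
      Real.log_pow]
    push_cast; ring
  · rw [coc_mf h0.ne', diag_bv, dl_two]
  · exact range_pr (pj_bv_ne 2)

theorem hh_zero : hh 0 = id := by
  funext x
  have h : ∀ y : V, HH 0 y = y := by
    intro y
    have hp : ph (ta 0 y) y.1 = 0 := by simp [ph, ta]
    unfold HH
    rw [SS_of_ph hp, TT_of_ph hp]
  unfold hh ext
  rw [h, inv_smul_smul]; rfl

theorem log_sub_ge {q e : ℝ} (hq : 3 / 4 ≤ q) (he0 : 0 ≤ e) (he : e ≤ 1 / 4) :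
    Real.log q - 2 * e ≤ Real.log (q - e) := by
  have h1 : 0 < q := by linarith
  have h2 : 1 / 2 ≤ q - e := by linarith
  have h3 : 0 < q - e := by linarith
  have h4 : Real.log (q - e) - Real.log q = Real.log ((q - e) / q) := by
    rw [Real.log_div h3.ne' h1.ne']
  have h5 := Real.one_sub_inv_le_log_of_pos (div_pos h3 h1)
  have h6 : 1 - ((q - e) / q)⁻¹ = -(e / (q - e)) := by
    rw [inv_div]; field_simp; ring
  have h7 : e / (q - e) ≤ 2 * e := by
    rw [div_le_iff₀ h3]; nlinarith
  linarith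

end Pool.Agent.Lib.MP_48de40_an
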