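import Pool.Agent.Lib.MP_48de40_an.Extend

/-!
# The model automorphism descends to the manifold
-/

open MeasureTheory Set Filter Topology
open scoped ContDiff

namespace Pool.Agent.Lib.MP_48de40_an

/-- The unit `3 + 2√2`. -/
def unt : ℤ√2 := ⟨3, 2⟩

/-- The unit `3 - 2√2`. -/
def unt' : ℤ√2 := ⟨3, -2⟩

theorem unt_mul : unt * unt' = 1 := by decide

/-- The expansion factor `(3 + 2√2)^k`. -/
noncomputable def lam (k : ℕ) : ℝ := (3 + 2 * √2) ^ k

theorem s1_pow (a : ℤ√2) (k : ℕ) : s1 (a ^ k) = s1 a ^ k := by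
  induction k with
  | zero => simp
  | succ n ih => rw [pow_succ, s1_mul, ih, pow_succ]

theorem s2_pow (a : ℤ√2) (k : ℕ) : s2 (a ^ k) = s2 a ^ k := by
  induction k with
  | zero => simp
  | succ n ih => rw [pow_succ, s2_mul, ih, pow_succ]

theorem s1_unt_pow (k : ℕ) : s1 (unt ^ k) = lam k := by
  rw [s1_pow, lam]
  simp [s1, unt]

theorem s2_unt_pow (k : ℕ) : s2 (unt ^ k) = (lam k)⁻¹ := by
  rw [s2_pow, lam, ← inv_pow]
  congr 1
  have h : √(2:ℝ) * √2 = 2 := Real.mul_self_sqrt (by norm_num)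
  have h2 : (3 + 2 * √2 : ℝ) ≠ 0 := by positivity
  simp only [s2, unt]
  push_cast
  field_simp
  linear_combination (-4 : ℝ) * h

theorem one_lt_lam {k : ℕ} (hk : k ≠ 0) : 1 < lam k := by
  refine one_lt_pow₀ ?_ hk
  have : 0 ≤ √(2:ℝ) := Real.sqrt_nonneg _
  linarith

theorem le_lam (k : ℕ) : (k : ℝ) ≤ lam k := by
  have h : (1 : ℝ) + k * 2 ≤ (1 + 2) ^ k := one_add_mul_le_pow (by norm_num) k
  have h2 : ((1 : ℝ) + 2) ^ k ≤ lam k := by
    unfold lam
    have h1 : 1 ≤ √(2:ℝ) := by rw [Real.one_le_sqrt]; norm_num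
    gcongr <;> linarith
  have h3 : (0 : ℝ) ≤ k := Nat.cast_nonneg k
  linarith

/-- The automorphism of the deck group given by multiplication by a unit. -/
def scaleHom (e : ℤ√2) : Gam →* Gam where
  toFun g := ⟨e * g.a, e * g.b, e ^ 2 * g.c⟩
  map_one' := by ext1 <;> simp
  map_mul' g h := by
    ext1
    · simp only [Gam.mul_a]; ring
    · simp only [Gam.mul_b]; ring
    · simp only [Gam.mul_c]; ring

/-- The automorphism of the deck group induced by the model map. -/
def scaleEquiv (k : ℕ) : Gam ≃* Gam := MonoidHom.toMulEquiv (scaleHom (unt ^ k))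
  (scaleHom (unt' ^ k))
  (by
    have h : unt' ^ k * unt ^ k = 1 := by rw [← mul_pow, mul_comm, unt_mul, one_pow]
    ext1 g
    ext1
    · change unt' ^ k * (unt ^ k * g.a) = g.a
      rw [← mul_assoc, h, one_mul]
    · change unt' ^ k * (unt ^ k * g.b) = g.b
      rw [← mul_assoc, h, one_mul]
    · change (unt' ^ k) ^ 2 * ((unt ^ k) ^ 2 * g.c) = g.c
      rw [← mul_assoc, ← mul_pow, h, one_pow, one_mul])
  (by
    have h : unt ^ k * unt' ^ k = 1 := by rw [← mul_pow, unt_mul, one_pow]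
    ext1 g
    ext1
    · change unt ^ k * (unt' ^ k * g.a) = g.a
      rw [← mul_assoc, h, one_mul]
    · change unt ^ k * (unt' ^ k * g.b) = g.b
      rw [← mul_assoc, h, one_mul]
    · change (unt ^ k) ^ 2 * ((unt' ^ k) ^ 2 * g.c) = g.c
      rw [← mul_assoc, ← mul_pow, h, one_pow, one_mul])

theorem mf_smul (k : ℕ) (g : Gam) (x : V) :
    mf (lam k) (g • x) = scaleEquiv k g • mf (lam k) x := by
  have ea : (scaleEquiv k g).a = unt ^ k * g.a := rfl
  have eb : (scaleEquiv k g).b = unt ^ k * g.b := rfl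
  have ec : (scaleEquiv k g).c = (unt ^ k) ^ 2 * g.c := rfl
  simp only [smul_def, emb, ea, eb, ec, s1_mul, s2_mul, s1_pow, s2_pow, mf, hm]
  rw [← s1_pow, ← s2_pow, s1_unt_pow, s2_unt_pow]
  ext <;> ring

theorem det_mfL {l : ℝ} (hl : l ≠ 0) : LinearMap.det (mfL l).toLinearMap = 1 := by
  have e : (mfL l).toLinearMap = LinearMap.prodMap
      (LinearMap.prodMap (l • LinearMap.id) (LinearMap.prodMap (l • LinearMap.id)
        ((l ^ 2) • LinearMap.id)))
      (LinearMap.prodMap (l⁻¹ • LinearMap.id) (LinearMap.prodMap (l⁻¹ • LinearMap.id)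
        (((l ^ 2)⁻¹) • LinearMap.id))) := by
    apply LinearMap.ext
    intro v
    rfl
  have h1 : ∀ a : ℝ, LinearMap.det (a • (LinearMap.id : ℝ →ₗ[ℝ] ℝ)) = a := by
    intro a
    rw [LinearMap.det_smul]; simp
  rw [e, LinearMap.det_prodMap, LinearMap.det_prodMap, LinearMap.det_prodMap,
    LinearMap.det_prodMap, LinearMap.det_prodMap, h1, h1, h1, h1]
  field_simp

theorem measurePreserving_mf {l : ℝ} (hl : l ≠ 0) : MeasurePreserving (mf l) volume volume := by
  refine ⟨(contDiff_mf l (n := 0)).continuous.measurable, ?_⟩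
  have h := Measure.map_linearMap_addHaar_eq_smul_addHaar (volume : Measure V)
    (f := (mfL l).toLinearMap) (by rw [det_mfL hl]; norm_num)
  rw [det_mfL hl] at h
  have e : ((mfL l).toLinearMap : V → V) = mf l := rfl
  rw [e] at h
  rw [h]
  simp

theorem mf_inv {l : ℝ} (hl : l ≠ 0) (x : V) : mf l⁻¹ (mf l x) = x := by
  simp only [mf]
  ext <;> field_simp

theorem volDiffeo_mf (k : ℕ) : VolDiffeo ∞ (mf (lam k)) := by
  have h0 : lam k ≠ 0 := by unfold lam; positivity
  refine ⟨contDiff_mf _, ⟨mf (lam k)⁻¹, contDiff_mf _, mf_inv h0, fun x => ?_⟩,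
    ⟨scaleEquiv k, mf_smul k⟩, measurePreserving_mf h0⟩
  have := mf_inv (inv_ne_zero h0) x
  rwa [inv_inv] at this

end Pool.Agent.Lib.MP_48de40_an
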