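import Pool.Agent.Lib.MP_48de40_an.Diag

/-!
# Persistence of the partially hyperbolic splitting
-/

open MeasureTheory Set Filter Topology
open scoped ContDiff

namespace Pool.Agent.Lib.MP_48de40_an

/-- The data of a dominating invariant line and of the complementary invariant hyperplane. -/
structure Half (F : V → V) (A : V → E →L[ℝ] E) (j : Fin 6) (μ r ε : ℝ) (m : V → E)
    (w : V → E →L[ℝ] ℝ) (c c' : V → ℝ) : Prop where
  cont_m : Continuous m
  cont_w : Continuous w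
  m_j : ∀ x, m x j = 0
  w_j : ∀ x, w x (bv j) = 1
  norm_m : ∀ x, ‖m x‖ ≤ r
  norm_w : ∀ x, ‖w x - pj j‖ ≤ r
  deck_m : ∀ (g : Gam) (x : V), m (g • x) = m x
  deck_w : ∀ (g : Gam) (x : V), w (g • x) = w x
  eq_m : ∀ x, A x (bv j + m x) = c x • (bv j + m (F x))
  eq_w : ∀ x, (w (F x)).comp (A x) = c' x • w x
  c_bd : ∀ x, |c x - μ| ≤ 2 * ε
  c_bd' : ∀ x, |c' x - μ| ≤ 2 * ε

theorem exists_half {F G : V → V} (hF : Continuous F) (hG : Continuous G)
    (hGF : Function.LeftInverse G F)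
    (hFl : ∀ (g : Gam) (x : V), ∃ g' : Gam, F (g • x) = g' • F x)
    (hGl : ∀ (g : Gam) (x : V), ∃ g' : Gam, G (g • x) = g' • G x)
    {A : V → E →L[ℝ] E} (hA : Continuous A) (hAg : ∀ (g : Gam) (x : V), A (g • x) = A x)
    {d : Fin 6 → ℝ} {μ κ ε : ℝ} {j : Fin 6} (hκ : 0 ≤ κ) (hκμ : κ < μ)
    (hj : d j = μ) (h : ∀ i, i ≠ j → |d i| ≤ κ) (hε : ε ≤ (μ - κ) / 16)
    (hAL : ∀ x, ‖A x - diag d‖ ≤ ε) :
    ∃ m w c c', Half F A j μ (8 * ε / (μ - κ)) ε m w c c' := by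
  have hε0 : 0 ≤ ε := (norm_nonneg _).trans (hAL 0)
  have hδ : 0 < μ - κ := sub_pos.2 hκμ
  have hr : 8 * ε / (μ - κ) ≤ 1 := by
    rw [div_le_iff₀ hδ]; linarith
  have M1 := model_vec hκ hκμ hj h
  have M2 := model_dual hκ hκμ hj h
  obtain ⟨m, m1, m2, m3, m4, m5⟩ := exists_inv_line (X := V) M1 hε hA hAL hG
    (R := fun x y => ∃ g : Gam, y = g • x)
    (by rintro x y ⟨g, rfl⟩; exact hGl g x) (by rintro x y ⟨g, rfl⟩; exact (hAg g x).symm)
  obtain ⟨n, n1, n2, n3, n4, n5⟩ := exists_inv_line (X := V) M2 hε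
    (A := fun z => pre (A (G z))) (pre.continuous.comp (hA.comp hG))
    (fun z => (norm_pre_sub_le _ _).trans (hAL (G z))) hF
    (R := fun x y => ∃ g : Gam, y = g • x)
    (by rintro x y ⟨g, rfl⟩; exact hFl g x)
    (by
      rintro x y ⟨g, rfl⟩
      obtain ⟨g', hg'⟩ := hGl g x
      rw [hg', hAg])
  refine ⟨m, fun x => pj j + n x, fun x => pj j (A x (bv j + m x)),
    fun x => ((pj j + n (F x)).comp (A x)) (bv j), ?_⟩
  refine ⟨m1, continuous_const.add n1, fun x => m2 x, fun x => ?_, m3, fun x => ?_,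
    fun g x => (m4 x (g • x) ⟨g, rfl⟩).symm, fun g x => ?_, fun x => ?_, fun x => ?_,
    fun x => ?_, fun x => ?_⟩
  · have := n2 x
    rw [ContinuousLinearMap.apply_apply] at this
    rw [_root_.add_apply, this, pj_apply, bv_apply]; simp
  · rw [add_sub_cancel_left]; exact n3 x
  · show pj j + n (g • x) = pj j + n x
    rw [← n4 x (g • x) ⟨g, rfl⟩]
  · have := m5 (F x)
    rw [hGF x] at this
    exact this
  · have := n5 (F x)
    have h2 := n5 x
    simp only [hGF x, pre_apply, ContinuousLinearMap.apply_apply] at h2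
    exact h2
  · exact M1.den_bound (hAL x) (m2 x) ((m3 x).trans hr)
  · have h3 := M2.den_bound (A := pre (A x)) ((norm_pre_sub_le _ _).trans (hAL x)) (n2 (F x))
      ((n3 (F x)).trans hr)
    rw [pre_apply, ContinuousLinearMap.apply_apply] at h3
    exact h3

theorem eq_zero_of_contract {F : V → V} {g : V → ℝ} {B θ : ℝ} (hB : ∀ x, |g x| ≤ B) (hθ0 : 0 ≤ θ)
    (hθ : θ < 1) (h : ∀ x, |g x| ≤ θ * |g (F x)|) (x : V) : g x = 0 := by
  have h1 : ∀ n : ℕ, ∀ x, |g x| ≤ θ ^ n * B := by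
    intro n
    induction n with
    | zero => intro x; simpa using hB x
    | succ n ih =>
      intro x
      calc |g x| ≤ θ * |g (F x)| := h x
        _ ≤ θ * (θ ^ n * B) := by
          have := ih (F x)
          gcongr
        _ = θ ^ (n + 1) * B := by ring
  have h2 : Tendsto (fun n : ℕ => θ ^ n * B) atTop (𝓝 (0 * B)) :=
    (tendsto_pow_atTop_nhds_zero_of_lt_one hθ0 hθ).mul_const B
  rw [zero_mul] at h2
  have h3 : |g x| ≤ 0 := ge_of_tendsto' h2 fun n => h1 n x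
  exact abs_eq_zero.1 (le_antisymm h3 (abs_nonneg _))

/-- The projection on the line of `v` along the kernel of `w`. -/
noncomputable def pr (w : E →L[ℝ] ℝ) (v : E) : E →L[ℝ] E := (w v)⁻¹ • w.smulRight v

theorem pr_apply (w : E →L[ℝ] ℝ) (v z : E) : pr w v z = ((w v)⁻¹ * w z) • v := by
  simp [pr, smul_smul]

theorem pr_pr {w : E →L[ℝ] ℝ} {v : E} (h : w v ≠ 0) : (pr w v).comp (pr w v) = pr w v := by
  ext1 z
  rw [ContinuousLinearMap.comp_apply, pr_apply w v z, map_smul, pr_apply, inv_mul_cancel₀ h,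
    one_smul]

theorem pr_comp_zero {w w' : E →L[ℝ] ℝ} {v v' : E} (h : w v' = 0) :
    (pr w v).comp (pr w' v') = 0 := by
  ext1 z
  rw [ContinuousLinearMap.comp_apply, pr_apply w' v' z, map_smul, pr_apply, h]
  simp

theorem pr_inv {F : V → V} {A : V → E →L[ℝ] E} {w : V → E →L[ℝ] ℝ} {v : V → E} {c c' : V → ℝ}
    (hv : ∀ x, A x (v x) = c x • v (F x)) (hw : ∀ x, (w (F x)).comp (A x) = c' x • w x)
    (h : ∀ x, w x (v x) ≠ 0) (x : V) :
    (A x).comp (pr (w x) (v x)) = (pr (w (F x)) (v (F x))).comp (A x) := by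
  have h1 : c x * w (F x) (v (F x)) = c' x * w x (v x) := by
    have e1 : (w (F x)) (A x (v x)) = c x * w (F x) (v (F x)) := by
      rw [hv, map_smul, smul_eq_mul]
    have e2 : (w (F x)) (A x (v x)) = c' x * w x (v x) := by
      have := congrArg (fun φ : E →L[ℝ] ℝ => φ (v x)) (hw x)
      simpa using this
    rw [← e1, e2]
  ext1 z
  have h2 : w (F x) (A x z) = c' x * w x z := by
    have := congrArg (fun φ : E →L[ℝ] ℝ => φ z) (hw x)
    simpa using this
  rw [ContinuousLinearMap.comp_apply, ContinuousLinearMap.comp_apply, pr_apply, pr_apply, map_smul,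
    hv, h2, smul_smul]
  congr 1
  have h3 := h x
  have h4 := h (F x)
  field_simp
  linear_combination (w x z) * h1

theorem range_pr {w : E →L[ℝ] ℝ} {v : E} (h : w v ≠ 0) :
    LinearMap.range (pr w v).toLinearMap = Submodule.span ℝ {v} := by
  ext z
  rw [LinearMap.mem_range, Submodule.mem_span_singleton]
  constructor
  · rintro ⟨y, rfl⟩
    exact ⟨_, (pr_apply w v y).symm⟩
  · rintro ⟨a, rfl⟩
    refine ⟨a • v, ?_⟩
    change pr w v (a • v) = a • v
    rw [map_smul, pr_apply, inv_mul_cancel₀ h, one_smul]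

theorem continuous_pr {w : V → E →L[ℝ] ℝ} {v : V → E} (hw : Continuous w) (hv : Continuous v)
    (h : ∀ x, w x (v x) ≠ 0) : Continuous (fun x => pr (w x) (v x)) := by
  unfold pr
  refine ((hw.clm_apply hv).inv₀ h).smul ?_
  have : (fun x => (w x).smulRight (v x)) =
      fun x => ContinuousLinearMap.smulRightL ℝ E E (w x) (v x) := by
    funext x; rfl
  rw [this]
  exact ((ContinuousLinearMap.smulRightL ℝ E E).continuous.comp hw).clm_apply hv

/-- The splitting of the model map. -/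
noncomputable def P0 : Splitting where
  s := fun _ => pr (pj 5) (bv 5)
  c := fun _ => ContinuousLinearMap.id ℝ E - pr (pj 5) (bv 5) - pr (pj 2) (bv 2)
  u := fun _ => pr (pj 2) (bv 2)

section near

variable {w : E →L[ℝ] ℝ} {m : E} {j : Fin 6} {r : ℝ}

theorem abs_wv_sub_one (hr : r ≤ 1 / 2) (hw : ‖w - pj j‖ ≤ r) (hwj : w (bv j) = 1)
    (hm : ‖m‖ ≤ r) (hmj : m j = 0) : |w (bv j + m) - 1| ≤ r / 2 := by
  have hr0 : 0 ≤ r := (norm_nonneg _).trans hm
  have : w (bv j + m) - 1 = (w - pj j) m := by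
    rw [map_add, hwj, _root_.sub_apply, pj_apply, hmj]; ring
  rw [this]
  calc |(w - pj j) m| ≤ r * ‖m‖ := (w - pj j).le_of_opNorm_le hw m
    _ ≤ (1 / 2) * r := by gcongr
    _ = r / 2 := by ring

theorem norm_pr_sub_le (hr : r ≤ 1 / 2) (hw : ‖w - pj j‖ ≤ r) (hwj : w (bv j) = 1)
    (hm : ‖m‖ ≤ r) (hmj : m j = 0) : ‖pr w (bv j + m) - pr (pj j) (bv j)‖ ≤ 5 * r := by
  have hr0 : 0 ≤ r := (norm_nonneg _).trans hm
  have h1 := abs_wv_sub_one hr hw hwj hm hmj
  set k := w (bv j + m) with hk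
  have hk1 : (3 / 4 : ℝ) ≤ k := by rw [abs_le] at h1; linarith
  have hk2 : |k⁻¹ - 1| ≤ r := by
    have : k⁻¹ - 1 = k⁻¹ * (1 - k) := by field_simp
    rw [this, abs_mul, abs_of_pos (by positivity), abs_sub_comm]
    rw [inv_mul_le_iff₀ (by positivity)]
    nlinarith
  refine ContinuousLinearMap.opNorm_le_bound _ (by positivity) fun z => ?_
  rw [_root_.sub_apply, pr_apply, pr_apply, ← hk, pj_apply, pj_apply, bv_apply]
  have e1 : (k⁻¹ * w z) • (bv j + m) - ((if j = j then (1 : ℝ) else 0)⁻¹ * z j) • bv j =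
      ((k⁻¹ - 1) * w z) • (bv j + m) + ((w - pj j) z) • (bv j + m) + (z j) • m := by
    rw [if_pos rfl, inv_one, one_mul, _root_.sub_apply, pj_apply]
    module
  rw [e1]
  have n1 : ‖bv j + m‖ ≤ 3 / 2 := by
    calc ‖bv j + m‖ ≤ ‖bv j‖ + ‖m‖ := norm_add_le _ _
      _ ≤ 1 + 1 / 2 := add_le_add (norm_bv j).le (hm.trans hr)
      _ = 3 / 2 := by norm_num
  have n2 : |(w - pj j) z| ≤ r * ‖z‖ := (w - pj j).le_of_opNorm_le hw z
  have n3 : |w z| ≤ 3 / 2 * ‖z‖ := by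
    have : w z = z j + (w - pj j) z := by rw [_root_.sub_apply, pj_apply]; ring
    rw [this]
    calc |z j + (w - pj j) z| ≤ |z j| + |(w - pj j) z| := abs_add_le _ _
      _ ≤ ‖z‖ + r * ‖z‖ := add_le_add (abs_coord_le j z) n2
      _ ≤ ‖z‖ + (1 / 2) * ‖z‖ := by gcongr
      _ = 3 / 2 * ‖z‖ := by ring
  have n4 := abs_coord_le j z
  calc _ ≤ ‖((k⁻¹ - 1) * w z) • (bv j + m)‖ + ‖((w - pj j) z) • (bv j + m)‖ + ‖(z j) • m‖ :=
        norm_add₃_le
    _ = |k⁻¹ - 1| * |w z| * ‖bv j + m‖ + |(w - pj j) z| * ‖bv j + m‖ + |z j| * ‖m‖ := by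
      rw [norm_smul, norm_smul, norm_smul, norm_mul, Real.norm_eq_abs, Real.norm_eq_abs,
        Real.norm_eq_abs, Real.norm_eq_abs]
    _ ≤ r * (3 / 2 * ‖z‖) * (3 / 2) + r * ‖z‖ * (3 / 2) + ‖z‖ * r := by gcongr
    _ ≤ 5 * r * ‖z‖ := by nlinarith [norm_nonneg z, mul_nonneg hr0 (norm_nonneg z)]

end near

end Pool.Agent.Lib.MP_48de40_an
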