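import Pool.Agent.Lib.MP_48de40_an.Persist

/-!
# Persistence of the partially hyperbolic splitting, continued
-/

open MeasureTheory Set Filter Topology
open scoped ContDiff

namespace Pool.Agent.Lib.MP_48de40_an

/-- The eigenvalues of the model map. -/
noncomputable def dl (l : ℝ) : Fin 6 → ℝ := ![l, l, l ^ 2, l⁻¹, l⁻¹, (l ^ 2)⁻¹]

/-- The eigenvalues of the inverse of the model map. -/
noncomputable def dl' (l : ℝ) : Fin 6 → ℝ := ![l⁻¹, l⁻¹, (l ^ 2)⁻¹, l, l, l ^ 2]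

theorem dl_two (l : ℝ) : dl l 2 = l ^ 2 := rfl
theorem dl'_five (l : ℝ) : dl' l 5 = l ^ 2 := rfl

theorem dl_le {l : ℝ} (hl : 1 < l) (i : Fin 6) (hi : i ≠ 2) : |dl l i| ≤ l := by
  have h0 : 0 < l := by linarith
  have h1 : l⁻¹ ≤ 1 := inv_le_one_of_one_le₀ hl.le
  have h2 : (l ^ 2)⁻¹ ≤ 1 := inv_le_one_of_one_le₀ (by nlinarith)
  fin_cases i <;> simp [dl, abs_of_pos h0] at hi ⊢ <;> linarith

theorem dl'_le {l : ℝ} (hl : 1 < l) (i : Fin 6) (hi : i ≠ 5) : |dl' l i| ≤ l := by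
  have h0 : 0 < l := by linarith
  have h1 : l⁻¹ ≤ 1 := inv_le_one_of_one_le₀ hl.le
  have h2 : (l ^ 2)⁻¹ ≤ 1 := inv_le_one_of_one_le₀ (by nlinarith)
  fin_cases i <;> simp [dl', abs_of_pos h0] at hi ⊢ <;> linarith

theorem le_dl {l : ℝ} (hl : 1 < l) (i : Fin 6) (hi : i ≠ 5) : l⁻¹ ≤ |dl l i| := by
  have h0 : 0 < l := by linarith
  have h1 : l⁻¹ ≤ 1 := inv_le_one_of_one_le₀ hl.le
  have h2 : 1 ≤ l ^ 2 := by nlinarith
  fin_cases i <;> simp [dl, abs_of_pos h0] at hi ⊢ <;> linarith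

theorem diag_dl_comp {l : ℝ} (hl : 1 < l) :
    (diag (dl l)).comp (diag (dl' l)) = ContinuousLinearMap.id ℝ E := by
  have h0 : l ≠ 0 := by positivity
  ext v i
  rw [ContinuousLinearMap.comp_apply, diag_apply, diag_apply]
  fin_cases i <;> simp [dl, dl'] <;> field_simp

theorem diag_dl'_comp {l : ℝ} (hl : 1 < l) :
    (diag (dl' l)).comp (diag (dl l)) = ContinuousLinearMap.id ℝ E := by
  have h0 : l ≠ 0 := by positivity
  ext v i
  rw [ContinuousLinearMap.comp_apply, diag_apply, diag_apply]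
  fin_cases i <;> simp [dl, dl'] <;> field_simp

theorem norm_diag_dl' {l : ℝ} (hl : 1 < l) : ‖diag (dl' l)‖ ≤ l ^ 2 := by
  refine ContinuousLinearMap.opNorm_le_bound _ (by positivity) fun v => ?_
  refine norm_diag_le (by positivity) fun i => Or.inl ?_
  rcases eq_or_ne i 5 with rfl | hi
  · rw [dl'_five, abs_of_nonneg (by positivity)]
  · exact (dl'_le hl i hi).trans (by nlinarith)

theorem norm_inv_sub {l ε : ℝ} (hl : 1 < l) {A B : E →L[ℝ] E}
    (hBA : A.comp B = ContinuousLinearMap.id ℝ E)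
    (hA : ‖A - diag (dl l)‖ ≤ ε) (hε : ε * l ^ 2 ≤ 1 / 2) :
    ‖B - diag (dl' l)‖ ≤ 2 * l ^ 4 * ε := by
  have hε0 : 0 ≤ ε := (norm_nonneg _).trans hA
  have e1 : B - diag (dl' l) = (diag (dl' l)).comp ((diag (dl l) - A).comp B) := by
    rw [ContinuousLinearMap.sub_comp, hBA, ContinuousLinearMap.comp_sub,
      ← ContinuousLinearMap.comp_assoc, diag_dl'_comp hl]
    rfl
  have hA' : ‖diag (dl l) - A‖ ≤ ε := by rw [norm_sub_rev]; exact hA
  have h1 : ‖B - diag (dl' l)‖ ≤ l ^ 2 * (ε * ‖B‖) := by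
    rw [e1]
    refine (ContinuousLinearMap.opNorm_comp_le _ _).trans ?_
    have h2 := (ContinuousLinearMap.opNorm_comp_le (diag (dl l) - A) B)
    have h3 := norm_diag_dl' hl
    calc _ ≤ l ^ 2 * ‖(diag (dl l) - A).comp B‖ := by gcongr
      _ ≤ l ^ 2 * (‖diag (dl l) - A‖ * ‖B‖) := by gcongr
      _ ≤ _ := by gcongr
  have h4 : ‖B‖ ≤ 2 * l ^ 2 := by
    have h5 : ‖B‖ ≤ ‖B - diag (dl' l)‖ + ‖diag (dl' l)‖ := by
      calc ‖B‖ = ‖(B - diag (dl' l)) + diag (dl' l)‖ := by rw [sub_add_cancel]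
        _ ≤ _ := norm_add_le _ _
    have h6 := norm_diag_dl' hl
    nlinarith [norm_nonneg B]
  calc _ ≤ l ^ 2 * (ε * ‖B‖) := h1
    _ ≤ l ^ 2 * (ε * (2 * l ^ 2)) := by gcongr
    _ = 2 * l ^ 4 * ε := by ring

/-- The splitting built from the two invariant lines and hyperplanes. -/
noncomputable def mkSplit (m : V → E) (w : V → E →L[ℝ] ℝ) (m' : V → E) (w' : V → E →L[ℝ] ℝ) :
    Splitting where
  s := fun x => pr (w' x) (bv 5 + m' x)
  c := fun x => ContinuousLinearMap.id ℝ E - pr (w' x) (bv 5 + m' x) - pr (w x) (bv 2 + m x)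
  u := fun x => pr (w x) (bv 2 + m x)

section two

variable {F G : V → V} {A B : V → E →L[ℝ] E} {l r ε : ℝ} {m m' : V → E}
  {w w' : V → E →L[ℝ] ℝ} {c c' b b' : V → ℝ}

theorem Half.wv {j : Fin 6} {μ : ℝ} (H : Half F A j μ r ε m w c c') (hr : r ≤ 1 / 2) (x : V) :
    w x (bv j + m x) ≠ 0 := by
  have h1 := abs_wv_sub_one hr (H.norm_w x) (H.w_j x) (H.norm_m x) (H.m_j x)
  have hr0 : 0 ≤ r := (norm_nonneg _).trans (H.norm_m x)
  rw [abs_le] at h1
  have : 0 < w x (bv j + m x) := by linarith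
  exact this.ne'

theorem half_zero1 (hl : 1 < l) (hε : ε ≤ (l ^ 2 - l) / 16)
    (hGF : ∀ x, G (F x) = x)
    (hAB : ∀ x, (A x).comp (B (F x)) = ContinuousLinearMap.id ℝ E)
    (H : Half F A 2 (l ^ 2) r ε m w c c') (H' : Half G B 5 (l ^ 2) r ε m' w' b b') (x : V) :
    w x (bv 5 + m' x) = 0 := by
  have hl2 : l ≤ l ^ 2 - 2 * ε := by nlinarith
  have key : ∀ x, w (F x) (bv 5 + m' (F x)) = b (F x) * c' x * w x (bv 5 + m' x) := by
    intro x
    have e1 : bv 5 + m' (F x) = b (F x) • A x (bv 5 + m' x) := by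
      have h1 := H'.eq_m (F x)
      rw [hGF x] at h1
      rw [← map_smul, ← h1, ← ContinuousLinearMap.comp_apply, hAB x]
      rfl
    have e2 : w (F x) (A x (bv 5 + m' x)) = c' x * w x (bv 5 + m' x) := by
      have := congrArg (fun φ : E →L[ℝ] ℝ => φ (bv 5 + m' x)) (H.eq_w x)
      simpa using this
    rw [e1, map_smul, e2, smul_eq_mul]; ring
  have hθ : (l⁻¹ : ℝ) < 1 := inv_lt_one_of_one_lt₀ hl
  refine eq_zero_of_contract (F := F) (g := fun x => w x (bv 5 + m' x)) (B := (1 + r) * (1 + r))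
    (θ := l⁻¹) ?_ (by positivity) hθ ?_ x
  · intro x
    have h1 : ‖w x‖ ≤ 1 + r := by
      calc ‖w x‖ = ‖pj 2 + (w x - pj 2)‖ := by rw [add_sub_cancel]
        _ ≤ ‖pj 2‖ + ‖w x - pj 2‖ := norm_add_le _ _
        _ ≤ 1 + r := add_le_add (norm_pj_le 2) (H.norm_w x)
    have h2 : ‖bv 5 + m' x‖ ≤ 1 + r := by
      calc ‖bv 5 + m' x‖ ≤ ‖bv 5‖ + ‖m' x‖ := norm_add_le _ _
        _ ≤ 1 + r := add_le_add (norm_bv 5).le (H'.norm_m x)
    calc |w x (bv 5 + m' x)| ≤ ‖w x‖ * ‖bv 5 + m' x‖ := (w x).le_opNorm _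
      _ ≤ (1 + r) * (1 + r) := mul_le_mul h1 h2 (norm_nonneg _) ((norm_nonneg _).trans h1)
  · intro x
    rw [key x, abs_mul, abs_mul, inv_mul_eq_div, le_div_iff₀ (by positivity)]
    have h1 := H'.c_bd (F x)
    have h2 := H.c_bd' x
    rw [abs_le] at h1 h2
    have h3 : l ≤ |b (F x)| := by rw [abs_of_pos (by linarith)]; linarith
    have h4 : 1 ≤ |c' x| := by rw [abs_of_pos (by linarith)]; linarith
    have h5 : l * 1 ≤ |b (F x)| * |c' x| := mul_le_mul h3 h4 (by norm_num) (by positivity)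
    have h6 := abs_nonneg (w x (bv 5 + m' x))
    nlinarith

theorem half_zero2 (hl : 1 < l) (hε : ε ≤ (l ^ 2 - l) / 16)
    (hGF : ∀ x, G (F x) = x) (hFG : ∀ x, F (G x) = x)
    (hBA : ∀ x, (B (F x)).comp (A x) = ContinuousLinearMap.id ℝ E)
    (H : Half F A 2 (l ^ 2) r ε m w c c') (H' : Half G B 5 (l ^ 2) r ε m' w' b b') (x : V) :
    w' x (bv 2 + m x) = 0 := by
  have hl2 : l ≤ l ^ 2 - 2 * ε := by nlinarith
  have key : ∀ x, w' x (bv 2 + m x) = c x * b' (F x) * w' (F x) (bv 2 + m (F x)) := by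
    intro x
    have h1 := H'.eq_w (F x)
    rw [hGF x] at h1
    have e1 : w' x (bv 2 + m x) = (w' x).comp (B (F x)) (A x (bv 2 + m x)) := by
      have : B (F x) (A x (bv 2 + m x)) = bv 2 + m x := by
        rw [← ContinuousLinearMap.comp_apply, hBA x]; rfl
      rw [ContinuousLinearMap.comp_apply, this]
    rw [e1, h1, H.eq_m x, map_smul]
    simp only [_root_.smul_apply, smul_eq_mul]
    ring
  have hθ : (l⁻¹ : ℝ) < 1 := inv_lt_one_of_one_lt₀ hl
  refine eq_zero_of_contract (F := G) (g := fun x => w' x (bv 2 + m x)) (B := (1 + r) * (1 + r))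
    (θ := l⁻¹) ?_ (by positivity) hθ ?_ x
  · intro x
    have h1 : ‖w' x‖ ≤ 1 + r := by
      calc ‖w' x‖ = ‖pj 5 + (w' x - pj 5)‖ := by rw [add_sub_cancel]
        _ ≤ ‖pj 5‖ + ‖w' x - pj 5‖ := norm_add_le _ _
        _ ≤ 1 + r := add_le_add (norm_pj_le 5) (H'.norm_w x)
    have h2 : ‖bv 2 + m x‖ ≤ 1 + r := by
      calc ‖bv 2 + m x‖ ≤ ‖bv 2‖ + ‖m x‖ := norm_add_le _ _
        _ ≤ 1 + r := add_le_add (norm_bv 2).le (H.norm_m x)
    calc |w' x (bv 2 + m x)| ≤ ‖w' x‖ * ‖bv 2 + m x‖ := (w' x).le_opNorm _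
      _ ≤ (1 + r) * (1 + r) := mul_le_mul h1 h2 (norm_nonneg _) ((norm_nonneg _).trans h1)
  · intro x
    have hk := key (G x)
    rw [hFG x] at hk
    rw [hk, abs_mul, abs_mul, inv_mul_eq_div, le_div_iff₀ (by positivity)]
    have h1 := H'.c_bd' x
    have h2 := H.c_bd (G x)
    rw [abs_le] at h1 h2
    have h3 : l ≤ |b' x| := by rw [abs_of_pos (by linarith)]; linarith
    have h4 : 1 ≤ |c (G x)| := by rw [abs_of_pos (by linarith)]; linarith
    have h5 : 1 * l ≤ |c (G x)| * |b' x| := mul_le_mul h4 h3 (by positivity) (by positivity)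
    have h6 := abs_nonneg (w' x (bv 2 + m x))
    nlinarith

end two

end Pool.Agent.Lib.MP_48de40_an
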