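import Pool.Agent.Lib.MP_48de40_an.Persist2

/-!
# Persistence of the partially hyperbolic splitting: conclusion
-/

open MeasureTheory Set Filter Topology
open scoped ContDiff

namespace Pool.Agent.Lib.MP_48de40_an

section two

variable {F G : V → V} {A B : V → E →L[ℝ] E} {l r ε : ℝ} {m m' : V → E}
  {w w' : V → E →L[ℝ] ℝ} {c c' b b' : V → ℝ}

theorem half_back1 (hl : 1 < l) (hε : ε ≤ (l ^ 2 - l) / 16) (hGF : ∀ x, G (F x) = x)
    (hAB : ∀ x, (A x).comp (B (F x)) = ContinuousLinearMap.id ℝ E)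
    (H' : Half G B 5 (l ^ 2) r ε m' w' b b') (x : V) :
    A x (bv 5 + m' x) = (b (F x))⁻¹ • (bv 5 + m' (F x)) := by
  have hl2 : l ≤ l ^ 2 - 2 * ε := by nlinarith
  have hb : b (F x) ≠ 0 := by
    have h1 := H'.c_bd (F x)
    rw [abs_le] at h1
    have : 0 < b (F x) := by linarith
    exact this.ne'
  have h1 := H'.eq_m (F x)
  rw [hGF x] at h1
  have e1 : bv 5 + m' (F x) = b (F x) • A x (bv 5 + m' x) := by
    rw [← map_smul, ← h1, ← ContinuousLinearMap.comp_apply, hAB x]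
    rfl
  rw [e1, smul_smul, inv_mul_cancel₀ hb, one_smul]

theorem half_back2 (hl : 1 < l) (hε : ε ≤ (l ^ 2 - l) / 16) (hGF : ∀ x, G (F x) = x)
    (hBA : ∀ x, (B (F x)).comp (A x) = ContinuousLinearMap.id ℝ E)
    (H' : Half G B 5 (l ^ 2) r ε m' w' b b') (x : V) :
    (w' (F x)).comp (A x) = (b' (F x))⁻¹ • w' x := by
  have hl2 : l ≤ l ^ 2 - 2 * ε := by nlinarith
  have hb : b' (F x) ≠ 0 := by
    have h1 := H'.c_bd' (F x)
    rw [abs_le] at h1
    have : 0 < b' (F x) := by linarith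
    exact this.ne'
  have h1 := H'.eq_w (F x)
  rw [hGF x] at h1
  have e1 : w' x = b' (F x) • (w' (F x)).comp (A x) := by
    have : (w' x).comp ((B (F x)).comp (A x)) = (b' (F x) • w' (F x)).comp (A x) := by
      rw [← h1]; rfl
    rw [hBA x] at this
    exact this
  rw [e1, smul_smul, inv_mul_cancel₀ hb, one_smul]

theorem invSplitting_mk (hl : 1 < l) (hε : ε ≤ (l ^ 2 - l) / 16) (hr : r ≤ 1 / 2)
    (hGF : ∀ x, G (F x) = x) (hFG : ∀ x, F (G x) = x)
    (hAB : ∀ x, (coc F x).comp (coc G (F x)) = ContinuousLinearMap.id ℝ E)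
    (hBA : ∀ x, (coc G (F x)).comp (coc F x) = ContinuousLinearMap.id ℝ E)
    (H : Half F (coc F) 2 (l ^ 2) r ε m w c c') (H' : Half G (coc G) 5 (l ^ 2) r ε m' w' b b') :
    InvSplitting 0 F (mkSplit m w m' w') := by
  have hwv := H.wv hr
  have hwv' := H'.wv hr
  have z1 := half_zero1 hl hε hGF hAB H H'
  have z2 := half_zero2 hl hε hGF hFG hBA H H'
  have b1 := half_back1 hl hε hGF hAB H'
  have b2 := half_back2 hl hε hGF hBA H'
  have cs : Continuous (mkSplit m w m' w').s :=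
    continuous_pr H'.cont_w (continuous_const.add H'.cont_m) hwv'
  have cu : Continuous (mkSplit m w m' w').u :=
    continuous_pr H.cont_w (continuous_const.add H.cont_m) hwv
  have is_ : ∀ x, (coc F x).comp ((mkSplit m w m' w').s x) =
      ((mkSplit m w m' w').s (F x)).comp (coc F x) := pr_inv b1 b2 hwv'
  have iu : ∀ x, (coc F x).comp ((mkSplit m w m' w').u x) =
      ((mkSplit m w m' w').u (F x)).comp (coc F x) := pr_inv H.eq_m H.eq_w hwv
  have ps : ∀ x, ((mkSplit m w m' w').s x).comp ((mkSplit m w m' w').s x) =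
      (mkSplit m w m' w').s x := fun x => pr_pr (hwv' x)
  have pu : ∀ x, ((mkSplit m w m' w').u x).comp ((mkSplit m w m' w').u x) =
      (mkSplit m w m' w').u x := fun x => pr_pr (hwv x)
  have su : ∀ x, ((mkSplit m w m' w').s x).comp ((mkSplit m w m' w').u x) = 0 :=
    fun x => pr_comp_zero (z2 x)
  have us : ∀ x, ((mkSplit m w m' w').u x).comp ((mkSplit m w m' w').s x) = 0 :=
    fun x => pr_comp_zero (z1 x)
  have ds : ∀ (g : Gam) (x : V), (mkSplit m w m' w').s (g • x) = (mkSplit m w m' w').s x := by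
    intro g x; simp only [mkSplit]; rw [H'.deck_m, H'.deck_w]
  have du : ∀ (g : Gam) (x : V), (mkSplit m w m' w').u (g • x) = (mkSplit m w m' w').u x := by
    intro g x; simp only [mkSplit]; rw [H.deck_m, H.deck_w]
  have hc : ∀ x, (mkSplit m w m' w').c x = ContinuousLinearMap.id ℝ E -
      (mkSplit m w m' w').s x - (mkSplit m w m' w').u x := fun x => rfl
  refine ⟨contDiff_zero.2 cs, contDiff_zero.2 ?_, contDiff_zero.2 cu, fun x => ?_, ps, fun x => ?_,
    pu, su, us, ds, fun g x => ?_, du, is_, fun x => ?_, iu, fun x => ?_, fun x => ?_⟩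
  · exact (continuous_const.sub cs).sub cu
  · rw [hc]; abel
  · rw [hc]
    simp only [ContinuousLinearMap.sub_comp, ContinuousLinearMap.comp_sub, ps x, pu x, su x, us x,
      ContinuousLinearMap.id_comp, ContinuousLinearMap.comp_id]
    abel
  · rw [hc, hc, ds, du]
  · rw [hc, hc]
    simp only [ContinuousLinearMap.sub_comp, ContinuousLinearMap.comp_sub, is_ x, iu x,
      ContinuousLinearMap.id_comp, ContinuousLinearMap.comp_id]
  · have : (mkSplit m w m' w').s x = pr (w' x) (bv 5 + m' x) := rfl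
    rw [this, range_pr (hwv' x)]
    refine finrank_span_singleton fun h0 => ?_
    apply hwv' x
    rw [h0, map_zero]
  · have : (mkSplit m w m' w').u x = pr (w x) (bv 2 + m x) := rfl
    rw [this, range_pr (hwv x)]
    refine finrank_span_singleton fun h0 => ?_
    apply hwv x
    rw [h0, map_zero]

theorem one_le_norm_add {j : Fin 6} {m : E} (h : m j = 0) : 1 ≤ ‖bv j + m‖ := by
  have := abs_coord_le j (bv j + m)
  rw [PiLp.add_apply, h, bv_apply] at this
  simpa using this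

theorem near_mk (hr : r ≤ 1 / 2)
    (H : Half F A 2 (l ^ 2) r ε m w c c') (H' : Half G B 5 (l ^ 2) r ε m' w' b b') :
    Near (10 * r) (mkSplit m w m' w') P0 := by
  intro x
  have hr0 : 0 ≤ r := (norm_nonneg _).trans (H.norm_m x)
  have h1 := norm_pr_sub_le hr (H.norm_w x) (H.w_j x) (H.norm_m x) (H.m_j x)
  have h2 := norm_pr_sub_le hr (H'.norm_w x) (H'.w_j x) (H'.norm_m x) (H'.m_j x)
  refine ⟨h2.trans (by linarith), ?_, h1.trans (by linarith)⟩
  have e : (mkSplit m w m' w').c x - P0.c x =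
      -(pr (w' x) (bv 5 + m' x) - pr (pj 5) (bv 5)) - (pr (w x) (bv 2 + m x) -
        pr (pj 2) (bv 2)) := by
    simp only [mkSplit, P0]; abel
  rw [e]
  calc _ ≤ ‖-(pr (w' x) (bv 5 + m' x) - pr (pj 5) (bv 5))‖ + ‖pr (w x) (bv 2 + m x) -
        pr (pj 2) (bv 2)‖ := norm_sub_le _ _
    _ ≤ 5 * r + 5 * r := by rw [norm_neg]; exact add_le_add h2 h1
    _ = 10 * r := by ring

/-- The size of the perturbation which guarantees partial hyperbolicity. -/
noncomputable def rho (l : ℝ) : ℝ := (l - 1) / (16 * l ^ 3)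

theorem rho_pos (hl : 1 < l) : 0 < rho l := by
  unfold rho
  have : 0 < l := by linarith
  exact div_pos (by linarith) (by positivity)

theorem rho_mul (hl : 1 < l) : 16 * l ^ 3 * rho l = l - 1 := by
  unfold rho
  have : 0 < l := by linarith
  field_simp

theorem isPH_mk (hl : 1 < l) (hε : ε ≤ (l ^ 2 - l) / 16) (hr : r ≤ 1 / 2)
    (hrρ : r ≤ rho l) (hερ : ε ≤ rho l)
    (hGF : ∀ x, G (F x) = x) (hFG : ∀ x, F (G x) = x)
    (hAB : ∀ x, (coc F x).comp (coc G (F x)) = ContinuousLinearMap.id ℝ E)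
    (hBA : ∀ x, (coc G (F x)).comp (coc F x) = ContinuousLinearMap.id ℝ E)
    (hAL : ∀ x, ‖coc F x - diag (dl l)‖ ≤ ε)
    (H : Half F (coc F) 2 (l ^ 2) r ε m w c c') (H' : Half G (coc G) 5 (l ^ 2) r ε m' w' b b') :
    IsPH 0 F (mkSplit m w m' w') := by
  have hwv := H.wv hr
  have hwv' := H'.wv hr
  have b1 := half_back1 hl hε hGF hAB H'
  have z1 := half_zero1 hl hε hGF hAB H H'
  have z2 := half_zero2 hl hε hGF hFG hBA H H'
  have hε0 : 0 ≤ ε := (norm_nonneg _).trans (hAL 0)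
  have hr0 : 0 ≤ r := (norm_nonneg _).trans (H.norm_m 0)
  have hl0 : 0 < l := by linarith
  have hρ0 := rho_pos hl
  have hρ := rho_mul hl
  set ρ := rho l with hρdef
  have hlinv : l * l⁻¹ = 1 := mul_inv_cancel₀ hl0.ne'
  have hl3 : 1 < l ^ 3 := one_lt_pow₀ hl (by norm_num)
  have hl2 : 1 < l ^ 2 := one_lt_pow₀ hl (by norm_num)
  have hli : l⁻¹ < 1 := inv_lt_one_of_one_lt₀ hl
  have hli0 : 0 < l⁻¹ := by positivity
  have hρl : 16 * ρ < l - 1 := by nlinarith
  have hμ : 0 < l ^ 2 - 2 * ρ := by nlinarith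
  refine ⟨invSplitting_mk hl hε hr hGF hFG hAB hBA H H', (1 + ρ) / (l ^ 2 - 2 * ρ),
    l⁻¹ - 3 * ρ, l + (l ^ 2 + 1) * ρ, (l ^ 2 - 2 * ρ) / (1 + ρ), by positivity, ?_, ?_, ?_, ?_,
    ?_, ?_, ?_, ?_⟩
  · rw [div_lt_one hμ]; nlinarith
  · rw [lt_div_iff₀ (by positivity)]; nlinarith
  · rw [div_lt_iff₀ hμ]
    have h1 : l⁻¹ * l ^ 2 = l := by field_simp
    have h2 : (l⁻¹ - 3 * ρ) * (l ^ 2 - 2 * ρ) = l - 3 * ρ * l ^ 2 - 2 * ρ * l⁻¹ + 6 * ρ ^ 2 := by
      linear_combination h1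
    rw [h2]
    nlinarith [mul_pos hρ0 hli0, mul_pos hρ0 hl0, mul_pos hρ0 (sub_pos.2 hl),
      mul_pos hρ0 (sub_pos.2 hl2), mul_pos hρ0 (sub_pos.2 hl3), mul_pos (mul_pos hρ0 (sub_pos.2 hl)) hl0,
      mul_pos (mul_pos (mul_pos hρ0 (sub_pos.2 hl)) hl0) hl0, mul_lt_mul_of_pos_left hli hρ0]
  · rw [lt_div_iff₀ (by positivity)]
    have hρ1 : ρ < 1 := by nlinarith
    nlinarith [mul_pos hρ0 hl0, mul_pos hρ0 (sub_pos.2 hl),
      mul_pos hρ0 (sub_pos.2 hl2), mul_pos hρ0 (sub_pos.2 hl3),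
      mul_pos (mul_pos hρ0 (sub_pos.2 hl)) hl0,
      mul_pos (mul_pos (mul_pos hρ0 (sub_pos.2 hl)) hl0) hl0, mul_pos hρ0 hρ0,
      mul_lt_mul_of_pos_left hρ1 hρ0, mul_lt_mul_of_pos_left hρ1 (mul_pos hρ0 (by positivity : 0 < l ^ 2))]
  · -- contraction of the stable line
    intro x z
    have e : (mkSplit m w m' w').s x z = ((w' x (bv 5 + m' x))⁻¹ * w' x z) • (bv 5 + m' x) :=
      pr_apply _ _ _
    rw [e, map_smul, b1, norm_smul, norm_smul, norm_smul]
    have h1 : ‖bv 5 + m' (F x)‖ ≤ 1 + ρ := by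
      calc ‖bv 5 + m' (F x)‖ ≤ ‖bv 5‖ + ‖m' (F x)‖ := norm_add_le _ _
        _ ≤ 1 + ρ := add_le_add (norm_bv 5).le ((H'.norm_m _).trans hrρ)
    have h2 := one_le_norm_add (H'.m_j x)
    have h3 := H'.c_bd (F x)
    rw [abs_le] at h3
    have h4 : l ^ 2 - 2 * ρ ≤ b (F x) := by linarith
    have h5 : ‖(b (F x))⁻¹‖ ≤ (l ^ 2 - 2 * ρ)⁻¹ := by
      rw [norm_inv, Real.norm_eq_abs, abs_of_pos (by linarith)]
      gcongr
    set t := ‖(w' x (bv 5 + m' x))⁻¹ * w' x z‖ with ht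
    have ht0 : 0 ≤ t := norm_nonneg _
    calc t * (‖(b (F x))⁻¹‖ * ‖bv 5 + m' (F x)‖) ≤ t * ((l ^ 2 - 2 * ρ)⁻¹ * (1 + ρ)) := by gcongr
      _ = (1 + ρ) / (l ^ 2 - 2 * ρ) * (t * 1) := by rw [mul_one]; ring
      _ ≤ _ := by gcongr
  · -- lower bound on the centre
    intro x z
    set y := (mkSplit m w m' w').c x z with hy
    have hy5 : w' x y = 0 := by
      have e : y = z - (pr (w' x) (bv 5 + m' x)) z - (pr (w x) (bv 2 + m x)) z := rfl
      rw [e, map_sub, map_sub, pr_apply, pr_apply, map_smul, map_smul, z2, smul_eq_mul,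
        smul_eq_mul, mul_zero, sub_zero]
      have := hwv' x
      field_simp
      ring
    have h5 : |y 5| ≤ r * ‖y‖ := by
      have : y 5 = -((w' x - pj 5) y) := by rw [_root_.sub_apply, hy5, pj_apply]; ring
      rw [this, abs_neg]
      exact (w' x - pj 5).le_of_opNorm_le (H'.norm_w x) y
    have h6 : l⁻¹ * ‖y - y 5 • bv 5‖ ≤ ‖diag (dl l) (y - y 5 • bv 5)‖ := by
      refine le_norm_diag hli0 fun i => ?_
      rcases eq_or_ne i 5 with rfl | hi
      · right; rw [PiLp.sub_apply, PiLp.smul_apply, bv_apply]; simp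
      · left; exact le_dl hl i hi
    have h7 : diag (dl l) (bv 5) = (l ^ 2)⁻¹ • bv 5 := by
      ext i
      rw [diag_apply, PiLp.smul_apply, bv_apply]
      split_ifs with hi
      · rw [hi]; rfl
      · simp
    have h8 : ‖y‖ - r * ‖y‖ ≤ ‖y - y 5 • bv 5‖ := by
      have : ‖y‖ - ‖y 5 • bv 5‖ ≤ ‖y - y 5 • bv 5‖ := norm_sub_norm_le _ _
      rw [norm_smul, norm_bv, mul_one, Real.norm_eq_abs] at this
      linarith
    have h9 : ‖diag (dl l) (y - y 5 • bv 5)‖ ≤ ‖diag (dl l) y‖ + r * ‖y‖ := by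
      rw [map_sub, map_smul, h7]
      refine (norm_sub_le _ _).trans ?_
      rw [norm_smul, norm_smul, norm_bv, mul_one, Real.norm_eq_abs, norm_inv, Real.norm_eq_abs,
        abs_of_pos (by positivity : (0:ℝ) < l ^ 2)]
      have : (l ^ 2)⁻¹ ≤ 1 := inv_le_one_of_one_le₀ hl2.le
      have h10 : |y 5| * (l ^ 2)⁻¹ ≤ r * ‖y‖ * 1 := by gcongr
      linarith
    have h10 : ‖diag (dl l) y‖ ≤ ‖coc F x y‖ + ε * ‖y‖ := by
      have e : diag (dl l) y = coc F x y - (coc F x - diag (dl l)) y := by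
        rw [_root_.sub_apply]; abel
      rw [e]
      refine (norm_sub_le _ _).trans ?_
      have := (coc F x - diag (dl l)).le_of_opNorm_le (hAL x) y
      linarith
    have h11 : l⁻¹ * (‖y‖ - r * ‖y‖) ≤ ‖coc F x y‖ + ε * ‖y‖ + r * ‖y‖ := by
      have : l⁻¹ * (‖y‖ - r * ‖y‖) ≤ l⁻¹ * ‖y - y 5 • bv 5‖ := by gcongr
      linarith
    have h12 : r * ‖y‖ ≤ ρ * ‖y‖ := by gcongr
    have h13 : ε * ‖y‖ ≤ ρ * ‖y‖ := by gcongr
    have h14 : l⁻¹ * (r * ‖y‖) ≤ ρ * ‖y‖ := by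
      calc l⁻¹ * (r * ‖y‖) ≤ 1 * (ρ * ‖y‖) := by gcongr
        _ = ρ * ‖y‖ := one_mul _
    nlinarith
  · -- upper bound on the centre
    intro x z
    set y := (mkSplit m w m' w').c x z with hy
    have hy2 : w x y = 0 := by
      have e : y = z - (pr (w' x) (bv 5 + m' x)) z - (pr (w x) (bv 2 + m x)) z := rfl
      rw [e, map_sub, map_sub, pr_apply, pr_apply, map_smul, map_smul, z1, smul_eq_mul,
        smul_eq_mul, mul_zero, sub_zero]
      have := hwv x
      field_simp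
      ring
    have h5 : |y 2| ≤ r * ‖y‖ := by
      have : y 2 = -((w x - pj 2) y) := by rw [_root_.sub_apply, hy2, pj_apply]; ring
      rw [this, abs_neg]
      exact (w x - pj 2).le_of_opNorm_le (H.norm_w x) y
    have h6 : ‖diag (dl l) (y - y 2 • bv 2)‖ ≤ l * ‖y - y 2 • bv 2‖ := by
      refine norm_diag_le hl0.le fun i => ?_
      rcases eq_or_ne i 2 with rfl | hi
      · right; rw [PiLp.sub_apply, PiLp.smul_apply, bv_apply]; simp
      · left; exact dl_le hl i hi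
    have h7 : diag (dl l) (bv 2) = (l ^ 2) • bv 2 := by
      ext i
      rw [diag_apply, PiLp.smul_apply, bv_apply]
      split_ifs with hi
      · rw [hi]; rfl
      · simp
    have h8 := norm_sub_coord_le 2 y
    have h9 : ‖diag (dl l) y‖ ≤ l * ‖y‖ + l ^ 2 * (r * ‖y‖) := by
      have e : diag (dl l) y = diag (dl l) (y - y 2 • bv 2) + (y 2) • (l ^ 2) • bv 2 := by
        rw [map_sub, map_smul, h7]; abel
      rw [e]
      refine (norm_add_le _ _).trans ?_
      rw [norm_smul, norm_smul, norm_bv, mul_one, Real.norm_eq_abs, Real.norm_eq_abs,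
        abs_of_pos (by positivity : (0:ℝ) < l ^ 2)]
      have h9 : l * ‖y - y 2 • bv 2‖ ≤ l * ‖y‖ := by gcongr
      have h10 : |y 2| * l ^ 2 ≤ r * ‖y‖ * l ^ 2 := by gcongr
      linarith
    have h10 : ‖coc F x y‖ ≤ ‖diag (dl l) y‖ + ε * ‖y‖ := by
      have e : coc F x y = diag (dl l) y + (coc F x - diag (dl l)) y := by
        rw [_root_.sub_apply]; abel
      rw [e]
      refine (norm_add_le _ _).trans ?_
      have := (coc F x - diag (dl l)).le_of_opNorm_le (hAL x) y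
      linarith
    have h12 : l ^ 2 * (r * ‖y‖) ≤ l ^ 2 * (ρ * ‖y‖) := by gcongr
    have h13 : ε * ‖y‖ ≤ ρ * ‖y‖ := by gcongr
    calc ‖coc F x y‖ ≤ l * ‖y‖ + l ^ 2 * (ρ * ‖y‖) + ρ * ‖y‖ := by linarith
      _ = (l + (l ^ 2 + 1) * ρ) * ‖y‖ := by ring
  · -- expansion of the unstable line
    intro x z
    have e : (mkSplit m w m' w').u x z = ((w x (bv 2 + m x))⁻¹ * w x z) • (bv 2 + m x) :=
      pr_apply _ _ _
    rw [e, map_smul, H.eq_m, norm_smul, norm_smul, norm_smul]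
    have h1 : ‖bv 2 + m x‖ ≤ 1 + ρ := by
      calc ‖bv 2 + m x‖ ≤ ‖bv 2‖ + ‖m x‖ := norm_add_le _ _
        _ ≤ 1 + ρ := add_le_add (norm_bv 2).le ((H.norm_m _).trans hrρ)
    have h2 := one_le_norm_add (H.m_j (F x))
    have h3 := H.c_bd x
    rw [abs_le] at h3
    have h4 : l ^ 2 - 2 * ρ ≤ c x := by linarith
    have h5 : l ^ 2 - 2 * ρ ≤ ‖c x‖ := by
      rw [Real.norm_eq_abs, abs_of_pos (by linarith)]
      exact h4
    set t := ‖(w x (bv 2 + m x))⁻¹ * w x z‖ with ht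
    have ht0 : 0 ≤ t := norm_nonneg _
    calc (l ^ 2 - 2 * ρ) / (1 + ρ) * (t * ‖bv 2 + m x‖) ≤
        (l ^ 2 - 2 * ρ) / (1 + ρ) * (t * (1 + ρ)) := by gcongr
      _ = t * ((l ^ 2 - 2 * ρ) * 1) := by field_simp
      _ ≤ t * (‖c x‖ * ‖bv 2 + m (F x)‖) := by gcongr

end two

end Pool.Agent.Lib.MP_48de40_an
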