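import Pool.Agent.Lib.MP_48de40_an.Persist3

/-!
# Persistence of the partially hyperbolic splitting for maps close to the model
-/

open MeasureTheory Set Filter Topology
open scoped ContDiff

namespace Pool.Agent.Lib.MP_48de40_an

theorem continuous_coc {F : V → V} (hF : ContDiff ℝ 1 F) : Continuous (coc F) := by
  unfold coc
  have h1 : Continuous (fun x => cf (F x)) := (contDiff_cf (n := 0)).continuous.comp hF.continuous
  have h2 : Continuous (fun x => fderiv ℝ F x) := hF.continuous_fderiv (by norm_num)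
  exact h1.clm_comp (h2.clm_comp (contDiff_fr (n := 0)).continuous)

theorem coc_id (x : V) : coc id x = ContinuousLinearMap.id ℝ E := by
  ext1 v
  simp [coc]

theorem coc_inv {F G : V → V} (hF : Differentiable ℝ F) (hG : Differentiable ℝ G)
    (hFG : ∀ x, F (G x) = x) (x : V) :
    (coc F (G x)).comp (coc G x) = ContinuousLinearMap.id ℝ E := by
  rw [← coc_comp (hF _) (hG _)]
  have : F ∘ G = id := funext hFG
  rw [this, coc_id]

theorem VolDiffeo.of_le {n k : WithTop ℕ∞} {F : V → V} (h : VolDiffeo n F) (hk : k ≤ n) :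
    VolDiffeo k F := by
  obtain ⟨G, hG, h1, h2⟩ := h.inverse
  exact ⟨h.smooth.of_le hk, ⟨G, hG.of_le hk, h1, h2⟩, h.lift, h.volume_preserving⟩

theorem inv_lift {F G : V → V} (hGF : ∀ x, G (F x) = x) (hFG : ∀ x, F (G x) = x)
    {α : Gam ≃* Gam} (h : ∀ (g : Gam) (x : V), F (g • x) = α g • F x) (g : Gam) (x : V) :
    G (g • x) = α.symm g • G x := by
  have h1 := h (α.symm g) (G x)
  rw [hFG, MulEquiv.apply_symm_apply] at h1
  rw [← h1, hGF]

theorem Half.mono {F : V → V} {A : V → E →L[ℝ] E} {j : Fin 6} {μ r ε r' ε' : ℝ} {m : V → E}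
    {w : V → E →L[ℝ] ℝ} {c c' : V → ℝ} (H : Half F A j μ r ε m w c c') (hr : r ≤ r')
    (hε : ε ≤ ε') : Half F A j μ r' ε' m w c c' :=
  ⟨H.cont_m, H.cont_w, H.m_j, H.w_j, fun x => (H.norm_m x).trans hr, fun x =>
    (H.norm_w x).trans hr, H.deck_m, H.deck_w, H.eq_m, H.eq_w,
    fun x => (H.c_bd x).trans (by linarith), fun x => (H.c_bd' x).trans (by linarith)⟩

theorem persist {l : ℝ} (hl : 1 < l) : ∃ ε0 > 0, ∃ C > 0, ∀ F : V → V, VolDiffeo 1 F →
    ∀ ε ≤ ε0, (∀ x, ‖coc F x - diag (dl l)‖ ≤ ε) →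
    ∃ (P : Splitting) (m : V → E) (c : V → ℝ), IsPH 0 F P ∧ Near (C * ε) P P0 ∧
      Continuous m ∧ (∀ x, m x 2 = 0) ∧ (∀ x, ‖m x‖ ≤ 8 * ε / (l ^ 2 - l)) ∧
      (∀ (g : Gam) (x : V), m (g • x) = m x) ∧
      (∀ x, coc F x (bv 2 + m x) = c x • (bv 2 + m (F x))) ∧
      (∀ x, LinearMap.range (P.u x).toLinearMap = Submodule.span ℝ {bv 2 + m x}) := by
  have hl0 : 0 < l := by linarith
  have hδ : 0 < l ^ 2 - l := by nlinarith
  have hl4 : 1 < l ^ 4 := one_lt_pow₀ hl (by norm_num)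
  have hρ := rho_pos hl
  refine ⟨min ((l ^ 2 - l) / (32 * l ^ 4)) (min (rho l * (l ^ 2 - l) / (16 * l ^ 4))
    (min (rho l / (2 * l ^ 4)) (1 / (2 * l ^ 2)))), ?_, 160 * l ^ 4 / (l ^ 2 - l),
    by positivity, ?_⟩
  · refine lt_min (by positivity) (lt_min (by positivity) (lt_min (by positivity) (by positivity)))
  intro F hF ε hε hAL
  rw [le_min_iff, le_min_iff, le_min_iff] at hε
  obtain ⟨e1, e2, e3, e4⟩ := hε
  rw [le_div_iff₀ (by positivity)] at e1 e2 e3 e4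
  have hε0 : 0 ≤ ε := (norm_nonneg _).trans (hAL 0)
  obtain ⟨G, hG, hGF, hFG⟩ := hF.inverse
  obtain ⟨α, hα⟩ := hF.lift
  have hFd : Differentiable ℝ F := hF.smooth.differentiable (by norm_num)
  have hGd : Differentiable ℝ G := hG.differentiable (by norm_num)
  have hAB : ∀ x, (coc F x).comp (coc G (F x)) = ContinuousLinearMap.id ℝ E := by
    intro x
    have := coc_inv hFd hGd hFG (F x)
    rwa [hGF] at this
  have hBA : ∀ x, (coc G (F x)).comp (coc F x) = ContinuousLinearMap.id ℝ E :=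
    fun x => coc_inv hGd hFd hGF x
  have hGl := inv_lift hGF hFG hα
  have hεε' : ε ≤ 2 * l ^ 4 * ε := by nlinarith
  have hBL : ∀ x, ‖coc G x - diag (dl' l)‖ ≤ 2 * l ^ 4 * ε := by
    intro x
    refine norm_inv_sub hl (A := coc F (G x)) (coc_inv hFd hGd hFG x) (hAL _) ?_
    linarith
  obtain ⟨m, w, c, c', H⟩ := exists_half hF.smooth.continuous hG.continuous hGF
    (fun g x => ⟨α g, hα g x⟩) (fun g x => ⟨α.symm g, hGl g x⟩) (continuous_coc hF.smooth)
    (coc_deck hFd hα) (d := dl l) (j := 2) (μ := l ^ 2) (κ := l) (ε := ε) hl0.le (by linarith)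
    (dl_two l) (dl_le hl) (by linarith) hAL
  obtain ⟨m', w', b, b', H'⟩ := exists_half hG.continuous hF.smooth.continuous hFG
    (fun g x => ⟨α.symm g, hGl g x⟩) (fun g x => ⟨α g, hα g x⟩) (continuous_coc hG)
    (coc_deck hGd hGl) (d := dl' l) (j := 5) (μ := l ^ 2) (κ := l) (ε := 2 * l ^ 4 * ε) hl0.le
    (by linarith) (dl'_five l) (dl'_le hl) (by linarith) hBL
  have hr1 : 8 * (2 * l ^ 4 * ε) / (l ^ 2 - l) ≤ 1 / 2 := by
    rw [div_le_iff₀ hδ]; linarith
  have hr2 : 8 * (2 * l ^ 4 * ε) / (l ^ 2 - l) ≤ rho l := by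
    rw [div_le_iff₀ hδ]; linarith
  have hr3 : 8 * ε / (l ^ 2 - l) ≤ 8 * (2 * l ^ 4 * ε) / (l ^ 2 - l) := by gcongr
  have HH := H.mono hr3 hεε'
  refine ⟨mkSplit m w m' w', m, c, ?_, ?_, H.cont_m, H.m_j, H.norm_m, H.deck_m, H.eq_m, ?_⟩
  · exact isPH_mk hl (by linarith) hr1 hr2 (by linarith) hGF hFG hAB hBA
      (fun x => (hAL x).trans hεε') HH H'
  · have := near_mk hr1 HH H'
    have e : 10 * (8 * (2 * l ^ 4 * ε) / (l ^ 2 - l)) = 160 * l ^ 4 / (l ^ 2 - l) * ε := by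
      field_simp; ring
    rwa [e] at this
  · intro x
    exact range_pr (HH.wv hr1 x)

end Pool.Agent.Lib.MP_48de40_an
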